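import Pool.Agent.Helper834.Lower

/-!
Comparison of the word of a factorization with the standard word.
-/

namespace Pool.Agent.Helper834.LT

open scoped ComplexConjugate
open Pool.Agent.Helper496.BraidFact

variable {V : Type} [AddCommGroup V] [Module ℂ V]
variable {h : V →ₗ⋆[ℂ] V →ₗ[ℂ] ℂ} {t : ℂ}

/-- Length of the block of a special point. -/
def len : Kind → ℕ
  | .tangency => 1
  | .posNode => 2
  | .negNode => 2
  | .cusp => 3

/-- Sign of the block of a special point. -/
def isNeg : Kind → Bool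
  | .negNode => true
  | _ => false

/-- Contribution of the block to the positive index. -/
def gain : Kind → ℕ
  | .tangency => 0
  | .posNode => 1
  | .negNode => 0
  | .cusp => 2

variable {d : ℕ} (Y : Sys d h t)

/-- The letter of a factor. -/
def Sys.flet (p : Factor d) : Letter h t :=
  ⟨Y.ρ p.b (Y.v p.i), by rw [Y.ρ_h, Y.hv], isNeg p.kind⟩

/-- The word of a factor. -/
def Sys.fword (p : Factor d) : List (Letter h t) := List.replicate (len p.kind) (Y.flet p)

/-- The word of a factorization. -/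
def Sys.word (F : List (Factor d)) : List (Letter h t) := (F.map Y.fword).flatten

theorem cls_replicate (u : List (Letter h t)) (l : Letter h t) (n : ℕ) :
    cls u (List.replicate n l) = cls u [l] ^ n := by
  induction n with
  | zero => rw [List.replicate_zero, cls_nil, pow_zero]
  | succ n ih => rw [List.replicate_succ, cls_cons, ih, pow_succ']

variable (hu : ∀ x, Reach Y.u x)

theorem Sys.cls_conj (b : BraidGroup d) (l : Letter h t) :
    (Y.Φ hu b : (wcon Y.u).Quotient) * cls Y.u [l] * ((Y.Φ hu b)⁻¹ : (wcon Y.u).Quotientˣ) =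
      cls Y.u [l.map (Y.ρ b) (Y.ρ_h b)] := by
  rw [Y.Φ_conj hu b l, mul_assoc, Units.mul_inv, mul_one]

theorem Sys.cls_fword (p : Factor d) : cls Y.u (Y.fword p) = (Y.Φ hu p.braid :
    (wcon Y.u).Quotient) := by
  rcases p with ⟨b, i, k⟩
  have h1 := Y.cls_conj hu b (Y.pl i)
  have h2 := Y.cls_conj hu b (Y.pl i).inv
  rw [Sys.fword, cls_replicate, Factor.braid]
  simp only [map_mul, map_zpow, map_inv, Units.val_mul, Y.Φ_sig]
  cases k
  · have e : Y.flet ⟨b, i, .tangency⟩ = (Y.pl i).map (Y.ρ b) (Y.ρ_h b) := rfl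
    rw [e, ← h1]
    simp only [len, Kind.expo, pow_one, zpow_one]
    rfl
  · have e : Y.flet ⟨b, i, .posNode⟩ = (Y.pl i).map (Y.ρ b) (Y.ρ_h b) := rfl
    rw [e, ← h1, Units.conj_pow]
    rfl
  · have e : Y.flet ⟨b, i, .negNode⟩ = (Y.pl i).inv.map (Y.ρ b) (Y.ρ_h b) := rfl
    rw [e, ← h2, Units.conj_pow]
    rfl
  · have e : Y.flet ⟨b, i, .cusp⟩ = (Y.pl i).map (Y.ρ b) (Y.ρ_h b) := rfl
    rw [e, ← h1, Units.conj_pow]
    rfl

theorem Sys.cls_word (F : List (Factor d)) : cls Y.u (Y.word F) =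
    (Y.Φ hu (F.map Factor.braid).prod : (wcon Y.u).Quotient) := by
  induction F with
  | nil => rw [List.map_nil, List.prod_nil, map_one]; rfl
  | cons p F ih =>
    rw [List.map_cons, List.prod_cons, map_mul, Units.val_mul, ← Y.cls_fword hu, ← ih,
      ← cls_append]
    rfl

theorem Sys.cls_u : cls Y.u Y.u = (Y.Φ hu (rot d) : (wcon Y.u).Quotient) := by
  have : ∀ L : List (Fin (d - 1)), cls Y.u (L.map Y.pl) =
      (Y.Φ hu (L.map sig).prod : (wcon Y.u).Quotient) := by
    intro L
    induction L with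
    | nil => rw [List.map_nil, List.map_nil, List.prod_nil, map_one]; rfl
    | cons i L ih =>
      rw [List.map_cons, List.map_cons, List.prod_cons, map_mul, Units.val_mul, cls_cons, ih,
        Y.Φ_sig]
      rfl
  exact this _

/-- The standard word. -/
def Sys.um (m : ℕ) : List (Letter h t) := (List.replicate m Y.u).flatten

theorem Sys.cls_um (m : ℕ) : cls Y.u (Y.um m) =
    (Y.Φ hu (rot d ^ m) : (wcon Y.u).Quotient) := by
  induction m with
  | zero => rw [pow_zero, map_one]; rfl
  | succ m ih =>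
    rw [pow_succ', map_mul, Units.val_mul, ← ih, ← Y.cls_u hu, ← cls_append]
    rfl

/-- The inverse word. -/
def winv (w : List (Letter h t)) : List (Letter h t) := (w.map Letter.inv).reverse

theorem cancel_inv (hs : Sym h) (ht : conj t * t = 1) (w : List (Letter h t)) :
    ∀ (A B : List (Letter h t)), (∀ x, Reach B x) → ∀ n : ℤ,
    (PosZ (space (A ++ (w ++ (winv w ++ B)))) (n + w.length) ↔ PosZ (space (A ++ B)) n) := by
  induction w with
  | nil => intro A B _ n; simp [winv]
  | cons l w ih =>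
    intro A B hB n
    have h1 := ih (A ++ [l]) (l.inv :: B) (fun x => (hB x).cons _) (n + 1)
    have h2 := cancel_word hs ht A B l ((hB l.x).append_left A) n
    rw [← h2]
    have e1 : A ++ (l :: w ++ (winv (l :: w) ++ B)) =
        A ++ [l] ++ (w ++ (winv w ++ (l.inv :: B))) := by
      simp [winv]
    have e2 : A ++ l :: l.inv :: B = A ++ [l] ++ (l.inv :: B) := by simp
    have e3 : n + ((l :: w).length : ℤ) = n + 1 + (w.length : ℤ) := by
      rw [List.length_cons]; push_cast; ring
    rw [e1, e2, e3, h1]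

theorem Reach.smul {w : List (Letter h t)} {x : V} (hx : Reach w x) (c : ℂ) :
    Reach w (c • x) := by
  obtain ⟨e, he⟩ := hx
  exact ⟨c • e, by rw [map_smul, he]⟩

theorem Reach.add {w : List (Letter h t)} {x y : V} (hx : Reach w x) (hy : Reach w y) :
    Reach w (x + y) := by
  obtain ⟨e, he⟩ := hx
  obtain ⟨f, hf⟩ := hy
  exact ⟨e + f, by rw [map_add, he, hf]⟩

theorem Reach.self (l : Letter h t) (w : List (Letter h t)) : Reach (l :: w) l.x := by
  refine ⟨((1, 0) : ℂ × (space w).E), ?_⟩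
  show (Sp.cons h l.x l.τ (space w)).v ((1, 0) : ℂ × (space w).E) = l.x
  rw [Sp.cons_v]; simp

/-- The action of a word on `V`. -/
def gact : List (Letter h t) → V → V
  | [] => id
  | l :: w => fun y => refl h l.x l.τ (gact w y)

theorem gact_cons (l : Letter h t) (w : List (Letter h t)) (y : V) :
    gact (l :: w) y = refl h l.x l.τ (gact w y) := rfl

theorem reach_gact (w : List (Letter h t)) (y : V) : Reach w (y - gact w y) := by
  induction w with
  | nil => exact ⟨0, by simp [gact]⟩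
  | cons l w ih =>
    have : y - gact (l :: w) y = (y - gact w y) + (conj l.τ * h l.x (gact w y)) • l.x := by
      rw [gact_cons, refl]; abel
    rw [this]
    exact (ih.cons l).add ((Reach.self l w).smul _)

theorem gact_append (w w' : List (Letter h t)) (y : V) :
    gact (w ++ w') y = gact w (gact w' y) := by
  induction w with
  | nil => rfl
  | cons l w ih => rw [List.cons_append, gact_cons, ih, gact_cons]

theorem Sys.ρ_refl (b : BraidGroup d) (i : Fin (d - 1)) (y : V) :
    refl h (Y.ρ b (Y.v i)) t y = Y.ρ (b * sig i * b⁻¹) y := by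
  have h1 := refl_conj (h := h) (x := Y.v i) (z := Y.ρ b⁻¹ y) (τ := t)
    (Y.ρ b).toLinearMap (fun a c => Y.ρ_h b a c)
  simp only [LinearEquiv.coe_coe] at h1
  have h2 : Y.ρ b (Y.ρ b⁻¹ y) = y := by
    rw [← LinearEquiv.mul_apply, ← map_mul, mul_inv_cancel, map_one]; rfl
  rw [h2] at h1
  rw [← h1, map_mul, map_mul, LinearEquiv.mul_apply, LinearEquiv.mul_apply, Y.ρ_sig]
  rfl

theorem Sys.ρ_refl_inv (b : BraidGroup d) (i : Fin (d - 1)) (y : V) :
    refl h (Y.ρ b (Y.v i)) (conj t) y = Y.ρ (b * (sig i)⁻¹ * b⁻¹) y := by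
  have h1 := Y.ρ_refl b i (refl h (Y.ρ b (Y.v i)) (conj t) y)
  have h2 : refl h (Y.ρ b (Y.v i)) t (refl h (Y.ρ b (Y.v i)) (conj t) y) = y := by
    have := refl_refl (h := h) (x := Y.ρ b (Y.v i)) (τ := conj t)
      (by rw [Complex.conj_conj, mul_comm, Y.ht])
      (by rw [Y.ρ_h, Y.hv, Complex.conj_conj, add_comm]) y
    rwa [Complex.conj_conj] at this
  rw [h2] at h1
  have h3 : Y.ρ (b * (sig i)⁻¹ * b⁻¹) y = Y.ρ (b * (sig i)⁻¹ * b⁻¹)
    (Y.ρ (b * sig i * b⁻¹) (refl h (Y.ρ b (Y.v i)) (conj t) y)) := congrArg _ h1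
  rw [h3, ← LinearEquiv.mul_apply, ← map_mul]
  have h4 : b * (sig i)⁻¹ * b⁻¹ * (b * sig i * b⁻¹) = 1 := by group
  rw [h4, map_one]
  rfl

theorem Sys.gact_fword (p : Factor d) (y : V) : gact (Y.fword p) y = Y.ρ p.braid y := by
  rcases p with ⟨b, i, k⟩
  rw [Factor.braid]
  cases k
  · show refl h (Y.ρ b (Y.v i)) t y = _
    rw [Y.ρ_refl]
    simp [Kind.expo]
  · show refl h (Y.ρ b (Y.v i)) t (refl h (Y.ρ b (Y.v i)) t y) = _
    rw [Y.ρ_refl, Y.ρ_refl, ← LinearEquiv.mul_apply, ← map_mul]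
    congr 2
    simp only [Kind.expo]
    rw [zpow_ofNat, pow_two]
    group
  · show refl h (Y.ρ b (Y.v i)) (conj t) (refl h (Y.ρ b (Y.v i)) (conj t) y) = _
    rw [Y.ρ_refl_inv, Y.ρ_refl_inv, ← LinearEquiv.mul_apply, ← map_mul]
    congr 2
    simp only [Kind.expo]
    group
  · show refl h (Y.ρ b (Y.v i)) t (refl h (Y.ρ b (Y.v i)) t
      (refl h (Y.ρ b (Y.v i)) t y)) = _
    rw [Y.ρ_refl, Y.ρ_refl, Y.ρ_refl, ← LinearEquiv.mul_apply, ← map_mul,
      ← LinearEquiv.mul_apply, ← map_mul]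
    congr 2
    simp only [Kind.expo]
    rw [zpow_ofNat, pow_succ, pow_two]
    group

theorem Sys.gact_word (F : List (Factor d)) (y : V) :
    gact (Y.word F) y = Y.ρ (F.map Factor.braid).prod y := by
  induction F generalizing y with
  | nil => rw [List.map_nil, List.prod_nil, map_one]; rfl
  | cons p F ih =>
    have : Y.word (p :: F) = Y.fword p ++ Y.word F := rfl
    rw [this, gact_append, ih, Y.gact_fword, List.map_cons, List.prod_cons, map_mul]
    rfl

theorem Sys.reach_word {F : List (Factor d)} {μ : ℂ} (hμ : μ ≠ 1)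
    (hF : ∀ y, Y.ρ (F.map Factor.braid).prod y = μ • y) (x : V) : Reach (Y.word F) x := by
  have h1 := reach_gact (Y.word F) x
  rw [Y.gact_word, hF] at h1
  have h2 := h1.smul (1 - μ)⁻¹
  have h3 : (1 - μ) ≠ 0 := sub_ne_zero.2 hμ.symm
  have h4 : (1 - μ)⁻¹ • (x - μ • x) = x := by
    rw [show x - μ • x = (1 - μ) • x by module, smul_smul, inv_mul_cancel₀ h3, one_smul]
  rwa [h4] at h2

/-- Number of factors of a kind. -/
def gains (F : List (Factor d)) : ℕ := (F.map (fun p => gain p.kind)).sum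

theorem Sys.hasPos_word (hi : 1 / 2 < t.im) (F : List (Factor d)) :
    HasPos (space (Y.word F)) (gains F) := by
  induction F with
  | nil => exact HasPos.zero _
  | cons p F ih =>
    rcases p with ⟨b, i, k⟩
    have e : Y.word (⟨b, i, k⟩ :: F) = Y.fword ⟨b, i, k⟩ ++ Y.word F := rfl
    rw [e]
    have e2 : gains (⟨b, i, k⟩ :: F) = gain k + gains F := by simp [gains]
    rw [e2, add_comm]
    have hx : h (Y.ρ b (Y.v i)) (Y.ρ b (Y.v i)) = t + conj t := by rw [Y.ρ_h, Y.hv]
    cases k
    · exact HasPos.cons ih _ _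
    · have hτ : 0 < t.im := by linarith
      exact HasPos.double ih hx hτ
    · exact HasPos.cons (HasPos.cons ih _ _) _ _
    · exact HasPos.triple ih hx Y.ht hi

/-- Number of negative nodes, doubled. -/
def negs (F : List (Factor d)) : ℤ :=
  (F.map (fun p => if isNeg p.kind then (2 : ℤ) else 0)).sum

theorem Sys.nneg_word (F : List (Factor d)) : nneg (Y.word F) = negs F := by
  induction F with
  | nil => rfl
  | cons p F ih =>
    rcases p with ⟨b, i, k⟩
    have e : Y.word (⟨b, i, k⟩ :: F) = Y.fword ⟨b, i, k⟩ ++ Y.word F := rfl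
    rw [e, nneg_append, ih]
    have e2 : negs (⟨b, i, k⟩ :: F) = (if isNeg k then (2 : ℤ) else 0) + negs F := by
      simp [negs]
    rw [e2]
    cases k <;> simp [Sys.fword, Sys.flet, len, isNeg, List.replicate_succ]

theorem Sys.nneg_um (m : ℕ) : nneg (Y.um m) = 0 := by
  have h0 : ∀ L : List (Fin (d - 1)), nneg (L.map Y.pl) = 0 := by
    intro L
    induction L with
    | nil => rfl
    | cons i L ih => rw [List.map_cons, nneg_cons, ih]; simp [Sys.pl, pos]
  induction m with
  | zero => rfl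
  | succ m ih =>
    have : Y.um (m + 1) = Y.u ++ Y.um m := by
      simp [Sys.um, List.replicate_succ]
    rw [this, nneg_append, ih, Sys.u, h0]; rfl

/-- The comparison. -/
theorem Sys.main (hu : ∀ x, Reach Y.u x) (hi : 1 / 2 < t.im) {m : ℕ} (hm : 0 < m) {μ : ℂ} (hμ : μ ≠ 1)
    (hρ : ∀ y, Y.ρ (rot d ^ m) y = μ • y) {F : List (Factor d)}
    (hF : (F.map Factor.braid).prod = rot d ^ m) :
    PosZ (space (Y.um m)) ((gains F : ℤ) - negs F) := by
  have hrel : Rel Y.u (Y.word F) (Y.um m) := by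
    rw [← cls_eq, Y.cls_word hu, Y.cls_um hu, hF]
  have hum : ∀ x, Reach (Y.um m) x := by
    intro x
    obtain ⟨m, rfl⟩ : ∃ k, m = k + 1 := ⟨m - 1, by omega⟩
    have : Y.um (m + 1) = Y.u ++ Y.um m := by
      simp [Sys.um, List.replicate_succ]
    rw [this]
    exact (hu x).append_right _
  have hc : ∀ x, Reach (Y.word F) x := fun x => Y.reach_word hμ (by rw [hF]; exact hρ) x
  have h1 := hrel (winv Y.u) [] ((gains F : ℤ) - negs F + Y.u.length)
  rw [Y.nneg_word, Y.nneg_um, List.append_nil, List.append_nil] at h1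
  have h2 := cancel_inv Y.hs Y.ht Y.u [] (Y.word F) hc (gains F : ℤ)
  have h3 := cancel_inv Y.hs Y.ht Y.u [] (Y.um m) hum ((gains F : ℤ) - negs F)
  rw [List.nil_append, List.nil_append] at h2 h3
  rw [← h3]
  rw [add_zero] at h1
  rw [← h1]
  rw [show (gains F : ℤ) - negs F + (Y.u.length : ℤ) + negs F =
    (gains F : ℤ) + (Y.u.length : ℤ) by ring, h2, PosZ, Int.toNat_natCast]
  exact Y.hasPos_word hi F

end Pool.Agent.Helper834.LT
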