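import Pool.Agent.Helper834.Std

/-!
The concrete system of vectors: the reduced unitary Burau representation in diagonal
coordinates.
-/

namespace Pool.Agent.Helper834.LT

open scoped ComplexConjugate
open Pool.Agent.Helper496.BraidFact

/-- A diagonal sesquilinear form. -/
def diagForm {n : ℕ} (w : Fin n → ℂ) : (Fin n → ℂ) →ₗ⋆[ℂ] (Fin n → ℂ) →ₗ[ℂ] ℂ :=
  LinearMap.mk₂'ₛₗ (starRingEnd ℂ) (RingHom.id ℂ)
    (fun x y => ∑ i, w i * (conj (x i) * y i))
    (by intro a a' b; rw [← Finset.sum_add_distrib]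
        refine Finset.sum_congr rfl fun i _ => ?_
        simp only [Pi.add_apply, map_add]; ring)
    (by intro c a b; rw [smul_eq_mul, Finset.mul_sum]
        refine Finset.sum_congr rfl fun i _ => ?_
        simp only [Pi.smul_apply, smul_eq_mul, map_mul]; ring)
    (by intro a b b'; rw [← Finset.sum_add_distrib]
        refine Finset.sum_congr rfl fun i _ => ?_
        simp only [Pi.add_apply]; ring)
    (by intro c a b; rw [smul_eq_mul, Finset.mul_sum]
        refine Finset.sum_congr rfl fun i _ => ?_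
        simp only [Pi.smul_apply, smul_eq_mul, RingHom.id_apply]; ring)

theorem diagForm_apply {n : ℕ} (w x y : Fin n → ℂ) :
    diagForm w x y = ∑ i, w i * (conj (x i) * y i) := rfl

theorem diagForm_half {n : ℕ} (w : Fin n → ℂ) (x y : Fin n → ℂ) :
    diagForm w x y + conj (diagForm w y x) = diagForm (fun i => w i + conj (w i)) x y := by
  rw [diagForm_apply, diagForm_apply, diagForm_apply, map_sum, ← Finset.sum_add_distrib]
  refine Finset.sum_congr rfl fun i _ => ?_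
  simp only [map_mul, Complex.conj_conj]
  ring

theorem diagForm_sym {n : ℕ} (w : Fin n → ℂ) :
    Sym (diagForm (fun i => w i + conj (w i))) := by
  intro x y
  rw [diagForm_apply, diagForm_apply, map_sum]
  refine Finset.sum_congr rfl fun i _ => ?_
  simp only [map_mul, map_add, Complex.conj_conj]
  ring

/-- The `j`-th power sum needed for the Gram matrix. -/
theorem root_sum {d : ℕ} {ζ : ℂ} (hζ : IsPrimitiveRoot ζ d) {a b : ℕ}
    (ha : a < d) (hb : b < d) :
    ∑ i ∈ Finset.range d, (ζ ^ b * (ζ⁻¹) ^ a) ^ i = if a = b then (d : ℂ) else 0 := by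
  have hd : 0 < d := by omega
  have hζ0 : ζ ≠ 0 := hζ.ne_zero (by omega)
  split_ifs with h
  · subst h
    have : ζ ^ a * (ζ⁻¹) ^ a = 1 := by
      rw [← mul_pow, mul_inv_cancel₀ hζ0, one_pow]
    rw [this]; simp
  · have h1 : ζ ^ b * (ζ⁻¹) ^ a ≠ 1 := by
      intro h2
      apply h
      rw [inv_pow, mul_inv_eq_one₀ (pow_ne_zero _ hζ0)] at h2
      exact (hζ.pow_inj hb ha h2).symm
    have h2 : (ζ ^ b * (ζ⁻¹) ^ a) ^ d = 1 := by
      rw [mul_pow, ← pow_mul, ← pow_mul, mul_comm b, mul_comm a, pow_mul, pow_mul, hζ.pow_eq_one,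
        inv_pow, hζ.pow_eq_one]
      simp
    rw [geom_sum_eq h1, h2, sub_self, zero_div]

/-- The Gram matrix computation. -/
theorem gram_sum {d : ℕ} (hd : 2 ≤ d) {ζ t : ℂ} (hζ : IsPrimitiveRoot ζ d)
    (hζc : conj ζ = ζ⁻¹) (ht : conj t * t = 1) (a b : Fin (d - 1)) :
    ∑ i : Fin (d - 1), (t / d * (1 - conj (ζ ^ ((i : ℕ) + 1)))) *
      (conj ((ζ ^ ((i : ℕ) + 1) * conj t) ^ (a : ℕ)) * (ζ ^ ((i : ℕ) + 1) * conj t) ^ (b : ℕ)) =
      (if (a : ℕ) = b then t else 0) - (if (a : ℕ) + 1 = b then 1 else 0) := by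
  have hd0 : (d : ℂ) ≠ 0 := by
    have : d ≠ 0 := by omega
    exact_mod_cast this
  have ht0 : t ≠ 0 := by
    intro h; rw [h] at ht; simp at ht
  have hζ0 : ζ ≠ 0 := hζ.ne_zero (by omega)
  have htc : conj t = t⁻¹ := eq_inv_of_mul_eq_one_left ht
  let f : ℕ → ℂ := fun i => (1 - conj (ζ ^ i)) *
      (conj ((ζ ^ i * conj t) ^ (a : ℕ)) * (ζ ^ i * conj t) ^ (b : ℕ))
  have hf : ∀ i, f i = t ^ (a : ℕ) * t⁻¹ ^ (b : ℕ) *
      ((ζ ^ (b : ℕ) * (ζ⁻¹) ^ (a : ℕ)) ^ i - (ζ ^ (b : ℕ) * (ζ⁻¹) ^ ((a : ℕ) + 1)) ^ i) := by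
    intro i
    show (1 - conj (ζ ^ i)) *
      (conj ((ζ ^ i * conj t) ^ (a : ℕ)) * (ζ ^ i * conj t) ^ (b : ℕ)) = _
    have htc' : conj t⁻¹ = t := by rw [← htc, Complex.conj_conj]
    simp only [map_pow, map_mul, hζc, htc, htc']
    ring
  have h1 : ∑ i : Fin (d - 1), (t / d * (1 - conj (ζ ^ ((i : ℕ) + 1)))) *
      (conj ((ζ ^ ((i : ℕ) + 1) * conj t) ^ (a : ℕ)) * (ζ ^ ((i : ℕ) + 1) * conj t) ^ (b : ℕ)) =
      t / d * ∑ i ∈ Finset.range d, f i := by
    have e1 : ∑ i ∈ Finset.range d, f i = ∑ i ∈ Finset.range (d - 1), f (i + 1) := by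
      obtain ⟨e, rfl⟩ : ∃ e, d = e + 1 := ⟨d - 1, by omega⟩
      rw [Finset.sum_range_succ']
      have : f 0 = 0 := by simp [f]
      rw [this, add_zero]; rfl
    rw [e1, Finset.sum_range, Finset.mul_sum]
    refine Finset.sum_congr rfl fun i _ => ?_
    show _ = t / d * ((1 - conj (ζ ^ ((i : ℕ) + 1))) *
      (conj ((ζ ^ ((i : ℕ) + 1) * conj t) ^ (a : ℕ)) * (ζ ^ ((i : ℕ) + 1) * conj t) ^ (b : ℕ)))
    ring
  rw [h1]
  simp only [hf]
  rw [← Finset.mul_sum, Finset.sum_sub_distrib, root_sum hζ (by omega) (by omega),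
    root_sum hζ (by omega) (by omega)]
  by_cases h2 : (a : ℕ) = b
  · have h3 : ¬ ((a : ℕ) + 1 = b) := by omega
    rw [if_pos h2, if_neg h3, if_pos h2, if_neg h3, h2, ← mul_pow, mul_inv_cancel₀ ht0,
      one_pow, one_mul, sub_zero, sub_zero, div_mul_cancel₀ _ hd0]
  · rw [if_neg h2, if_neg h2]
    by_cases h3 : (a : ℕ) + 1 = b
    · have e : t ^ (a : ℕ) * t⁻¹ ^ ((a : ℕ) + 1) = t⁻¹ := by
        rw [pow_succ, ← mul_assoc, ← mul_pow, mul_inv_cancel₀ ht0, one_pow, one_mul]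
      rw [if_pos h3, if_pos h3, ← h3, e]
      field_simp
      ring
    · rw [if_neg h3, if_neg h3]; ring

/-! ### Parameters -/

/-- The angle `π (i + 1) / d`. -/
noncomputable def th (d : ℕ) (i : Fin (d - 1)) : ℝ := Real.pi * ((i : ℕ) + 1) / d

/-- The angle `π ((i + 1) / d - α)`. -/
noncomputable def ph (d : ℕ) (α : ℝ) (i : Fin (d - 1)) : ℝ := th d i - Real.pi * α

/-- The parameter `exp (i π α)`. -/
noncomputable def tt (α : ℝ) : ℂ := Complex.exp ((Real.pi * α : ℝ) * Complex.I)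

/-- The root of unity `exp (2 π i / d)`. -/
noncomputable def zz (d : ℕ) : ℂ := Complex.exp (2 * Real.pi * Complex.I / d)

/-- The diagonal coefficients. -/
noncomputable def tau (d : ℕ) (α : ℝ) (i : Fin (d - 1)) : ℂ :=
  tt α / d * (1 - conj (zz d ^ ((i : ℕ) + 1)))

/-- The nodes of the coordinates. -/
noncomputable def lam (d : ℕ) (α : ℝ) (i : Fin (d - 1)) : ℂ :=
  zz d ^ ((i : ℕ) + 1) * conj (tt α)

/-- The modulus of `tau`. -/
noncomputable def rr (d : ℕ) (i : Fin (d - 1)) : ℝ := 2 * Real.sin (th d i) / d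

theorem conj_exp_I (x : ℝ) : conj (Complex.exp (x * Complex.I)) = Complex.exp (-x * Complex.I) := by
  rw [← Complex.exp_conj, map_mul, Complex.conj_I, Complex.conj_ofReal]
  ring_nf

theorem tt_unit (α : ℝ) : conj (tt α) * tt α = 1 := by
  rw [tt, conj_exp_I, ← Complex.exp_add]
  have : -((Real.pi * α : ℝ) : ℂ) * Complex.I + ((Real.pi * α : ℝ) : ℂ) * Complex.I = 0 := by ring
  rw [this, Complex.exp_zero]

theorem zz_prim {d : ℕ} (hd : 2 ≤ d) : IsPrimitiveRoot (zz d) d :=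
  Complex.isPrimitiveRoot_exp d (by omega)

theorem zz_conj {d : ℕ} : conj (zz d) = (zz d)⁻¹ := by
  rw [zz, ← Complex.exp_conj, ← Complex.exp_neg]
  congr 1
  simp only [map_div₀, map_mul, Complex.conj_I, Complex.conj_ofReal, map_ofNat, map_natCast]
  ring

theorem zz_pow {d : ℕ} (i : Fin (d - 1)) :
    zz d ^ ((i : ℕ) + 1) = Complex.exp ((2 * th d i : ℝ) * Complex.I) := by
  rw [zz, ← Complex.exp_nat_mul, th]
  congr 1
  push_cast
  ring

theorem one_sub_exp (x : ℝ) : 1 - Complex.exp (-(2 * x : ℝ) * Complex.I) =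
    2 * Complex.I * Real.sin x * Complex.exp (-x * Complex.I) := by
  have h1 : (Real.sin x : ℂ) = (Complex.exp (x * Complex.I) - Complex.exp (-x * Complex.I)) /
      (2 * Complex.I) := by
    rw [Complex.ofReal_sin, Complex.sin]
    have : Complex.I ≠ 0 := Complex.I_ne_zero
    field_simp
    rw [Complex.I_sq]; ring
  have h2 : (2 * Complex.I : ℂ) ≠ 0 := by simp
  rw [h1, mul_div_cancel₀ _ h2, sub_mul, ← Complex.exp_add, ← Complex.exp_add]
  have e1 : (x : ℂ) * Complex.I + -x * Complex.I = 0 := by ring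
  have e2 : -(x : ℂ) * Complex.I + -x * Complex.I = -(2 * x : ℝ) * Complex.I := by
    push_cast; ring
  rw [e1, e2, Complex.exp_zero]

theorem tau_polar {d : ℕ} (α : ℝ) (i : Fin (d - 1)) :
    tau d α i = (rr d i : ℂ) * (Complex.I * Complex.exp (-(ph d α i : ℝ) * Complex.I)) := by
  rw [tau, zz_pow, conj_exp_I, one_sub_exp, tt, rr, ph]
  have : Complex.exp (-((th d i - Real.pi * α : ℝ) : ℂ) * Complex.I) =
      Complex.exp ((Real.pi * α : ℝ) * Complex.I) * Complex.exp (-(th d i) * Complex.I) := by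
    rw [← Complex.exp_add]
    congr 1
    push_cast
    ring
  rw [this]
  push_cast
  ring

theorem exp_neg_I_re (x : ℝ) : (Complex.exp (-(x : ℂ) * Complex.I)).re = Real.cos x := by
  have : -(x : ℂ) * Complex.I = ((-x : ℝ) : ℂ) * Complex.I := by push_cast; ring
  rw [this, Complex.exp_ofReal_mul_I_re, Real.cos_neg]

theorem exp_neg_I_im (x : ℝ) : (Complex.exp (-(x : ℂ) * Complex.I)).im = -Real.sin x := by
  have : -(x : ℂ) * Complex.I = ((-x : ℝ) : ℂ) * Complex.I := by push_cast; ring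
  rw [this, Complex.exp_ofReal_mul_I_im, Real.sin_neg]

theorem tau_re {d : ℕ} (α : ℝ) (i : Fin (d - 1)) :
    (tau d α i).re = rr d i * Real.sin (ph d α i) := by
  rw [tau_polar, Complex.re_ofReal_mul, Complex.I_mul_re, exp_neg_I_im, neg_neg]

theorem tau_im {d : ℕ} (α : ℝ) (i : Fin (d - 1)) :
    (tau d α i).im = rr d i * Real.cos (ph d α i) := by
  rw [tau_polar, Complex.im_ofReal_mul, Complex.I_mul_im, exp_neg_I_re]

theorem rr_nonneg {d : ℕ} (i : Fin (d - 1)) : 0 ≤ rr d i := by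
  have hi := i.2
  have hd : (0 : ℝ) < d := by
    have : 0 < d := by omega
    exact_mod_cast this
  have h1 : 0 ≤ th d i := by
    rw [th]
    have := Real.pi_pos
    positivity
  have h2 : th d i ≤ Real.pi := by
    rw [th, div_le_iff₀ hd]
    have h3 : ((i : ℕ) : ℝ) + 1 ≤ d := by
      have : (i : ℕ) + 1 ≤ d := by omega
      exact_mod_cast this
    have := Real.pi_pos
    nlinarith
  have := Real.sin_nonneg_of_nonneg_of_le_pi h1 h2
  rw [rr]
  positivity

/-! ### The system -/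

/-- The form `h`. -/
noncomputable def hh (d : ℕ) (α : ℝ) :
    (Fin (d - 1) → ℂ) →ₗ⋆[ℂ] (Fin (d - 1) → ℂ) →ₗ[ℂ] ℂ :=
  diagForm (fun i => tau d α i + conj (tau d α i))

/-- The half form. -/
noncomputable def TT (d : ℕ) (α : ℝ) :
    (Fin (d - 1) → ℂ) →ₗ⋆[ℂ] (Fin (d - 1) → ℂ) →ₗ[ℂ] ℂ :=
  diagForm (tau d α)

/-- The vectors. -/
noncomputable def vv (d : ℕ) (α : ℝ) (l : Fin (d - 1)) : Fin (d - 1) → ℂ :=
  fun i => lam d α i ^ (l : ℕ)

theorem TT_vv {d : ℕ} (hd : 2 ≤ d) (α : ℝ) (a b : Fin (d - 1)) :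
    TT d α (vv d α a) (vv d α b) =
      (if (a : ℕ) = b then tt α else 0) - (if (a : ℕ) + 1 = b then 1 else 0) :=
  gram_sum hd (zz_prim hd) zz_conj (tt_unit α) a b

theorem hh_eq (d : ℕ) (α : ℝ) (x y : Fin (d - 1) → ℂ) :
    TT d α x y + conj (TT d α y x) = hh d α x y := diagForm_half _ _ _

/-- The concrete system. -/
noncomputable def ys {d : ℕ} (hd : 2 ≤ d) (α : ℝ) : Sys d (hh d α) (tt α) where
  hs := diagForm_sym _
  ht := tt_unit α
  v := vv d α
  hv := by
    intro i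
    rw [← hh_eq, TT_vv hd]
    simp
  adj := by
    intro i j hij
    rw [← hh_eq, TT_vv hd, TT_vv hd]
    have h1 : ¬ ((i : ℕ) = j) := by omega
    have h2 : ¬ ((j : ℕ) = i) := by omega
    have h3 : ¬ ((j : ℕ) + 1 = i) := by omega
    rw [if_neg h1, if_pos hij, if_neg h2, if_neg h3]
    simp
  far := by
    intro i j hij
    rw [← hh_eq, TT_vv hd, TT_vv hd]
    have h0 : ¬ ((i : ℕ) + 1 = j) := by omega
    have h1 : ¬ ((i : ℕ) = j) := by omega
    have h2 : ¬ ((j : ℕ) = i) := by omega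
    have h3 : ¬ ((j : ℕ) + 1 = i) := by omega
    rw [if_neg h1, if_neg h0, if_neg h2, if_neg h3]
    simp

theorem ys_half {d : ℕ} (hd : 2 ≤ d) (α : ℝ) : Half (ys hd α) (TT d α) where
  half := hh_eq d α
  diag := by
    intro i
    show TT d α (vv d α i) (vv d α i) = _
    rw [TT_vv hd]; simp
  lower := by
    intro i j hij
    show TT d α (vv d α j) (vv d α i) = _
    have h2 : ¬ ((j : ℕ) = i) := by
      intro h; exact absurd (Fin.ext h) hij.ne'
    have h3 : ¬ ((j : ℕ) + 1 = i) := by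
      intro h
      have : (i : ℕ) < j := hij
      omega
    rw [TT_vv hd, if_neg h2, if_neg h3, sub_zero]

theorem lam_inj {d : ℕ} (hd : 2 ≤ d) (α : ℝ) : Function.Injective (lam d α) := by
  intro i j hij
  have ht0 : conj (tt α) ≠ 0 := by
    intro h
    have := tt_unit α
    rw [h] at this
    simp at this
  have h1 := mul_right_cancel₀ ht0 hij
  have h2 := (zz_prim hd).pow_inj (by omega) (by omega) h1
  exact Fin.ext (by omega)

theorem ys_reach {d : ℕ} (hd : 2 ≤ d) (α : ℝ) (x : Fin (d - 1) → ℂ) :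
    Reach (ys hd α).u x := by
  have h1 : (Matrix.vandermonde (lam d α)).det ≠ 0 :=
    Matrix.det_vandermonde_ne_zero_iff.2 (lam_inj hd α)
  have h2 : IsUnit (Matrix.vandermonde (lam d α)) :=
    (Matrix.isUnit_iff_isUnit_det _).2 (isUnit_iff_ne_zero.2 h1)
  obtain ⟨a, ha⟩ := Matrix.mulVec_surjective_iff_isUnit.2 h2 x
  have h3 := (ys hd α).reach_u a
  have h4 : ∑ l, a l • (ys hd α).v l = x := by
    rw [← ha]
    funext i
    rw [Finset.sum_apply]
    simp only [Matrix.mulVec, dotProduct, Matrix.vandermonde_apply]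
    refine Finset.sum_congr rfl fun l _ => ?_
    show a l * lam d α i ^ (l : ℕ) = lam d α i ^ (l : ℕ) * a l
    ring
  rwa [h4] at h3

end Pool.Agent.Helper834.LT
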