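import Pool.Agent.Helper834.Tri

/-!
Coverings of degree three and four: the number of cusps is divisible by three.
-/

namespace Pool.Agent.Helper834.Tri

open Pool.Agent.Helper496.BraidFact Pool.Agent.Helper834

theorem swap3_fun : ∀ x y : Fin 3, x ≠ y → ∃ a : Fin 3, ∀ z : Fin 3,
    Equiv.swap x y z = 2 * a - z := by
  decide

theorem swap3 (s : Equiv.Perm (Fin 3)) (hs : s.IsSwap) : ∃ a : ZMod 3, s = tri a := by
  obtain ⟨x, y, hxy, rfl⟩ := hs
  obtain ⟨a, ha⟩ := swap3_fun x y hxy
  exact ⟨a, Equiv.ext ha⟩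

/-- The action of a permutation of four letters on the three pairings; the pairing `m` joins
`m` and `3`. -/
def pairing (σ : Equiv.Perm (Fin 4)) (m : ZMod 3) : ZMod 3 :=
  if σ 3 = 3 then
    (if σ (Fin.castSucc m) = 0 then 0 else if σ (Fin.castSucc m) = 1 then 1 else 2)
  else if σ (Fin.castSucc m) = 3 then
    (if σ 3 = 0 then 0 else if σ 3 = 1 then 1 else 2)
  else
    (if σ 3 ≠ 0 ∧ σ (Fin.castSucc m) ≠ 0 then 0
      else if σ 3 ≠ 1 ∧ σ (Fin.castSucc m) ≠ 1 then 1 else 2)

theorem pairing_mul (σ τ : Equiv.Perm (Fin 4)) (m : ZMod 3) :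
    pairing (σ * τ) m = pairing σ (pairing τ m) := by
  revert σ τ m
  decide

theorem pairing_one (m : ZMod 3) : pairing 1 m = m := by
  revert m
  decide

/-- The homomorphism from permutations of four letters to permutations of the three
pairings. -/
def res : Equiv.Perm (Fin 4) →* Equiv.Perm (ZMod 3) where
  toFun σ :=
    { toFun := pairing σ
      invFun := pairing σ⁻¹
      left_inv := fun m => by rw [← pairing_mul, inv_mul_cancel, pairing_one]
      right_inv := fun m => by rw [← pairing_mul, mul_inv_cancel, pairing_one] }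
  map_one' := Equiv.ext pairing_one
  map_mul' σ τ := Equiv.ext (pairing_mul σ τ)

theorem res_apply (σ : Equiv.Perm (Fin 4)) (m : ZMod 3) : res σ m = pairing σ m := rfl

theorem swap4_fun : ∀ x y : Fin 4, x ≠ y → ∃ a : ZMod 3, ∀ m : ZMod 3,
    pairing (Equiv.swap x y) m = 2 * a - m := by
  decide

theorem swap4 (s : Equiv.Perm (Fin 4)) (hs : s.IsSwap) : ∃ a : ZMod 3, res s = tri a := by
  obtain ⟨x, y, hxy, rfl⟩ := hs
  obtain ⟨a, ha⟩ := swap4_fun x y hxy
  exact ⟨a, Equiv.ext ha⟩

theorem comm4_fun : ∀ x y z w : Fin 4, x ≠ y → z ≠ w →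
    ((∀ m, (Equiv.swap x y * Equiv.swap z w) m = (Equiv.swap z w * Equiv.swap x y) m) ↔
    ∀ m, pairing (Equiv.swap x y) m = pairing (Equiv.swap z w) m) := by
  decide

/-- Two transpositions of four letters commute exactly when they act in the same way on the
pairings. -/
theorem comm4 (s s' : Equiv.Perm (Fin 4)) (hs : s.IsSwap) (hs' : s'.IsSwap) :
    Commute s s' ↔ res s = res s' := by
  obtain ⟨x, y, hxy, rfl⟩ := hs
  obtain ⟨z, w, hzw, rfl⟩ := hs'
  have h := comm4_fun x y z w hxy hzw
  constructor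
  · intro hc
    exact Equiv.ext (h.1 (fun m => DFunLike.congr_fun (hc.eq) m))
  · intro hc
    exact Equiv.ext (h.2 (fun m => DFunLike.congr_fun hc m))

theorem comm3_fun : ∀ x y z w : Fin 3, x ≠ y → z ≠ w →
    (∀ m, (Equiv.swap x y * Equiv.swap z w) m = (Equiv.swap z w * Equiv.swap x y) m) →
    ∀ m, (Equiv.swap x y) m = (Equiv.swap z w) m := by
  decide

/-- Two transpositions of three letters which commute are equal. -/
theorem comm3 (s s' : Equiv.Perm (Fin 3)) (hs : s.IsSwap) (hs' : s'.IsSwap)
    (hc : Commute s s') : s = s' := by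
  obtain ⟨x, y, hxy, rfl⟩ := hs
  obtain ⟨z, w, hzw, rfl⟩ := hs'
  exact Equiv.ext (comm3_fun x y z w hxy hzw (fun m => DFunLike.congr_fun (hc.eq) m))

/-- All images of generators under the braid action are transpositions. -/
theorem artin_isSwap {d N : ℕ} (b : BraidGroup d) :
    ∀ (θ : FreeGroup (Fin d) →* Equiv.Perm (Fin N)),
    (∀ j, (θ (FreeGroup.of j)).IsSwap) → ∀ j, (θ (artin d b (FreeGroup.of j))).IsSwap := by
  have hb : b ∈ Subgroup.closure (Set.range (PresentedGroup.of (rels := braidRels d))) := by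
    rw [PresentedGroup.closure_range_of]; trivial
  have key : (∀ (θ : FreeGroup (Fin d) →* Equiv.Perm (Fin N)),
      (∀ j, (θ (FreeGroup.of j)).IsSwap) → ∀ j, (θ (artin d b (FreeGroup.of j))).IsSwap) ∧
      (∀ (θ : FreeGroup (Fin d) →* Equiv.Perm (Fin N)),
      (∀ j, (θ (FreeGroup.of j)).IsSwap) → ∀ j, (θ (artin d b⁻¹ (FreeGroup.of j))).IsSwap) := by
    have hconj : ∀ (s u : Equiv.Perm (Fin N)), s.IsSwap → (u * s * u⁻¹).IsSwap := by
      rintro s u ⟨x, y, hxy, rfl⟩
      exact ⟨u x, u y, fun h => hxy (u.injective h), (Equiv.swap_apply_apply u x y).symm⟩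
    induction hb using Subgroup.closure_induction with
    | mem z hz =>
      obtain ⟨i, rfl⟩ := hz
      have h0 : (PresentedGroup.of i : BraidGroup d) = sig i := rfl
      rw [h0]
      constructor
      · intro θ hθ j
        rw [artin_sig, artinAut_apply]
        by_cases h1 : j = lo i
        · subst h1
          rw [artinFun_lo, map_mul, map_mul, map_inv]
          exact hconj _ _ (hθ _)
        · by_cases h2 : j = hi i
          · subst h2
            rw [artinFun_hi]; exact hθ _
          · rw [artinFun_ne i h1 h2]; exact hθ _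
      · intro θ hθ j
        have h3 : artin d (sig i)⁻¹ (FreeGroup.of j) = artinInv i (FreeGroup.of j) := by
          rw [map_inv, artin_sig]; rfl
        rw [h3]
        by_cases h1 : j = lo i
        · subst h1
          rw [artinInv_lo]; exact hθ _
        · by_cases h2 : j = hi i
          · subst h2
            rw [artinInv_hi, map_mul, map_mul, map_inv]
            have := hconj (θ (FreeGroup.of (lo i))) (θ (FreeGroup.of (hi i)))⁻¹ (hθ _)
            rwa [inv_inv] at this
          · rw [artinInv_ne i h1 h2]; exact hθ _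
    | one => exact ⟨fun θ hθ j => by simpa using hθ j, fun θ hθ j => by simpa using hθ j⟩
    | mul g h _ _ hg hh =>
      constructor
      · intro θ hθ j
        rw [map_mul, MulAut.mul_apply]
        exact hh.1 (θ.comp (artin d g).toMonoidHom) (hg.1 θ hθ) j
      · intro θ hθ j
        rw [mul_inv_rev, map_mul, MulAut.mul_apply]
        exact hg.2 (θ.comp (artin d h⁻¹).toMonoidHom) (hh.2 θ hθ) j
    | inv g _ hg =>
      refine ⟨hg.2, ?_⟩
      rw [inv_inv]; exact hg.1
  exact key.1

end Pool.Agent.Helper834.Tri
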