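import Pool.Agent.Helper834.Final
import Pool.Agent.Helper834.Res4

/-!
Consequences for coverings.
-/

namespace Pool.Agent.Helper834.Covering

open Pool.Agent.Helper496.BraidFact Pool.Agent.Helper834

variable {N d k : ℕ}

theorem two_le (X : Covering N d k) (hN : 2 ≤ N) : 2 ≤ d := by
  by_contra hd
  have hd' : d = 0 ∨ d = 1 := by omega
  rcases hd' with rfl | rfl
  · obtain ⟨x, hx⟩ := X.connected ⟨0, by omega⟩ ⟨1, by omega⟩
    have : x = 1 := Subsingleton.elim _ _
    rw [this, map_one, Equiv.Perm.one_apply] at hx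
    simp at hx
  · have h1 := X.closed
    have h2 : (List.finRange 1) = [0] := by decide
    rw [h2] at h1
    simp only [List.map_cons, List.map_nil, List.prod_cons, List.prod_nil, mul_one] at h1
    have h3 := X.simple 0
    rw [h1] at h3
    obtain ⟨a, b, hab, h⟩ := h3
    apply hab
    have h4 := DFunLike.congr_fun h a
    rw [Equiv.swap_apply_left] at h4
    exact h4

theorem even_d (X : Covering N d k) : Even d := by
  have h1 := congrArg Equiv.Perm.sign X.closed
  rw [map_one, map_list_prod, List.map_map] at h1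
  have h2 : ∀ L : List (Fin d), (L.map (Equiv.Perm.sign ∘ fun j => X.θ (FreeGroup.of j))).prod =
      (-1) ^ L.length := by
    intro L
    induction L with
    | nil => rfl
    | cons j L ih =>
      rw [List.map_cons, List.prod_cons, ih, List.length_cons, pow_succ', Function.comp_apply,
        Equiv.Perm.IsSwap.sign_eq (X.simple j)]
  rw [h2, List.length_finRange] at h1
  by_contra hd
  rw [Nat.not_even_iff_odd] at hd
  rw [hd.neg_one_pow] at h1
  exact absurd h1 (by decide)

/-- The degree of the factorization. -/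
theorem degree_eq (X : Covering N d k) : (count .tangency X.F : ℤ) + 2 * X.nodesPos - 2 * X.nodesNeg + 3 * X.κ =
    k * d * ((d - 1 : ℕ) : ℤ) := by
  have h1 := congrArg (deg d) X.factorization
  have h2 : ∀ F : List (Factor d), Multiplicative.toAdd (deg d (F.map Factor.braid).prod) =
      (count .tangency F : ℤ) + 2 * count .posNode F - 2 * count .negNode F +
        3 * count .cusp F := by
    intro F
    induction F with
    | nil => simp [count]
    | cons p F ih =>
      rw [List.map_cons, List.prod_cons, map_mul, toAdd_mul, ih, LT.count_cons, LT.count_cons,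
        LT.count_cons, LT.count_cons]
      have h3 : Multiplicative.toAdd (deg d p.braid) = p.kind.expo := by
        have h5 : deg d p.braid = deg d (sig p.i) ^ p.kind.expo := by
          rw [Factor.braid, map_mul, map_mul, map_inv, map_zpow, mul_comm, inv_mul_cancel_left]
        rw [h5, deg_sig]
        simp
      rw [h3]
      rcases p with ⟨b, i, K⟩
      cases K <;> simp [Kind.expo] <;> ring
  have h3 : ∀ L : List (Fin (d - 1)), Multiplicative.toAdd (deg d (L.map sig).prod) =
      L.length := by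
    intro L
    induction L with
    | nil => simp
    | cons i L ih =>
      rw [List.map_cons, List.prod_cons, map_mul, toAdd_mul, ih, deg_sig]
      simp
      ring
  have h4 := congrArg Multiplicative.toAdd h1
  rw [h2, map_pow, toAdd_pow, rot, h3, List.length_finRange] at h4
  rw [nodesPos, nodesNeg, κ, h4]
  simp only [nsmul_eq_mul]
  push_cast
  ring

theorem ineq (X : Covering N d k) (hN : 2 ≤ N) (hk : 1 ≤ k) :
    4 * (X.κ : ℤ) + 2 * X.nodesPos ≤
      k * d * (d - 1) + 2 * k * ((d / 6 : ℕ) : ℤ) * (((d / 6 : ℕ) : ℤ) + 1) -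
        2 * ((d / 6 : ℕ) : ℤ) +
        2 * ((d : ℤ) - 1 - 2 * ((d / 6 : ℕ) : ℤ)) * ((k * d / 6 : ℕ) : ℤ) +
        4 * X.nodesNeg :=
  LT.main_ineq (X.two_le hN) hk X.factorization

/-! ### Degrees three and four -/

theorem tangency_ne : Kind.tangency ≠ Kind.cusp := by decide

theorem posNode_ne : Kind.posNode ≠ Kind.cusp := by decide

theorem negNode_ne : Kind.negNode ≠ Kind.cusp := by decide

theorem compat_three (Y : Covering 3 d k) : ∀ p ∈ Y.F,
    (p.kind = .cusp → Y.θ (artin d p.b (FreeGroup.of (lo p.i))) ≠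
      Y.θ (artin d p.b (FreeGroup.of (hi p.i)))) ∧
    (p.kind ≠ .cusp → Y.θ (artin d p.b (FreeGroup.of (lo p.i))) =
      Y.θ (artin d p.b (FreeGroup.of (hi p.i)))) := by
  intro p hp
  have h1 := Y.compatible p hp
  have h2 := Tri.artin_isSwap p.b Y.θ Y.simple (lo p.i)
  have h3 := Tri.artin_isSwap p.b Y.θ Y.simple (hi p.i)
  rcases p with ⟨b, i, K⟩
  cases K
  · exact ⟨fun h => absurd h tangency_ne, fun _ => h1⟩
  · exact absurd (Tri.comm3 _ _ h2 h3 h1.2) h1.1
  · exact absurd (Tri.comm3 _ _ h2 h3 h1.2) h1.1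
  · refine ⟨fun _ h => h1 ?_, fun h => absurd rfl h⟩
    rw [Commute, SemiconjBy]
    exact congrArg₂ _ h h.symm

theorem count_eq_zero (K : Kind) (F : List (Factor d)) (h : ∀ p ∈ F, p.kind ≠ K) :
    count K F = 0 := by
  rw [count, List.countP_eq_zero]
  intro p hp
  simpa using h p hp

theorem nodesPos_three (Y : Covering 3 d k) : Y.nodesPos = 0 := by
  apply count_eq_zero
  intro p hp hK
  have h1 := Y.compatible p hp
  have h2 := Tri.artin_isSwap p.b Y.θ Y.simple (lo p.i)
  have h3 := Tri.artin_isSwap p.b Y.θ Y.simple (hi p.i)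
  rcases p with ⟨b, i, K⟩
  simp only at hK
  subst hK
  exact absurd (Tri.comm3 _ _ h2 h3 h1.2) h1.1

theorem nodesNeg_three (Y : Covering 3 d k) : Y.nodesNeg = 0 := by
  apply count_eq_zero
  intro p hp hK
  have h1 := Y.compatible p hp
  have h2 := Tri.artin_isSwap p.b Y.θ Y.simple (lo p.i)
  have h3 := Tri.artin_isSwap p.b Y.θ Y.simple (hi p.i)
  rcases p with ⟨b, i, K⟩
  simp only at hK
  subst hK
  exact absurd (Tri.comm3 _ _ h2 h3 h1.2) h1.1

theorem three_dvd_three (Y : Covering 3 d k) : 3 ∣ Y.κ := by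
  have h1 : ∀ j, ∃ a : ZMod 3, Y.θ (FreeGroup.of j) = Tri.tri a :=
    fun j => Tri.swap3 _ (Y.simple j)
  choose x hx using h1
  exact Tri.three_dvd_cusps (Y.two_le (by norm_num)) Y.θ x hx Y.closed Y.F Y.factorization
    (fun p hp => (compat_three Y p hp).1) (fun p hp => (compat_three Y p hp).2)

theorem three_dvd_four (Y : Covering 4 d k) : 3 ∣ Y.κ := by
  have h1 : ∀ j, ∃ a : ZMod 3, (Tri.res.comp Y.θ) (FreeGroup.of j) = Tri.tri a :=
    fun j => Tri.swap4 _ (Y.simple j)
  choose x hx using h1
  have h2 : ((List.finRange d).map (fun j => (Tri.res.comp Y.θ) (FreeGroup.of j))).prod = 1 := by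
    have := congrArg Tri.res Y.closed
    rw [map_list_prod, List.map_map, map_one] at this
    exact this
  have key : ∀ p ∈ Y.F, (p.kind = .cusp ↔
      ¬ Commute (Y.θ (artin d p.b (FreeGroup.of (lo p.i))))
        (Y.θ (artin d p.b (FreeGroup.of (hi p.i))))) := by
    intro p hp
    have h1 := Y.compatible p hp
    rcases p with ⟨b, i, K⟩
    cases K
    · refine ⟨fun h => absurd h tangency_ne, fun h => absurd ?_ h⟩
      have h3 : Y.θ (artin d b (FreeGroup.of (lo i))) = Y.θ (artin d b (FreeGroup.of (hi i))) := h1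
      simp only
      rw [h3]
    · exact ⟨fun h => absurd h posNode_ne, fun h => absurd h1.2 h⟩
    · exact ⟨fun h => absurd h negNode_ne, fun h => absurd h1.2 h⟩
    · exact ⟨fun _ => h1, fun _ => rfl⟩
  have hsw : ∀ p : Factor d, (Commute (Y.θ (artin d p.b (FreeGroup.of (lo p.i))))
        (Y.θ (artin d p.b (FreeGroup.of (hi p.i)))) ↔
      (Tri.res.comp Y.θ) (artin d p.b (FreeGroup.of (lo p.i))) =
        (Tri.res.comp Y.θ) (artin d p.b (FreeGroup.of (hi p.i)))) := by
    intro p
    exact Tri.comm4 _ _ (Tri.artin_isSwap p.b Y.θ Y.simple (lo p.i))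
      (Tri.artin_isSwap p.b Y.θ Y.simple (hi p.i))
  exact Tri.three_dvd_cusps (Y.two_le (by norm_num)) (Tri.res.comp Y.θ) x hx h2 Y.F
    Y.factorization (fun p hp hk => mt (hsw p).2 ((key p hp).1 hk))
    (fun p hp hk => (hsw p).1 (not_not.1 (mt (key p hp).2 hk)))

end Pool.Agent.Helper834.Covering
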