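import Mathlib

/-!
Words of unitary reflections, the Seifert type form attached to a word, and the
positive index of its imaginary part on the space of relations.
-/

namespace Pool.Agent.Helper834.LT

open scoped ComplexConjugate

/-- A complex vector space with a linear map to `V` and a sesquilinear form. -/
structure Sp (V : Type) [AddCommGroup V] [Module ℂ V] where
  /-- the space -/
  E : Type
  [instAdd : AddCommGroup E]
  [instMod : Module ℂ E]
  /-- the value map -/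
  v : E →ₗ[ℂ] V
  /-- the form -/
  T : E →ₗ⋆[ℂ] E →ₗ[ℂ] ℂ

attribute [instance] Sp.instAdd Sp.instMod

variable {V : Type} [AddCommGroup V] [Module ℂ V]

/-- The zero space. -/
def Sp.nil : Sp V where
  E := PUnit
  v := 0
  T := 0

/-- The value map of `Sp.cons`. -/
def consV {E : Type} [AddCommGroup E] [Module ℂ E] (x : V) (v : E →ₗ[ℂ] V) :
    (ℂ × E) →ₗ[ℂ] V :=
  (LinearMap.toSpanSingleton ℂ V x).coprod v

/-- The form of `Sp.cons`. -/
def consT {E : Type} [AddCommGroup E] [Module ℂ E] (h : V →ₗ⋆[ℂ] V →ₗ[ℂ] ℂ) (x : V) (τ : ℂ)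
    (v : E →ₗ[ℂ] V) (T : E →ₗ⋆[ℂ] E →ₗ[ℂ] ℂ) : (ℂ × E) →ₗ⋆[ℂ] (ℂ × E) →ₗ[ℂ] ℂ :=
  LinearMap.mk₂'ₛₗ (starRingEnd ℂ) (RingHom.id ℂ)
    (fun a b => τ * (conj a.1 * b.1) + conj a.1 * h x (v b.2) + T a.2 b.2)
    (by intro a a' b; simp; ring)
    (by intro c a b; simp; ring)
    (by intro a b b'; simp; ring)
    (by intro c a b; simp; ring)

/-- Adding one coordinate. -/
abbrev Sp.cons (h : V →ₗ⋆[ℂ] V →ₗ[ℂ] ℂ) (x : V) (τ : ℂ) (S : Sp V) : Sp V where
  E := ℂ × S.E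
  v := consV x S.v
  T := consT h x τ S.v S.T

theorem Sp.cons_v (h : V →ₗ⋆[ℂ] V →ₗ[ℂ] ℂ) (x : V) (τ : ℂ) (S : Sp V) (a : ℂ) (e : S.E) :
    (Sp.cons h x τ S).v ((a, e) : ℂ × S.E) = a • x + S.v e := by
  show consV x S.v (a, e) = _
  simp [consV]

theorem Sp.cons_T (h : V →ₗ⋆[ℂ] V →ₗ[ℂ] ℂ) (x : V) (τ : ℂ) (S : Sp V) (a b : ℂ) (e f : S.E) :
    (Sp.cons h x τ S).T ((a, e) : ℂ × S.E) ((b, f) : ℂ × S.E) =
      τ * (conj a * b) + conj a * h x (S.v f) + S.T e f := by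
  show consT h x τ S.v S.T (a, e) (b, f) = _
  simp [consT]

/-- A map of spaces which keeps the value map and the form. -/
structure Emb (S S' : Sp V) where
  /-- the underlying map -/
  φ : S.E →ₗ[ℂ] S'.E
  hv : ∀ x, S'.v (φ x) = S.v x
  hT : ∀ x y, S'.T (φ x) (φ y) = S.T x y

/-- Identity. -/
def Emb.refl (S : Sp V) : Emb S S := ⟨LinearMap.id, fun _ => rfl, fun _ _ => rfl⟩

/-- Composition. -/
def Emb.trans {S S' S'' : Sp V} (f : Emb S S') (g : Emb S' S'') : Emb S S'' :=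
  ⟨g.φ.comp f.φ, fun x => by simp [f.hv, g.hv], fun x y => by simp [f.hT, g.hT]⟩

/-- Stability under `Sp.cons`. -/
def Emb.cons (h : V →ₗ⋆[ℂ] V →ₗ[ℂ] ℂ) (x : V) (τ : ℂ) {S S' : Sp V} (f : Emb S S') :
    Emb (Sp.cons h x τ S) (Sp.cons h x τ S') where
  φ := (LinearMap.prodMap (LinearMap.id : ℂ →ₗ[ℂ] ℂ) f.φ : (ℂ × S.E) →ₗ[ℂ] (ℂ × S'.E))
  hv := by
    rintro ⟨a, e⟩
    show (Sp.cons h x τ S').v ((a, f.φ e) : ℂ × S'.E) = _
    rw [Sp.cons_v, Sp.cons_v, f.hv]
  hT := by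
    rintro ⟨a, e⟩ ⟨b, e'⟩
    show (Sp.cons h x τ S').T ((a, f.φ e) : ℂ × S'.E) ((b, f.φ e') : ℂ × S'.E) = _
    rw [Sp.cons_T, Sp.cons_T, f.hv, f.hT]

/-- The imaginary part of the form is positive on an `n`-dimensional space of relations. -/
def HasPos (S : Sp V) (n : ℕ) : Prop :=
  ∃ f : (Fin n → ℂ) →ₗ[ℂ] S.E, (∀ w, S.v (f w) = 0) ∧
    ∀ w, w ≠ 0 → 0 < (S.T (f w) (f w)).im

theorem HasPos.zero (S : Sp V) : HasPos S 0 :=
  ⟨0, fun w => by simp, fun w hw => absurd (Subsingleton.elim w 0) hw⟩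

theorem HasPos.emb {S S' : Sp V} (f : Emb S S') {n : ℕ} (hS : HasPos S n) : HasPos S' n := by
  obtain ⟨g, h1, h2⟩ := hS
  exact ⟨f.φ.comp g, fun w => by simp [f.hv, h1], fun w hw => by
    simp only [LinearMap.comp_apply, f.hT]
    exact h2 w hw⟩

theorem HasPos.mono {S : Sp V} {n m : ℕ} (hS : HasPos S n) (hm : m ≤ n) : HasPos S m := by
  obtain ⟨g, h1, h2⟩ := hS
  refine ⟨g.comp (Function.ExtendByZero.linearMap ℂ (Fin.castLE hm)), fun w => h1 _,
    fun w hw => h2 _ ?_⟩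
  intro h0
  apply hw
  funext i
  have := congrFun h0 (Fin.castLE hm i)
  simpa [Function.ExtendByZero.linearMap_apply,
    (Fin.castLE_injective hm).extend_apply] using this


/-- Hermitian symmetry of a form. -/
def Sym (h : V →ₗ⋆[ℂ] V →ₗ[ℂ] ℂ) : Prop := ∀ x y, conj (h x y) = h y x

/-- The unitary reflection in the vector `x` with parameter `τ`. -/
def refl (h : V →ₗ⋆[ℂ] V →ₗ[ℂ] ℂ) (x : V) (τ : ℂ) (y : V) : V := y - (conj τ * h x y) • x

/-- Shear map used for the Hurwitz move. -/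
def shear {E : Type} [AddCommGroup E] [Module ℂ E] (c : ℂ) :
    (ℂ × (ℂ × E)) →ₗ[ℂ] (ℂ × (ℂ × E)) where
  toFun p := (p.2.1, (p.1 + c * p.2.1, p.2.2))
  map_add' p q := by
    refine Prod.ext ?_ (Prod.ext ?_ ?_) <;> simp
    ring
  map_smul' c p := by
    refine Prod.ext ?_ (Prod.ext ?_ ?_) <;> simp
    ring

/-- Inverse of the shear map. -/
def shear' {E : Type} [AddCommGroup E] [Module ℂ E] (c : ℂ) :
    (ℂ × (ℂ × E)) →ₗ[ℂ] (ℂ × (ℂ × E)) where
  toFun p := (p.2.1 - c * p.1, (p.1, p.2.2))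
  map_add' p q := by
    refine Prod.ext ?_ (Prod.ext ?_ ?_) <;> simp
    ring
  map_smul' c p := by
    refine Prod.ext ?_ (Prod.ext ?_ ?_) <;> simp
    ring

section Moves

variable (h : V →ₗ⋆[ℂ] V →ₗ[ℂ] ℂ)

/-- The Hurwitz move. -/
def hurwitz (hs : Sym h) (x y : V) (τ τ' : ℂ) (hτ : conj τ * τ = 1)
    (hx : h x x = τ + conj τ) (S : Sp V) :
    Emb (Sp.cons h x τ (Sp.cons h y τ' S)) (Sp.cons h (refl h x τ y) τ' (Sp.cons h x τ S)) where
  φ := (shear (conj τ * h x y) : (ℂ × (ℂ × S.E)) →ₗ[ℂ] (ℂ × (ℂ × S.E)))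
  hv := by
    rintro ⟨a, b, e⟩
    show (Sp.cons h (refl h x τ y) τ' (Sp.cons h x τ S)).v
      ((b, (a + conj τ * h x y * b, e)) : ℂ × (ℂ × S.E)) = _
    rw [Sp.cons_v, Sp.cons_v, Sp.cons_v, Sp.cons_v, refl]
    module
  hT := by
    rintro ⟨a, b, e⟩ ⟨a', b', e'⟩
    show (Sp.cons h (refl h x τ y) τ' (Sp.cons h x τ S)).T
      ((b, (a + conj τ * h x y * b, e)) : ℂ × (ℂ × S.E))
      ((b', (a' + conj τ * h x y * b', e')) : ℂ × (ℂ × S.E)) = _
    have hyx : h y x = conj (h x y) := (hs x y).symm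
    rw [Sp.cons_T, Sp.cons_T, Sp.cons_T, Sp.cons_T, Sp.cons_v, Sp.cons_v, refl]
    simp only [map_add, map_mul, map_sub, map_smulₛₗ, LinearMap.sub_apply, LinearMap.smul_apply,
      smul_eq_mul, Complex.conj_conj, RingHom.id_apply, hx, hyx]
    linear_combination (conj a * b' * h x y - conj b * a' * conj (h x y)
      - conj b * b' * conj τ * h x y * conj (h x y)) * hτ

/-- The inverse Hurwitz move. -/
def hurwitz' (hs : Sym h) (x y : V) (τ τ' : ℂ) (hτ : conj τ * τ = 1)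
    (hx : h x x = τ + conj τ) (S : Sp V) :
    Emb (Sp.cons h (refl h x τ y) τ' (Sp.cons h x τ S)) (Sp.cons h x τ (Sp.cons h y τ' S)) where
  φ := (shear' (conj τ * h x y) : (ℂ × (ℂ × S.E)) →ₗ[ℂ] (ℂ × (ℂ × S.E)))
  hv := by
    rintro ⟨b, a, e⟩
    show (Sp.cons h x τ (Sp.cons h y τ' S)).v
      ((a - conj τ * h x y * b, (b, e)) : ℂ × (ℂ × S.E)) = _
    rw [Sp.cons_v, Sp.cons_v, Sp.cons_v, Sp.cons_v, refl]
    module
  hT := by
    rintro ⟨b, a, e⟩ ⟨b', a', e'⟩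
    show (Sp.cons h x τ (Sp.cons h y τ' S)).T
      ((a - conj τ * h x y * b, (b, e)) : ℂ × (ℂ × S.E))
      ((a' - conj τ * h x y * b', (b', e')) : ℂ × (ℂ × S.E)) = _
    have hyx : h y x = conj (h x y) := (hs x y).symm
    rw [Sp.cons_T, Sp.cons_T, Sp.cons_T, Sp.cons_T, Sp.cons_v, Sp.cons_v, refl]
    simp only [map_add, map_mul, map_sub, map_smulₛₗ, LinearMap.sub_apply, LinearMap.smul_apply,
      smul_eq_mul, Complex.conj_conj, RingHom.id_apply, hx, hyx]
    linear_combination (-(conj a * h x y * b') + conj (h x y) * conj b * a'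
      + τ * conj (h x y) * conj b * h x y * b') * hτ

/-- Rescaling of the first coordinate. -/
def scale1 {E : Type} [AddCommGroup E] [Module ℂ E] (c : ℂ) : (ℂ × E) →ₗ[ℂ] (ℂ × E) where
  toFun p := (c * p.1, p.2)
  map_add' p q := by
    refine Prod.ext ?_ ?_ <;> simp
    ring
  map_smul' c p := by
    refine Prod.ext ?_ ?_ <;> simp
    ring

/-- Change of the phase of a vector. -/
def phase (x : V) (τ lam : ℂ) (hl : conj lam * lam = 1) (S : Sp V) :
    Emb (Sp.cons h x τ S) (Sp.cons h (lam • x) τ S) where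
  φ := (scale1 (conj lam) : (ℂ × S.E) →ₗ[ℂ] (ℂ × S.E))
  hv := by
    rintro ⟨a, e⟩
    show (Sp.cons h (lam • x) τ S).v ((conj lam * a, e) : ℂ × S.E) = _
    rw [Sp.cons_v, Sp.cons_v, smul_smul]
    congr 2
    linear_combination a * hl
  hT := by
    rintro ⟨a, e⟩ ⟨b, f⟩
    show (Sp.cons h (lam • x) τ S).T ((conj lam * a, e) : ℂ × S.E)
      ((conj lam * b, f) : ℂ × S.E) = _
    rw [Sp.cons_T, Sp.cons_T]
    simp only [map_mul, map_smulₛₗ, LinearMap.smul_apply, smul_eq_mul, Complex.conj_conj]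
    linear_combination (τ * (conj a * b) + conj a * h x (S.v f)) * hl

/-- Change of the phase of a vector, backwards. -/
def phase' (x : V) (τ lam : ℂ) (hl : conj lam * lam = 1) (S : Sp V) :
    Emb (Sp.cons h (lam • x) τ S) (Sp.cons h x τ S) where
  φ := (scale1 lam : (ℂ × S.E) →ₗ[ℂ] (ℂ × S.E))
  hv := by
    rintro ⟨a, e⟩
    show (Sp.cons h x τ S).v ((lam * a, e) : ℂ × S.E) = _
    rw [Sp.cons_v, Sp.cons_v, smul_smul, mul_comm]
  hT := by
    rintro ⟨a, e⟩ ⟨b, f⟩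
    show (Sp.cons h x τ S).T ((lam * a, e) : ℂ × S.E) ((lam * b, f) : ℂ × S.E) = _
    rw [Sp.cons_T, Sp.cons_T]
    simp only [map_mul, map_smulₛₗ, LinearMap.smul_apply, smul_eq_mul]
    linear_combination (τ * (conj a * b)) * hl

end Moves

/-! ### Cancellation -/

/-- The relation between the space `S` of a word and the space `S'` of the word with a
cancelling pair inserted. -/
structure Canc (x : V) (τ : ℂ) (S S' : Sp V) where
  /-- the coordinates -/
  f : (S.E × ℂ × ℂ) ≃ₗ[ℂ] S'.E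
  hv : ∀ e c l, S'.v (f (e, c, l)) = S.v e + l • x
  hT : ∀ e c e' c', S'.T (f (e, c, 0)) (f (e', c', 0)) = S.T e e'
  hz : ∀ e c l, S'.T (f (0, 1, 0)) (f (e, c, l)) = τ * l
  hz' : ∀ e c l, S'.T (f (e, c, l)) (f (0, 1, 0)) = -(conj τ * conj l)

/-- Coordinates for the basic cancelling pair. -/
def cancEquiv {E : Type} [AddCommGroup E] [Module ℂ E] : (E × ℂ × ℂ) ≃ₗ[ℂ] (ℂ × (ℂ × E)) where
  toFun p := (p.2.1 + p.2.2, (-p.2.1, p.1))
  invFun p := (p.2.2, -p.2.1, p.1 + p.2.1)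
  map_add' p q := by
    refine Prod.ext ?_ (Prod.ext ?_ ?_) <;> simp <;> ring
  map_smul' c p := by
    refine Prod.ext ?_ (Prod.ext ?_ ?_) <;> simp
    ring
  left_inv p := by
    refine Prod.ext ?_ (Prod.ext ?_ ?_) <;> simp
  right_inv p := by
    refine Prod.ext ?_ (Prod.ext ?_ ?_) <;> simp

/-- Coordinates for adding one more letter. -/
def cancEquivCons {E E' : Type} [AddCommGroup E] [Module ℂ E] [AddCommGroup E'] [Module ℂ E']
    (f : (E × ℂ × ℂ) ≃ₗ[ℂ] E') : ((ℂ × E) × ℂ × ℂ) ≃ₗ[ℂ] (ℂ × E') :=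
  (LinearEquiv.prodAssoc ℂ ℂ E (ℂ × ℂ)).trans
    (LinearEquiv.prodCongr (LinearEquiv.refl ℂ ℂ) f)

theorem cancEquivCons_apply {E E' : Type} [AddCommGroup E] [Module ℂ E] [AddCommGroup E']
    [Module ℂ E'] (f : (E × ℂ × ℂ) ≃ₗ[ℂ] E') (a : ℂ) (e : E) (c l : ℂ) :
    cancEquivCons f ((a, e), c, l) = (a, f (e, c, l)) := rfl

variable (h : V →ₗ⋆[ℂ] V →ₗ[ℂ] ℂ)

/-- The basic cancelling pair. -/
def Canc.base (x : V) (τ : ℂ) (hx : h x x = τ + conj τ) (S : Sp V) :
    Canc x τ S (Sp.cons h x τ (Sp.cons h x (conj τ) S)) where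
  f := (cancEquiv : (S.E × ℂ × ℂ) ≃ₗ[ℂ] (ℂ × (ℂ × S.E)))
  hv := by
    intro e c l
    show (Sp.cons h x τ (Sp.cons h x (conj τ) S)).v ((c + l, (-c, e)) : ℂ × (ℂ × S.E)) = _
    rw [Sp.cons_v, Sp.cons_v]
    module
  hT := by
    intro e c e' c'
    show (Sp.cons h x τ (Sp.cons h x (conj τ) S)).T ((c + 0, (-c, e)) : ℂ × (ℂ × S.E))
      ((c' + 0, (-c', e')) : ℂ × (ℂ × S.E)) = _
    rw [Sp.cons_T, Sp.cons_T, Sp.cons_v]
    simp only [map_add, map_neg, map_smulₛₗ, smul_eq_mul, RingHom.id_apply, hx, map_zero]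
    ring
  hz := by
    intro e c l
    show (Sp.cons h x τ (Sp.cons h x (conj τ) S)).T ((1 + 0, (-1, 0)) : ℂ × (ℂ × S.E))
      ((c + l, (-c, e)) : ℂ × (ℂ × S.E)) = _
    rw [Sp.cons_T, Sp.cons_T, Sp.cons_v]
    simp only [map_add, map_neg, map_smulₛₗ, smul_eq_mul, RingHom.id_apply, hx,
      map_zero, map_one, LinearMap.zero_apply]
    ring
  hz' := by
    intro e c l
    show (Sp.cons h x τ (Sp.cons h x (conj τ) S)).T ((c + l, (-c, e)) : ℂ × (ℂ × S.E))
      ((1 + 0, (-1, 0)) : ℂ × (ℂ × S.E)) = _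
    rw [Sp.cons_T, Sp.cons_T, Sp.cons_v]
    simp only [map_add, map_neg, map_smulₛₗ, smul_eq_mul, RingHom.id_apply, hx,
      map_zero]
    ring

/-- Cancelling pair with one more letter in front. -/
def Canc.cons {x : V} {τ : ℂ} {S S' : Sp V} (C : Canc x τ S S') (y : V) (σ : ℂ) :
    Canc x τ (Sp.cons h y σ S) (Sp.cons h y σ S') where
  f := (cancEquivCons C.f : ((ℂ × S.E) × ℂ × ℂ) ≃ₗ[ℂ] (ℂ × S'.E))
  hv := by
    rintro ⟨a, e⟩ c l
    show (Sp.cons h y σ S').v ((a, C.f (e, c, l)) : ℂ × S'.E) = _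
    rw [Sp.cons_v, C.hv, Sp.cons_v]
    module
  hT := by
    rintro ⟨a, e⟩ c ⟨a', e'⟩ c'
    show (Sp.cons h y σ S').T ((a, C.f (e, c, 0)) : ℂ × S'.E)
      ((a', C.f (e', c', 0)) : ℂ × S'.E) = _
    rw [Sp.cons_T, C.hv, C.hT, Sp.cons_T]
    simp
  hz := by
    rintro ⟨a, e⟩ c l
    show (Sp.cons h y σ S').T ((0, C.f (0, 1, 0)) : ℂ × S'.E)
      ((a, C.f (e, c, l)) : ℂ × S'.E) = _
    rw [Sp.cons_T, C.hz]
    simp
  hz' := by
    rintro ⟨a, e⟩ c l
    show (Sp.cons h y σ S').T ((a, C.f (e, c, l)) : ℂ × S'.E)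
      ((0, C.f (0, 1, 0)) : ℂ × S'.E) = _
    rw [Sp.cons_T, C.hz', C.hv]
    simp

/-- The form is one half of the pullback of `h`. -/
def Good (S : Sp V) : Prop := ∀ e f, S.T e f + conj (S.T f e) = h (S.v e) (S.v f)

theorem Good.nil : Good h (Sp.nil : Sp V) := by
  intro e f
  change (0 : ℂ) + conj (0 : ℂ) = h 0 0
  simp

theorem Good.cons (hs : Sym h) {x : V} {τ : ℂ} (hx : h x x = τ + conj τ) {S : Sp V}
    (hS : Good h S) : Good h (Sp.cons h x τ S) := by
  rintro ⟨a, e⟩ ⟨b, f⟩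
  rw [Sp.cons_T, Sp.cons_T, Sp.cons_v, Sp.cons_v]
  have h1 : S.T e f = h (S.v e) (S.v f) - conj (S.T f e) := by rw [← hS e f]; ring
  have h2 : h (S.v e) x = conj (h x (S.v e)) := (hs _ _).symm
  simp only [map_add, map_mul, map_smulₛₗ, LinearMap.add_apply, LinearMap.smul_apply,
    smul_eq_mul, Complex.conj_conj, RingHom.id_apply, hx, h1, h2]
  ring

theorem ker_embed {n : ℕ} (L : (Fin (n + 1) → ℂ) →ₗ[ℂ] ℂ) :
    ∃ j : (Fin n → ℂ) →ₗ[ℂ] (Fin (n + 1) → ℂ), Function.Injective j ∧ ∀ w, L (j w) = 0 := by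
  have h1 := L.finrank_range_add_finrank_ker
  rw [Module.finrank_fin_fun] at h1
  have h2 : Module.finrank ℂ (LinearMap.range L) ≤ 1 := by
    have := Submodule.finrank_le (LinearMap.range L)
    simpa using this
  have h3 : n ≤ Module.finrank ℂ (LinearMap.ker L) := by omega
  let e := (Module.finBasis ℂ (LinearMap.ker L)).equivFun
  refine ⟨((LinearMap.ker L).subtype.comp e.symm.toLinearMap).comp
    (Function.ExtendByZero.linearMap ℂ (Fin.castLE h3)), ?_, ?_⟩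
  · intro a b hab
    have h4 := Subtype.val_injective hab
    have h5 := e.symm.injective h4
    funext i
    have h6 := congrFun h5 (Fin.castLE h3 i)
    simpa [Function.ExtendByZero.linearMap_apply,
      (Fin.castLE_injective h3).extend_apply] using h6
  · intro w
    exact (e.symm (Function.ExtendByZero.linearMap ℂ (Fin.castLE h3) w)).2

theorem Canc.hasPos_of {x : V} {τ : ℂ} {S S' : Sp V} (C : Canc x τ S S') {n : ℕ}
    (hS : HasPos S' (n + 1)) : HasPos S n := by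
  obtain ⟨g, h1, h2⟩ := hS
  obtain ⟨j, hj, hj0⟩ := ker_embed
    (((LinearMap.snd ℂ ℂ ℂ).comp (LinearMap.snd ℂ S.E (ℂ × ℂ))).comp
      (C.f.symm.toLinearMap.comp g))
  have key : ∀ w, ∃ c : ℂ, C.f ((C.f.symm (g (j w))).1, c, 0) = g (j w) := by
    intro w
    refine ⟨(C.f.symm (g (j w))).2.1, ?_⟩
    have := hj0 w
    simp only [LinearMap.comp_apply, LinearEquiv.coe_coe, LinearMap.snd_apply] at this
    rw [← this]
    simp
  refine ⟨(LinearMap.fst ℂ S.E (ℂ × ℂ)).comp (C.f.symm.toLinearMap.comp (g.comp j)), ?_, ?_⟩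
  · intro w
    obtain ⟨c, hc⟩ := key w
    have h3 := h1 (j w)
    rw [← hc, C.hv] at h3
    simpa using h3
  · intro w hw
    obtain ⟨c, hc⟩ := key w
    have h3 := h2 (j w) (fun h0 => hw (hj (by rw [h0, map_zero])))
    rw [← hc, C.hT] at h3
    simpa using h3

theorem Canc.to_hasPos {x : V} {τ : ℂ} {S S' : Sp V} (C : Canc x τ S S')
    (hτ : conj τ * τ = 1) (hG : Good h S')
    (hx : ∃ e, S.v e = x) {n : ℕ} (hS : HasPos S n) : HasPos S' (n + 1) := by
  obtain ⟨g, h1, h2⟩ := hS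
  obtain ⟨e0, he0⟩ := hx
  -- the embedding of the old space of relations
  let ι : (Fin n → ℂ) →ₗ[ℂ] S'.E := C.f.toLinearMap.comp ((LinearMap.inl ℂ S.E (ℂ × ℂ)).comp g)
  have hι : ∀ w, ι w = C.f (g w, 0, 0) := fun w => rfl
  have hιv : ∀ w, S'.v (ι w) = 0 := by
    intro w
    rw [hι, C.hv, h1]; simp
  have hιT : ∀ w w', S'.T (ι w) (ι w') = S.T (g w) (g w') := by
    intro w w'
    rw [hι, hι, C.hT]
  let z : S'.E := C.f (0, 1, 0)
  have hzv : S'.v z = 0 := by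
    show S'.v (C.f (0, 1, 0)) = 0
    rw [C.hv]; simp
  let y0 : S'.E := C.f (-e0, 0, 1)
  have hy0v : S'.v y0 = 0 := by
    show S'.v (C.f (-e0, 0, 1)) = 0
    rw [C.hv]; simp [he0]
  -- orthogonal correction
  let A : (Fin n → ℂ) →ₗ[ℂ] (Fin n → ℂ) :=
    LinearMap.pi (fun j => (S'.T (ι (Pi.single j 1))).comp ι)
  have hA : ∀ w j, A w j = S'.T (ι (Pi.single j 1)) (ι w) := fun w j => rfl
  have hbasis : ∀ (φ : (Fin n → ℂ) →ₗ⋆[ℂ] ℂ), (∀ j, φ (Pi.single j 1) = 0) → ∀ w, φ w = 0 := by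
    intro φ hφ w
    have : φ = 0 := by
      apply Module.Basis.ext (Pi.basisFun ℂ (Fin n))
      intro i
      rw [Pi.basisFun_apply, hφ]
      rfl
    rw [this]; rfl
  have hAinj : Function.Injective A := by
    rw [← LinearMap.ker_eq_bot, LinearMap.ker_eq_bot']
    intro w hw
    by_contra hne
    have h3 := h2 w hne
    have h4 := hbasis ((S'.T.flip (ι w)).comp ι) (fun j => by
      have := congrFun hw j
      rw [hA] at this
      simpa using this) w
    have h5 : S'.T (ι w) (ι w) = 0 := by simpa using h4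
    rw [← hιT, h5] at h3
    simp at h3
  obtain ⟨w0, hw0⟩ := (LinearMap.injective_iff_surjective.1 hAinj)
    (fun j => - S'.T (ι (Pi.single j 1)) y0)
  let y1 : S'.E := y0 + ι w0
  have hy1v : S'.v y1 = 0 := by
    show S'.v (y0 + ι w0) = 0
    rw [map_add, hy0v, hιv, add_zero]
  have hy1 : ∀ w, S'.T (ι w) y1 = 0 := by
    intro w
    have h4 := hbasis ((S'.T.flip y1).comp ι) (fun j => by
      have := congrFun hw0 j
      rw [hA] at this
      show S'.T (ι (Pi.single j 1)) (y0 + ι w0) = 0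
      rw [map_add, this]; ring) w
    simpa using h4
  have hy1f : y1 = C.f (-e0 + g w0, 0, 1) := by
    show C.f (-e0, 0, 1) + C.f (g w0, 0, 0) = _
    rw [← map_add]; simp
  have hTz1 : S'.T z y1 = τ := by
    rw [hy1f]
    show S'.T (C.f (0, 1, 0)) _ = _
    rw [C.hz]; simp
  have hT1z : S'.T y1 z = - conj τ := by
    rw [hy1f]
    show S'.T _ (C.f (0, 1, 0)) = _
    rw [C.hz']; simp
  have hTzz : S'.T z z = 0 := by
    show S'.T (C.f (0, 1, 0)) (C.f (0, 1, 0)) = _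
    rw [C.hz]; simp
  have hTwz : ∀ w, S'.T (ι w) z = 0 := by
    intro w
    rw [hι]
    show S'.T _ (C.f (0, 1, 0)) = _
    rw [C.hz']; simp
  let r : ℝ := |(S'.T y1 y1).im| + 1
  let lam : ℂ := -Complex.I * r * τ
  let y' : S'.E := y1 + lam • z
  have hy'v : S'.v y' = 0 := by
    show S'.v (y1 + lam • z) = 0
    rw [map_add, map_smul, hy1v, hzv]; simp
  have hwy : ∀ w, S'.T (ι w) y' = 0 := by
    intro w
    show S'.T (ι w) (y1 + lam • z) = 0
    rw [map_add, map_smul, hy1, hTwz]; simp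
  have hyw : ∀ w, S'.T y' (ι w) = 0 := by
    intro w
    have := hG y' (ι w)
    rw [hwy, hy'v] at this
    simpa using this
  have hyy : 0 < (S'.T y' y').im := by
    have e1 : S'.T y' y' = S'.T y1 y1 + 2 * Complex.I * r := by
      show S'.T (y1 + lam • z) (y1 + lam • z) = _
      have hlam : conj lam = Complex.I * r * conj τ := by
        show conj (-Complex.I * r * τ) = _
        simp only [map_mul, map_neg, Complex.conj_I, Complex.conj_ofReal]
        ring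
      simp only [map_add, map_smulₛₗ, LinearMap.add_apply, LinearMap.smul_apply, smul_eq_mul,
        RingHom.id_apply, hTz1, hT1z, hTzz, hlam]
      show S'.T y1 y1 + Complex.I * r * conj τ * τ + (-Complex.I * r * τ) *
        (-conj τ + Complex.I * r * conj τ * 0) = _
      linear_combination (2 * Complex.I * r) * hτ
    rw [e1]
    have e2 : (2 * Complex.I * (r : ℂ)).im = 2 * r := by simp
    rw [Complex.add_im, e2]
    have := neg_abs_le (S'.T y1 y1).im
    show 0 < (S'.T y1 y1).im + 2 * (|(S'.T y1 y1).im| + 1)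
    have h6 := abs_nonneg (S'.T y1 y1).im
    linarith
  refine ⟨ι.comp (LinearMap.funLeft ℂ ℂ Fin.succ) +
    (LinearMap.proj (0 : Fin (n + 1))).smulRight y', ?_, ?_⟩
  · intro w
    simp only [LinearMap.add_apply, LinearMap.comp_apply, LinearMap.smulRight_apply, map_add,
      map_smul, hιv, hy'v, smul_zero, add_zero]
  · intro w hw
    simp only [LinearMap.add_apply, LinearMap.comp_apply, LinearMap.smulRight_apply, map_add,
      map_smulₛₗ, LinearMap.smul_apply, hwy, hyw, LinearMap.proj_apply, smul_eq_mul, mul_zero,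
      add_zero, zero_add, RingHom.id_apply]
    rw [hιT, Complex.add_im]
    have e3 : (w 0 * (conj (w 0) * S'.T y' y')).im = ‖w 0‖ ^ 2 * (S'.T y' y').im := by
      rw [← mul_assoc, Complex.mul_conj, Complex.im_ofReal_mul, Complex.normSq_eq_norm_sq]
    rw [e3]
    by_cases hw1 : (LinearMap.funLeft ℂ ℂ Fin.succ) w = 0
    · have hw2 : w 0 ≠ 0 := by
        intro h0
        apply hw
        funext i
        refine Fin.cases h0 (fun i => ?_) i
        exact congrFun hw1 i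
      rw [hw1, map_zero, map_zero]
      simp only [Complex.zero_im, zero_add]
      have : 0 < ‖w 0‖ := norm_pos_iff.2 hw2
      positivity
    · have h7 := h2 _ hw1
      have h8 : 0 ≤ ‖w 0‖ ^ 2 * (S'.T y' y').im := by positivity
      linarith

end Pool.Agent.Helper834.LT
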