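import Pool.Agent.Helper834.Conseq

/-!
An upper bound for the number of cusps of the branch curve of a symplectic branched covering.
-/

namespace Pool.Agent.Helper834.CuspBound

open Pool.Agent.Helper834

/-- Let `X` be a simple branched covering of `ℂℙ²` (`k = 1`) or of `F_k`, with nodal-cuspidal
branch curve of degree `d`, genus `g`, with `κ` cusps and `ν₋` negative nodes. Put
`q = ⌊d / 6⌋`. Then
`κ ≤ (g - 1) + d + k q (q + 1) - q + (d - 1 - 2 q) ⌊k d / 6⌋ + ν₋`.
For `k = 1` the right side is `(g - 1) + d + q (d - 1 - q) + ν₋`. -/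
theorem result {N d k : ℕ} (hN : 2 ≤ N) (hk : 1 ≤ k) (X : Covering N d k) :
    (X.κ : ℚ) ≤ (X.genus - 1) + d +
      (k * (d / 6 : ℕ) * ((d / 6 : ℕ) + 1) - (d / 6 : ℕ) +
        (d - 1 - 2 * (d / 6 : ℕ)) * (k * d / 6 : ℕ)) + X.nodesNeg := by
  have h := (Int.cast_le (R := ℚ)).2 (X.ineq hN hk)
  simp only [Int.cast_add, Int.cast_mul, Int.cast_sub, Int.cast_natCast, Int.cast_ofNat,
    Int.cast_one] at h
  rw [Covering.genus, Covering.ν]
  simp only [Int.cast_sub, Int.cast_natCast]
  linarith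

end Pool.Agent.Helper834.CuspBound
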