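import Pool.Agent.Helper834.Main

/-!
The inequality between the numbers of special points.
-/

namespace Pool.Agent.Helper834.LT

open scoped ComplexConjugate
open Pool.Agent.Helper496.BraidFact

theorem arith_sum (a b : ℤ) (n : ℕ) :
    2 * ∑ j ∈ Finset.range n, (a + b * ((j : ℤ) + 1)) = 2 * n * a + b * n * (n + 1) := by
  induction n with
  | zero => simp
  | succ n ih =>
    rw [Finset.sum_range_succ, mul_add, ih]
    push_cast
    ring

/-- The floor sum. -/
theorem floor_sum {d k : ℕ} (hd : 2 ≤ d) (hk : 1 ≤ k) :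
    2 * ∑ i : Fin (d - 1), (((d * k : ℕ) : ℤ) - 1 - ⌊((d * k : ℕ) : ℝ) * |xx d (al d (d * k)) i|⌋) ≤
      k * d * (d - 1) + 2 * k * ((d / 6 : ℕ) : ℤ) * (((d / 6 : ℕ) : ℤ) + 1) -
        2 * ((d / 6 : ℕ) : ℤ) +
        2 * ((d : ℤ) - 1 - 2 * ((d / 6 : ℕ) : ℤ)) * ((k * d / 6 : ℕ) : ℤ) := by
  obtain ⟨q, hq⟩ : ∃ q, q = d / 6 := ⟨_, rfl⟩
  obtain ⟨K, hK⟩ : ∃ K, K = k * d / 6 := ⟨_, rfl⟩
  rw [← hq, ← hK]
  have hd' : (0 : ℝ) < d := by
    have : 0 < d := by omega
    exact_mod_cast this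
  have hk' : (0 : ℝ) < k := by
    have : 0 < k := by omega
    exact_mod_cast this
  have hK1 : 6 * K ≤ k * d := by omega
  have hK2 : k * d ≤ 6 * K + 5 := by omega
  have hK1' : (6 : ℝ) * K ≤ k * d := by exact_mod_cast hK1
  have hK2' : (k : ℝ) * d ≤ 6 * K + 5 := by exact_mod_cast hK2
  let g : ℕ → ℤ := fun j => if j + 1 ≤ q then
    ((d * k : ℕ) : ℤ) - 1 - K + k * ((j : ℤ) + 1) else ((d * k : ℕ) : ℤ) + K - k * ((j : ℤ) + 1)
  have hfl : ∀ i : Fin (d - 1), ((d * k : ℕ) : ℤ) - 1 -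
      ⌊((d * k : ℕ) : ℝ) * |xx d (al d (d * k)) i|⌋ ≤ g i := by
    intro i
    have e0 : ((d * k : ℕ) : ℝ) * xx d (al d (d * k)) i =
        k * (((i : ℕ) : ℝ) + 1) - k * d / 6 - 1 / (12 * d) := by
      rw [xx, al]
      push_cast
      field_simp
      ring
    have e1 : ((d * k : ℕ) : ℝ) * |xx d (al d (d * k)) i| =
        |k * (((i : ℕ) : ℝ) + 1) - k * d / 6 - 1 / (12 * d)| := by
      rw [← e0, abs_mul, Nat.abs_cast]
    have h12 : 0 < 1 / (12 * (d : ℝ)) := by positivity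
    have h12' : 1 / (12 * (d : ℝ)) ≤ 1 / 6 := by
      apply one_div_le_one_div_of_le (by norm_num)
      have : (2 : ℝ) ≤ d := by exact_mod_cast hd
      linarith
    rw [e1]
    show _ ≤ (if (i : ℕ) + 1 ≤ q then ((d * k : ℕ) : ℤ) - 1 - K + k * (((i : ℕ) : ℤ) + 1)
      else ((d * k : ℕ) : ℤ) + K - k * (((i : ℕ) : ℤ) + 1))
    split_ifs with hi
    · have h1 : ((K : ℤ) - k * (((i : ℕ) : ℤ) + 1)) ≤
          ⌊|k * (((i : ℕ) : ℝ) + 1) - k * d / 6 - 1 / (12 * d)|⌋ := by
        rw [Int.le_floor]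
        push_cast
        refine le_trans ?_ (neg_le_abs _)
        linarith
      linarith
    · have h1 : ((k : ℤ) * (((i : ℕ) : ℤ) + 1) - K - 1) ≤
          ⌊|k * (((i : ℕ) : ℝ) + 1) - k * d / 6 - 1 / (12 * d)|⌋ := by
        rw [Int.le_floor]
        push_cast
        refine le_trans ?_ (le_abs_self _)
        linarith
      linarith
  have hsum : ∑ i : Fin (d - 1), (((d * k : ℕ) : ℤ) - 1 -
      ⌊((d * k : ℕ) : ℝ) * |xx d (al d (d * k)) i|⌋) ≤ ∑ j ∈ Finset.range (d - 1), g j := by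
    rw [Finset.sum_range]
    exact Finset.sum_le_sum fun i _ => hfl i
  refine (mul_le_mul_of_nonneg_left hsum (by norm_num)).trans (le_of_eq ?_)
  obtain ⟨r, hr⟩ : ∃ r, d - 1 = q + r := ⟨d - 1 - q, by omega⟩
  have hd1 : (d : ℤ) = q + r + 1 := by omega
  rw [hr, Finset.sum_range_add]
  have h1 : ∑ j ∈ Finset.range q, g j = ∑ j ∈ Finset.range q,
      ((((d * k : ℕ) : ℤ) - 1 - K) + k * ((j : ℤ) + 1)) := by
    refine Finset.sum_congr rfl fun j hj => ?_
    rw [Finset.mem_range] at hj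
    exact if_pos (by omega)
  have h2 : ∑ j ∈ Finset.range r, g (q + j) = ∑ j ∈ Finset.range r,
      ((((d * k : ℕ) : ℤ) + K - k * q) + (-k) * ((j : ℤ) + 1)) := by
    refine Finset.sum_congr rfl fun j _ => ?_
    have : g (q + j) = ((d * k : ℕ) : ℤ) + K - k * (((q + j : ℕ) : ℤ) + 1) :=
      if_neg (by omega)
    rw [this]
    push_cast
    ring
  rw [h1, h2, mul_add, arith_sum, arith_sum]
  push_cast
  rw [hd1]
  ring

theorem count_cons {d : ℕ} (K : Kind) (p : Factor d) (F : List (Factor d)) :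
    count K (p :: F) = count K F + (if p.kind = K then 1 else 0) := by
  simp [count, List.countP_cons]

theorem gains_eq {d : ℕ} (F : List (Factor d)) :
    gains F = 2 * count .cusp F + count .posNode F := by
  induction F with
  | nil => rfl
  | cons p F ih =>
    have h1 : gains (p :: F) = gain p.kind + gains F := by simp [gains]
    rw [h1, ih, count_cons, count_cons]
    rcases p with ⟨b, i, k⟩
    cases k <;> simp [gain] <;> ring

theorem negs_eq {d : ℕ} (F : List (Factor d)) :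
    negs F = 2 * (count .negNode F : ℤ) := by
  induction F with
  | nil => rfl
  | cons p F ih =>
    have h1 : negs (p :: F) = (if isNeg p.kind then (2 : ℤ) else 0) + negs F := by simp [negs]
    rw [h1, ih, count_cons]
    rcases p with ⟨b, i, k⟩
    cases k <;> simp [isNeg] <;> ring

/-- The main inequality. -/
theorem main_ineq {d k : ℕ} (hd : 2 ≤ d) (hk : 1 ≤ k) {F : List (Factor d)}
    (hF : (F.map Factor.braid).prod = rot d ^ (d * k)) :
    4 * (count .cusp F : ℤ) + 2 * count .posNode F ≤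
      k * d * (d - 1) + 2 * k * ((d / 6 : ℕ) : ℤ) * (((d / 6 : ℕ) : ℤ) + 1) -
        2 * ((d / 6 : ℕ) : ℤ) +
        2 * ((d : ℤ) - 1 - 2 * ((d / 6 : ℕ) : ℤ)) * ((k * d / 6 : ℕ) : ℤ) +
        4 * count .negNode F := by
  have hM : 2 ≤ d * k := by nlinarith
  have h1 := (ys hd (al d (d * k))).main (ys_reach hd _) (tt_im hd hM) (m := d * k) (by omega)
    (mu_ne hd hM) (rot_scalar hd _ k) hF
  have h2 := (ub_um hd (al d (d * k)) (xx_abs hd hM) (M := d * k)
    (fun m hm hmM i => sin_ne hd m hm hmM i) (d * k) (by omega) le_rfl).bound h1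
  have h3 := floor_sum hd hk
  rw [gains_eq, negs_eq] at h2
  push_cast at h2 h3 ⊢
  have h4 := Int.self_le_toNat (2 * (count .cusp F : ℤ) + count .posNode F -
    2 * count .negNode F)
  linarith

end Pool.Agent.Helper834.LT
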