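import Pool.Agent.Helper496.Liftable

/-!
Braid monodromy data of simple branched coverings: the factorization of a power of the full
twist given by a branch curve with nodes and cusps, and the monodromy of the covering.
-/

namespace Pool.Agent.Helper834

open Pool.Agent.Helper496.BraidFact

/-- The kinds of special points of a generic projection of a branch curve: simple vertical
tangency, positive node, negative node, cusp. -/
inductive Kind where
  | tangency
  | posNode
  | negNode
  | cusp
  deriving DecidableEq

/-- The exponent of the half-twist in the braid monodromy around a special point. -/
def Kind.expo : Kind → ℤ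
  | .tangency => 1
  | .posNode => 2
  | .negNode => -2
  | .cusp => 3

/-- The braid `σ₀ σ₁ ⋯ σ_(d-2)`, whose `d`-th power is the full twist `Δ²`. -/
def rot (d : ℕ) : BraidGroup d := ((List.finRange (d - 1)).map sig).prod

/-- The data attached to one special point: the braid `b σ_i ^ r b⁻¹`, given by `b`, `i` and
the kind of the point. -/
structure Factor (d : ℕ) where
  /-- the conjugating braid -/
  b : BraidGroup d
  /-- the index of the standard half-twist -/
  i : Fin (d - 1)
  /-- the kind of the special point -/
  kind : Kind

/-- The braid monodromy around a special point. -/
def Factor.braid {d : ℕ} (p : Factor d) : BraidGroup d :=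
  p.b * sig p.i ^ p.kind.expo * p.b⁻¹

/-- The number of special points of a given kind. -/
def count {d : ℕ} (K : Kind) (F : List (Factor d)) : ℕ := F.countP (fun p => decide (p.kind = K))

/-- Compatibility of the covering monodromy `θ` with a special point: the sheets are permuted
along the two branches by equal transpositions at a tangency, by disjoint transpositions at a
node, and by non-commuting transpositions at a cusp. -/
def Factor.Compat {d N : ℕ} (p : Factor d) (θ : FreeGroup (Fin d) →* Equiv.Perm (Fin N)) :
    Prop :=
  match p.kind with
  | .tangency =>
      θ (artin d p.b (FreeGroup.of (lo p.i))) = θ (artin d p.b (FreeGroup.of (hi p.i)))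
  | .cusp =>
      ¬ Commute (θ (artin d p.b (FreeGroup.of (lo p.i))))
        (θ (artin d p.b (FreeGroup.of (hi p.i))))
  | _ =>
      θ (artin d p.b (FreeGroup.of (lo p.i))) ≠ θ (artin d p.b (FreeGroup.of (hi p.i))) ∧
      Commute (θ (artin d p.b (FreeGroup.of (lo p.i))))
        (θ (artin d p.b (FreeGroup.of (hi p.i))))

/-- The braid monodromy data of a simple branched covering of degree `N` of the Hirzebruch
surface `F_k` (of `ℂℙ²`, blown up at the pole of the projection, when `k = 1`), whose branch
curve has degree `d` over the base of the ruling, is disjoint from the exceptional section and
has only nodes (of both signs) and cusps as singularities. -/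
structure Covering (N d k : ℕ) where
  /-- the monodromy of the covering of a fibre: its values on the standard free generators of the
  fundamental group of the fibre minus the branch points -/
  θ : FreeGroup (Fin d) →* Equiv.Perm (Fin N)
  /-- the covering is simple -/
  simple : ∀ j, (θ (FreeGroup.of j)).IsSwap
  /-- the covering extends over the point at infinity of the fibre -/
  closed : ((List.finRange d).map (fun j => θ (FreeGroup.of j))).prod = 1
  /-- the covering is connected -/
  connected : ∀ a b : Fin N, ∃ x, θ x a = b
  /-- the special points of the projection of the branch curve -/
  F : List (Factor d)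
  /-- the product of the braid monodromies is the `k`-th power of the full twist `Δ²` -/
  factorization : (F.map Factor.braid).prod = rot d ^ (d * k)
  /-- the special points are compatible with the monodromy of the covering -/
  compatible : ∀ p ∈ F, p.Compat θ

namespace Covering

variable {N d k : ℕ} (X : Covering N d k)

/-- The number of cusps. -/
def κ : ℕ := count .cusp X.F

/-- The number of positive nodes. -/
def nodesPos : ℕ := count .posNode X.F

/-- The number of negative nodes. -/
def nodesNeg : ℕ := count .negNode X.F

/-- The number of nodes, counted with sign. -/
def ν : ℤ := (X.nodesPos : ℤ) - X.nodesNeg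

/-- The genus of the branch curve. By the adjunction formula in `F_k` it is
`(k d (d - 1) - 2 d) / 2 + 1 - κ - ν`; for `k = 1` this is `(d - 1) (d - 2) / 2 - κ - ν`, the
genus of a plane curve of degree `d`. -/
def genus : ℚ := ((k : ℚ) * d * (d - 1) - 2 * d) / 2 + 1 - X.κ - X.ν

/-- The Chern number `c₁²` of a covering of `ℂℙ²` of degree `N`. -/
def c1sq {N d : ℕ} (X : Covering N d 1) : ℚ := X.genus - 1 - 9 / 2 * d + 9 * N

end Covering

end Pool.Agent.Helper834
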