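import Pool.Agent.Helper834.Rep
import Pool.Agent.Helper834.Model

/-!
The word of a factorization, the lower bound for its positive index, and the comparison with
the standard word.
-/

namespace Pool.Agent.Helper834.LT

open scoped ComplexConjugate
open Pool.Agent.Helper496.BraidFact

variable {V : Type} [AddCommGroup V] [Module ℂ V]
variable {h : V →ₗ⋆[ℂ] V →ₗ[ℂ] ℂ} {t : ℂ}

/-! ### Extending positive spaces -/

theorem HasPos.extend {S S' : Sp V} (f : Emb S S') {k : ℕ} (j : (Fin k → ℂ) →ₗ[ℂ] S'.E)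
    (hj : ∀ a, S'.v (j a) = 0) (h1 : ∀ e a, S.v e = 0 → S'.T (f.φ e) (j a) = 0)
    (h2 : ∀ e a, S.v e = 0 → S'.T (j a) (f.φ e) = 0)
    (h3 : ∀ a, a ≠ 0 → 0 < (S'.T (j a) (j a)).im) {n : ℕ} (hS : HasPos S n) :
    HasPos S' (n + k) := by
  obtain ⟨g, g1, g2⟩ := hS
  refine ⟨(f.φ.comp g).comp (LinearMap.funLeft ℂ ℂ (Fin.castAdd k)) +
    j.comp (LinearMap.funLeft ℂ ℂ (Fin.natAdd n)), ?_, ?_⟩
  · intro w
    simp only [LinearMap.add_apply, LinearMap.comp_apply, map_add, f.hv, g1, hj, add_zero]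
  · intro w hw
    simp only [LinearMap.add_apply, LinearMap.comp_apply, map_add, f.hT, h1 _ _ (g1 _),
      h2 _ _ (g1 _), add_zero, zero_add, Complex.add_im]
    by_cases hw1 : (LinearMap.funLeft ℂ ℂ (Fin.castAdd k)) w = 0
    · have hw2 : (LinearMap.funLeft ℂ ℂ (Fin.natAdd n)) w ≠ 0 := by
        intro h0
        apply hw
        funext i
        refine Fin.addCases (fun i => ?_) (fun i => ?_) i
        · exact congrFun hw1 i
        · exact congrFun h0 i
      rw [hw1, map_zero, map_zero]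
      simpa using h3 _ hw2
    · have h7 := g2 _ hw1
      by_cases hw2 : (LinearMap.funLeft ℂ ℂ (Fin.natAdd n)) w = 0
      · rw [hw2, map_zero, map_zero]
        simpa using h7
      · have h8 := h3 _ hw2
        linarith

/-- The inclusion into the space with one more coordinate. -/
def embCons (x : V) (τ : ℂ) (S : Sp V) : Emb S (Sp.cons h x τ S) where
  φ := (LinearMap.inr ℂ ℂ S.E : S.E →ₗ[ℂ] (ℂ × S.E))
  hv := by
    intro e
    show (Sp.cons h x τ S).v ((0, e) : ℂ × S.E) = _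
    rw [Sp.cons_v]; simp
  hT := by
    intro e f
    show (Sp.cons h x τ S).T ((0, e) : ℂ × S.E) ((0, f) : ℂ × S.E) = _
    rw [Sp.cons_T]; simp

theorem HasPos.cons {S : Sp V} {n : ℕ} (hS : HasPos S n) (x : V) (τ : ℂ) :
    HasPos (Sp.cons h x τ S) n := hS.emb (embCons x τ S)

/-- The relation in a double letter. -/
def rel2 (E : Type) [AddCommGroup E] [Module ℂ E] : (Fin 1 → ℂ) →ₗ[ℂ] (ℂ × (ℂ × E)) where
  toFun a := (a 0, (-a 0, 0))
  map_add' a b := by
    refine Prod.ext ?_ (Prod.ext ?_ ?_) <;> simp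
    ring
  map_smul' c a := by
    refine Prod.ext ?_ (Prod.ext ?_ ?_) <;> simp

theorem HasPos.double {S : Sp V} {n : ℕ} (hS : HasPos S n) {x : V} {τ : ℂ}
    (hx : h x x = τ + conj τ) (hτ : 0 < τ.im) :
    HasPos (Sp.cons h x τ (Sp.cons h x τ S)) (n + 1) := by
  refine HasPos.extend ((embCons x τ S).trans (embCons x τ (Sp.cons h x τ S)))
    (rel2 S.E : (Fin 1 → ℂ) →ₗ[ℂ] (ℂ × (ℂ × S.E))) ?_ ?_ ?_ ?_ hS
  · intro a
    show (Sp.cons h x τ (Sp.cons h x τ S)).v ((a 0, (-a 0, 0)) : ℂ × (ℂ × S.E)) = _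
    rw [Sp.cons_v, Sp.cons_v, map_zero]; module
  · intro e a he
    show (Sp.cons h x τ (Sp.cons h x τ S)).T ((0, (0, e)) : ℂ × (ℂ × S.E))
      ((a 0, (-a 0, 0)) : ℂ × (ℂ × S.E)) = _
    rw [Sp.cons_T, Sp.cons_T, Sp.cons_v]; simp
  · intro e a he
    show (Sp.cons h x τ (Sp.cons h x τ S)).T ((a 0, (-a 0, 0)) : ℂ × (ℂ × S.E))
      ((0, (0, e)) : ℂ × (ℂ × S.E)) = _
    rw [Sp.cons_T, Sp.cons_T, Sp.cons_v, he]; simp
  · intro a ha
    have ha0 : a 0 ≠ 0 := by
      intro h0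
      apply ha
      funext i
      rw [Subsingleton.elim i 0, h0]; rfl
    show 0 < ((Sp.cons h x τ (Sp.cons h x τ S)).T ((a 0, (-a 0, 0)) : ℂ × (ℂ × S.E))
      ((a 0, (-a 0, 0)) : ℂ × (ℂ × S.E))).im
    rw [Sp.cons_T, Sp.cons_T, Sp.cons_v, map_zero, add_zero, map_smul, hx]
    have e1 : τ * (conj (a 0) * a 0) + conj (a 0) * (-a 0) • (τ + conj τ) +
        (τ * (conj (-a 0) * -a 0) + conj (-a 0) * h x 0 + S.T 0 0) =
        ((‖a 0‖ ^ 2 : ℝ) : ℂ) * (τ - conj τ) := by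
      rw [map_zero, map_zero, ← Complex.normSq_eq_norm_sq, ← Complex.mul_conj, map_neg,
        smul_eq_mul]
      ring
    rw [e1, Complex.im_ofReal_mul, Complex.sub_im, Complex.conj_im]
    have : 0 < ‖a 0‖ := norm_pos_iff.2 ha0
    have h5 : 0 < τ.im - -τ.im := by linarith
    positivity

/-- The relations in a triple letter. -/
def rel3 (E : Type) [AddCommGroup E] [Module ℂ E] :
    (Fin 2 → ℂ) →ₗ[ℂ] (ℂ × (ℂ × (ℂ × E))) where
  toFun a := (a 0, (a 1 - a 0, (-a 1, 0)))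
  map_add' a b := by
    refine Prod.ext ?_ (Prod.ext ?_ (Prod.ext ?_ ?_)) <;> simp <;> ring
  map_smul' c a := by
    refine Prod.ext ?_ (Prod.ext ?_ (Prod.ext ?_ ?_)) <;> simp
    ring

theorem triple_pos {τ : ℂ} (hτ : conj τ * τ = 1) (hi : 1 / 2 < τ.im) {a b : ℂ}
    (hab : a ≠ 0 ∨ b ≠ 0) :
    0 < (τ * (conj a * a + conj (b - a) * (b - a) + conj b * b) +
      (τ + conj τ) * (-(conj a * a) - conj b * b + conj a * b)).im := by
  have h1 : τ.re * τ.re + τ.im * τ.im = 1 := by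
    have := congrArg Complex.re hτ
    simpa using this
  have e1 : (τ * (conj a * a + conj (b - a) * (b - a) + conj b * b) +
      (τ + conj τ) * (-(conj a * a) - conj b * b + conj a * b)).im =
      2 * τ.im * (a.re * a.re + a.im * a.im + b.re * b.re + b.im * b.im) -
      2 * τ.im * (a.re * b.re + a.im * b.im) + 2 * τ.re * (a.re * b.im - a.im * b.re) := by
    simp only [Complex.add_im, Complex.mul_im, Complex.add_re, Complex.mul_re, Complex.sub_re,
      Complex.sub_im, Complex.conj_re, Complex.conj_im, Complex.neg_im, Complex.neg_re]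
    ring
  rw [e1]
  have h2 : 0 < a.re * a.re + a.im * a.im + b.re * b.re + b.im * b.im := by
    rcases hab with h0 | h0
    · have : 0 < Complex.normSq a := Complex.normSq_pos.2 h0
      rw [Complex.normSq_apply] at this
      nlinarith [mul_self_nonneg b.re, mul_self_nonneg b.im]
    · have : 0 < Complex.normSq b := Complex.normSq_pos.2 h0
      rw [Complex.normSq_apply] at this
      nlinarith [mul_self_nonneg a.re, mul_self_nonneg a.im]
  -- the vector `τ' b` with `|τ'| = 1`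
  have h3 : 0 ≤ (a.re - (τ.im * b.re - τ.re * b.im)) ^ 2 +
      (a.im - (τ.im * b.im + τ.re * b.re)) ^ 2 := by positivity
  have h4 : (τ.im * b.re - τ.re * b.im) ^ 2 + (τ.im * b.im + τ.re * b.re) ^ 2 =
      b.re * b.re + b.im * b.im := by
    have : (τ.im * b.re - τ.re * b.im) ^ 2 + (τ.im * b.im + τ.re * b.re) ^ 2 =
      (τ.re * τ.re + τ.im * τ.im) * (b.re * b.re + b.im * b.im) := by ring
    rw [this, h1, one_mul]
  nlinarith [mul_pos (sub_pos.2 hi) h2]

theorem HasPos.triple {S : Sp V} {n : ℕ} (hS : HasPos S n) {x : V} {τ : ℂ}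
    (hx : h x x = τ + conj τ) (hτ : conj τ * τ = 1) (hi : 1 / 2 < τ.im) :
    HasPos (Sp.cons h x τ (Sp.cons h x τ (Sp.cons h x τ S))) (n + 2) := by
  refine HasPos.extend (((embCons x τ S).trans (embCons x τ (Sp.cons h x τ S))).trans
      (embCons x τ (Sp.cons h x τ (Sp.cons h x τ S))))
    (rel3 S.E : (Fin 2 → ℂ) →ₗ[ℂ] (ℂ × (ℂ × (ℂ × S.E)))) ?_ ?_ ?_ ?_ hS
  · intro a
    show (Sp.cons h x τ (Sp.cons h x τ (Sp.cons h x τ S))).v
      ((a 0, (a 1 - a 0, (-a 1, 0))) : ℂ × (ℂ × (ℂ × S.E))) = _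
    rw [Sp.cons_v, Sp.cons_v, Sp.cons_v, map_zero]; module
  · intro e a he
    show (Sp.cons h x τ (Sp.cons h x τ (Sp.cons h x τ S))).T
      ((0, (0, (0, e))) : ℂ × (ℂ × (ℂ × S.E)))
      ((a 0, (a 1 - a 0, (-a 1, 0))) : ℂ × (ℂ × (ℂ × S.E))) = _
    rw [Sp.cons_T, Sp.cons_T, Sp.cons_T]; simp
  · intro e a he
    show (Sp.cons h x τ (Sp.cons h x τ (Sp.cons h x τ S))).T
      ((a 0, (a 1 - a 0, (-a 1, 0))) : ℂ × (ℂ × (ℂ × S.E)))
      ((0, (0, (0, e))) : ℂ × (ℂ × (ℂ × S.E))) = _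
    rw [Sp.cons_T, Sp.cons_T, Sp.cons_T, Sp.cons_v, Sp.cons_v, he]; simp
  · intro a ha
    have ha0 : a 0 ≠ 0 ∨ a 1 ≠ 0 := by
      by_contra hcon
      rw [not_or, not_not, not_not] at hcon
      apply ha
      funext i
      fin_cases i
      · exact hcon.1
      · exact hcon.2
    show 0 < ((Sp.cons h x τ (Sp.cons h x τ (Sp.cons h x τ S))).T
      ((a 0, (a 1 - a 0, (-a 1, 0))) : ℂ × (ℂ × (ℂ × S.E)))
      ((a 0, (a 1 - a 0, (-a 1, 0))) : ℂ × (ℂ × (ℂ × S.E)))).im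
    have h5 := triple_pos hτ hi ha0
    rw [Sp.cons_T, Sp.cons_T, Sp.cons_T, Sp.cons_v, Sp.cons_v, map_zero, add_zero, map_add,
      map_smul, map_smul, hx, map_zero, map_zero]
    convert h5 using 2
    simp only [smul_eq_mul, map_sub, map_neg]
    ring

end Pool.Agent.Helper834.LT
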