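import Pool.Agent.Helper834.Upper

/-!
The inequality for factorizations of powers of the full twist.
-/

namespace Pool.Agent.Helper834.LT

open scoped ComplexConjugate
open Pool.Agent.Helper496.BraidFact

theorem ub_um {d : ℕ} (hd : 2 ≤ d) (α : ℝ) (hx : ∀ i, |xx d α i| < 1) {M : ℕ}
    (hs : ∀ m : ℕ, 1 ≤ m → m ≤ M → ∀ i, Real.sin (m * ph d α i) ≠ 0) (m : ℕ) (hm : 1 ≤ m)
    (hmM : m ≤ M) : UB α ((ys hd α).um m) m := by
  induction m, hm using Nat.le_induction with
  | base =>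
    refine UB.one hd α hx (fun i => ?_)
    have := hs 1 le_rfl hmM i
    simpa using this
  | succ m hm ih =>
    have h1 := ih (by omega)
    have h2 := UB.step hd α hx (hs m hm (by omega)) (fun i => by
      have := hs (m + 1) (by omega) hmM i
      push_cast at this
      exact this) h1
    exact h2

theorem UB.bound {d : ℕ} {α : ℝ} {w : List (Letter (hh d α) (tt α))} {m : ℕ}
    (hw : UB α w m) {n : ℕ} (hn : HasPos (space w) n) :
    (n : ℤ) ≤ ∑ i : Fin (d - 1), ((m : ℤ) - 1 - ⌊(m : ℝ) * |xx d α i|⌋) := by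
  obtain ⟨ι, hι, L, hc, hL⟩ := hw
  obtain ⟨f, h1, h2⟩ := hn
  refine le_trans ?_ hc
  by_contra hcon
  have hlt : Fintype.card ι < n := by omega
  let A : (Fin n → ℂ) →ₗ[ℂ] (ι → ℂ) := LinearMap.pi (fun j => (L j).comp f)
  have hA : LinearMap.ker A ≠ ⊥ := by
    apply LinearMap.ker_ne_bot_of_finrank_lt
    simpa using hlt
  obtain ⟨w, hw, hw0⟩ := (Submodule.ne_bot_iff _).1 hA
  have h3 := hL (f w) (fun j => congrFun (LinearMap.mem_ker.1 hw) j)
  have h4 := h2 w hw0
  rw [h1 w] at h3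
  have h5 : ∑ i : Fin (d - 1), rr d i * (Real.sin (ph d α i) * Real.cos (m * ph d α i) /
        Real.sin (m * ph d α i)) * Complex.normSq ((0 : Fin (d - 1) → ℂ) i) = 0 := by
    apply Finset.sum_eq_zero
    intro i _
    simp
  rw [h5] at h3
  linarith

/-! ### The parameter -/

/-- The parameter, slightly larger than `1 / 6`. -/
noncomputable def al (d M : ℕ) : ℝ := 1 / 6 + 1 / (12 * M * d)

theorem xx_abs {d M : ℕ} (hd : 2 ≤ d) (hM : 2 ≤ M) (i : Fin (d - 1)) :
    |xx d (al d M) i| < 1 := by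
  have hd' : (0 : ℝ) < d := by
    have : 0 < d := by omega
    exact_mod_cast this
  have hM' : (0 : ℝ) < M := by
    have : 0 < M := by omega
    exact_mod_cast this
  have h1 : ((i : ℕ) : ℝ) + 1 < d := by
    have : (i : ℕ) + 1 < d := by omega
    exact_mod_cast this
  have h2 : (((i : ℕ) : ℝ) + 1) / d < 1 := by rwa [div_lt_one hd']
  have h3 : 0 < (((i : ℕ) : ℝ) + 1) / d := by positivity
  have h4 : 0 < 1 / (12 * (M : ℝ) * d) := by positivity
  have h5 : 1 / (12 * (M : ℝ) * d) < 1 / 2 := by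
    apply one_div_lt_one_div_of_lt (by norm_num)
    have h6 : (2 : ℝ) ≤ d := by exact_mod_cast hd
    have h7 : (2 : ℝ) ≤ M := by exact_mod_cast hM
    nlinarith
  rw [xx, al, abs_lt]
  constructor <;> linarith

theorem sin_ne {d M : ℕ} (hd : 2 ≤ d) (m : ℕ) (hm : 1 ≤ m) (hmM : m ≤ M)
    (i : Fin (d - 1)) : Real.sin (m * ph d (al d M) i) ≠ 0 := by
  rw [ph_eq, xx, al]
  intro h0
  rw [Real.sin_eq_zero_iff] at h0
  obtain ⟨n, hn⟩ := h0
  have hd' : (d : ℝ) ≠ 0 := by
    have : d ≠ 0 := by omega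
    exact_mod_cast this
  have hM' : (M : ℝ) ≠ 0 := by
    have : M ≠ 0 := by omega
    exact_mod_cast this
  have h1 : (n : ℝ) = m * ((((i : ℕ) : ℝ) + 1) / d - (1 / 6 + 1 / (12 * M * d))) := by
    have := Real.pi_pos.ne'
    have h2 : (n : ℝ) * Real.pi =
        m * ((((i : ℕ) : ℝ) + 1) / d - (1 / 6 + 1 / (12 * M * d))) * Real.pi := by
      rw [hn]; ring
    exact mul_right_cancel₀ this h2
  have h2 : (12 * M * d : ℝ) * n = 12 * M * m * (((i : ℕ) : ℝ) + 1) - 2 * M * d * m - m := by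
    rw [h1]
    field_simp
    ring
  have h3 : (12 * M * d : ℤ) * n = 12 * M * m * (((i : ℕ) : ℤ) + 1) - 2 * M * d * m - m := by
    exact_mod_cast h2
  have h4 : (2 * M : ℤ) ∣ m := by
    refine ⟨6 * m * (((i : ℕ) : ℤ) + 1) - d * m - 6 * d * n, ?_⟩
    linear_combination h3
  have h5 := Int.le_of_dvd (by omega) h4
  omega

theorem tt_im {d M : ℕ} (hd : 2 ≤ d) (hM : 2 ≤ M) : 1 / 2 < (tt (al d M)).im := by
  have hd' : (2 : ℝ) ≤ d := by exact_mod_cast hd
  have hM' : (2 : ℝ) ≤ M := by exact_mod_cast hM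
  rw [tt, Complex.exp_ofReal_mul_I_im, ← Real.sin_pi_div_six]
  have h4 : 0 < 1 / (12 * (M : ℝ) * d) := by positivity
  have h5 : 1 / (12 * (M : ℝ) * d) < 1 / 4 := by
    apply one_div_lt_one_div_of_lt (by norm_num)
    nlinarith
  have hp := Real.pi_pos
  apply Real.sin_lt_sin_of_lt_of_le_pi_div_two
  · linarith
  · rw [al]; nlinarith
  · rw [al]; nlinarith

theorem mu_ne {d M : ℕ} (hd : 2 ≤ d) (hM : 2 ≤ M) : conj (tt (al d M)) ^ (2 * M) ≠ 1 := by
  have hd' : (d : ℝ) ≠ 0 := by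
    have : d ≠ 0 := by omega
    exact_mod_cast this
  have hM' : (M : ℝ) ≠ 0 := by
    have : M ≠ 0 := by omega
    exact_mod_cast this
  intro h
  rw [tt, conj_exp_I, ← Complex.exp_nat_mul, Complex.exp_eq_one_iff] at h
  obtain ⟨n, hn⟩ := h
  have h1 : ((2 * M : ℕ) : ℂ) * (-((Real.pi * al d M : ℝ) : ℂ) * Complex.I) =
      ((-(2 * M * (Real.pi * al d M)) : ℝ) : ℂ) * Complex.I := by push_cast; ring
  have h2 : (n : ℂ) * (2 * Real.pi * Complex.I) = ((n * (2 * Real.pi) : ℝ) : ℂ) * Complex.I := by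
    push_cast; ring
  rw [h1, h2] at hn
  have h3 := mul_right_cancel₀ Complex.I_ne_zero hn
  have h4 : (-(2 * M * (Real.pi * al d M)) : ℝ) = (n * (2 * Real.pi) : ℝ) := by
    exact_mod_cast h3
  have h5 : -(M * al d M : ℝ) = n := by
    have := Real.pi_pos.ne'
    have h6 : -(M * al d M : ℝ) * (2 * Real.pi) = n * (2 * Real.pi) := by
      rw [← h4]; ring
    exact mul_right_cancel₀ (by positivity) h6
  rw [al] at h5
  have h6 : (12 * d : ℝ) * n = -(2 * M * d) - 1 := by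
    rw [← h5]
    field_simp
    ring
  have h7 : (12 * d : ℤ) * n = -(2 * M * d) - 1 := by exact_mod_cast h6
  have h8 : (2 : ℤ) ∣ 1 := ⟨-(6 * d * n) - M * d, by linear_combination h7⟩
  omega

theorem tau_ne {d : ℕ} (α : ℝ) (i : Fin (d - 1)) : tau d α i ≠ 0 := by
  rw [tau_polar]
  have hi := i.2
  have hd : (0 : ℝ) < d := by
    have : 0 < d := by omega
    exact_mod_cast this
  have h1 : 0 < th d i := by
    rw [th]
    have := Real.pi_pos
    positivity
  have h2 : th d i < Real.pi := by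
    rw [th, div_lt_iff₀ hd]
    have h3 : ((i : ℕ) : ℝ) + 1 < d := by
      have : (i : ℕ) + 1 < d := by omega
      exact_mod_cast this
    have := Real.pi_pos
    nlinarith
  have h3 := Real.sin_pos_of_pos_of_lt_pi h1 h2
  have h4 : (rr d i : ℂ) ≠ 0 := by
    have : rr d i ≠ 0 := by
      rw [rr]; positivity
    exact_mod_cast this
  exact mul_ne_zero h4 (mul_ne_zero Complex.I_ne_zero (Complex.exp_ne_zero _))

theorem rot_apply {d : ℕ} (hd : 2 ≤ d) (α : ℝ) (y : Fin (d - 1) → ℂ) (i : Fin (d - 1)) :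
    (ys hd α).ρ (rot d) y i = conj (tt α) ^ 2 * zz d ^ ((i : ℕ) + 1) * y i := by
  have h1 := (ys_half hd α).rot (ys_reach hd α) y (Pi.single i 1)
  rw [TT_apply, hh_apply] at h1
  have h2 : ∀ (c : Fin (d - 1) → ℂ) (x : Fin (d - 1) → ℂ),
      ∑ j, c j * (conj ((Pi.single i 1 : Fin (d - 1) → ℂ) j) * x j) = c i * x i := by
    intro c x
    rw [Finset.sum_eq_single i]
    · simp
    · intro j _ hj
      simp [Pi.single_eq_of_ne hj]
    · intro h; exact absurd (Finset.mem_univ i) h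
  rw [h2, h2] at h1
  have h3 : conj (tau d α i) =
      -(tau d α i * (conj (tt α) ^ 2 * zz d ^ ((i : ℕ) + 1))) := by
    have h4 : conj (zz d ^ ((i : ℕ) + 1)) * zz d ^ ((i : ℕ) + 1) = 1 := by
      rw [map_pow, zz_conj, ← mul_pow, inv_mul_cancel₀ ((zz_prim hd).ne_zero (by omega)),
        one_pow]
    rw [tau]
    simp only [map_mul, map_div₀, map_sub, map_one, map_natCast, Complex.conj_conj]
    linear_combination (conj (tt α) / d * (-1) +
      conj (tt α) / d * zz d ^ ((i : ℕ) + 1)) * tt_unit α +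
      (-(tt α * conj (tt α) * conj (tt α) / d)) * h4
  have h5 : tau d α i * ((ys hd α).ρ (rot d) y i) =
      tau d α i * (conj (tt α) ^ 2 * zz d ^ ((i : ℕ) + 1) * y i) := by
    have h6 : (y - (ys hd α).ρ (rot d) y) i = y i - (ys hd α).ρ (rot d) y i := rfl
    rw [h6, h3] at h1
    linear_combination -h1
  exact mul_left_cancel₀ (tau_ne α i) h5

theorem rot_pow_apply {d : ℕ} (hd : 2 ≤ d) (α : ℝ) (m : ℕ) (y : Fin (d - 1) → ℂ)
    (i : Fin (d - 1)) : (ys hd α).ρ (rot d ^ m) y i =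
      (conj (tt α) ^ 2 * zz d ^ ((i : ℕ) + 1)) ^ m * y i := by
  induction m with
  | zero => simp
  | succ m ih =>
    rw [pow_succ', map_mul, LinearEquiv.mul_apply, rot_apply, ih, pow_succ']
    ring

theorem rot_scalar {d : ℕ} (hd : 2 ≤ d) (α : ℝ) (k : ℕ) (y : Fin (d - 1) → ℂ) :
    (ys hd α).ρ (rot d ^ (d * k)) y = (conj (tt α) ^ (2 * (d * k))) • y := by
  funext i
  rw [rot_pow_apply, Pi.smul_apply, smul_eq_mul, mul_pow, ← pow_mul, ← pow_mul]
  have : zz d ^ (((i : ℕ) + 1) * (d * k)) = 1 := by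
    rw [show ((i : ℕ) + 1) * (d * k) = d * (((i : ℕ) + 1) * k) by ring, pow_mul,
      (zz_prim hd).pow_eq_one, one_pow]
  rw [this, mul_one]

end Pool.Agent.Helper834.LT
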