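import Pool.Agent.Helper834.Word
import Pool.Agent.Helper496.Liftable

/-!
The braid group acts on `V` by unitary reflections and maps to the units of the monoid of
words.
-/

namespace Pool.Agent.Helper834.LT

open scoped ComplexConjugate
open Pool.Agent.Helper496.BraidFact

variable {V : Type} [AddCommGroup V] [Module ℂ V]
variable {h : V →ₗ⋆[ℂ] V →ₗ[ℂ] ℂ} {t : ℂ}

theorem refl_conj {x z : V} {τ : ℂ} (g : V →ₗ[ℂ] V) (hg : ∀ x y, h (g x) (g y) = h x y) :
    g (refl h x τ z) = refl h (g x) τ (g z) := by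
  simp [refl, hg]

theorem refl_phase {x z : V} {τ lam : ℂ} (hl : conj lam * lam = 1) :
    refl h (lam • x) τ z = refl h x τ z := by
  simp only [refl, map_smulₛₗ, LinearMap.smul_apply, smul_eq_mul, smul_smul]
  congr 2
  linear_combination (conj τ * h x z) * hl

theorem reflE_braid (hs : Sym h) (ht : conj t * t = 1) {x y : V}
    (hx : h x x = t + conj t) (hy : h y y = t + conj t) (hxy : h x y = -1)
    (hyx : h y x = -1) :
    reflE h x t ht hx * reflE h y t ht hy * reflE h x t ht hx =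
      reflE h y t ht hy * reflE h x t ht hx * reflE h y t ht hy := by
  ext z
  simp only [LinearEquiv.mul_apply, reflE_apply]
  have h1 := refl_conj (h := h) (x := x) (z := z) (τ := t)
    (reflE h y t ht hy).toLinearMap (fun a b => refl_h hs ht hy a b)
  have h2 := refl_conj (h := h) (x := refl h y t x) (z := refl h y t z) (τ := t)
    (reflE h x t ht hx).toLinearMap (fun a b => refl_h hs ht hx a b)
  simp only [LinearEquiv.coe_coe, reflE_apply] at h1 h2
  rw [h1, h2, refl_braid ht hx hxy hyx,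
    refl_phase (lam := conj t) (by rw [Complex.conj_conj, mul_comm, ht])]

theorem reflE_comm {x y : V} (ht : conj t * t = 1)
    (hx : h x x = t + conj t) (hy : h y y = t + conj t) (hxy : h x y = 0)
    (hyx : h y x = 0) :
    reflE h x t ht hx * reflE h y t ht hy = reflE h y t ht hy * reflE h x t ht hx := by
  ext z
  simp only [LinearEquiv.mul_apply, reflE_apply, refl, map_sub, map_smulₛₗ, hxy, hyx,
    RingHom.id_apply]
  module

/-- A system of vectors with the Gram matrix needed for the braid relations. -/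
structure Sys (d : ℕ) (h : V →ₗ⋆[ℂ] V →ₗ[ℂ] ℂ) (t : ℂ) where
  hs : Sym h
  ht : conj t * t = 1
  /-- the vectors -/
  v : Fin (d - 1) → V
  hv : ∀ i, h (v i) (v i) = t + conj t
  adj : ∀ i j : Fin (d - 1), (i : ℕ) + 1 = j → h (v i) (v j) = -1
  far : ∀ i j : Fin (d - 1), (i : ℕ) + 2 ≤ j → h (v i) (v j) = 0

variable {d : ℕ} (Y : Sys d h t)

theorem Sys.adj' {i j : Fin (d - 1)} (hij : (i : ℕ) + 1 = j) :
    h (Y.v j) (Y.v i) = -1 := by
  rw [← Y.hs, Y.adj i j hij]; simp

theorem Sys.far' {i j : Fin (d - 1)} (hij : (i : ℕ) + 2 ≤ j) :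
    h (Y.v j) (Y.v i) = 0 := by
  rw [← Y.hs, Y.far i j hij]; simp

/-- The positive letters of the system. -/
def Sys.pl (i : Fin (d - 1)) : Letter h t := pos (Y.v i) (Y.hv i)

/-- The word of all letters of the system, in order. -/
def Sys.u : List (Letter h t) := (List.finRange (d - 1)).map Y.pl

/-- The representation by unitary reflections. -/
def Sys.ρ : BraidGroup d →* (V ≃ₗ[ℂ] V) :=
  liftB (fun i => reflE h (Y.v i) t Y.ht (Y.hv i))
    (fun i j hij => reflE_braid Y.hs Y.ht _ _ (Y.adj i j hij) (Y.adj' hij))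
    (fun i j hij => reflE_comm Y.ht _ _ (Y.far i j hij) (Y.far' hij))

theorem Sys.ρ_sig (i : Fin (d - 1)) :
    Y.ρ (sig i) = reflE h (Y.v i) t Y.ht (Y.hv i) := by simp [Sys.ρ]

variable (hu : ∀ x, Reach Y.u x)

/-- The map to the units of the monoid of words. -/
def Sys.Φ : BraidGroup d →* (wcon Y.u).Quotientˣ :=
  liftB (fun i => lunit Y.hs Y.ht hu (Y.pl i))
    (fun i j hij => by
      ext
      exact cls_braid Y.hs Y.ht Y.u (Y.hv i) (Y.hv j) (Y.adj i j hij) (Y.adj' hij))
    (fun i j hij => by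
      ext
      exact cls_comm Y.hs Y.ht Y.u (Y.hv i) (Y.hv j) (Y.far i j hij))

theorem Sys.Φ_sig (i : Fin (d - 1)) :
    Y.Φ hu (sig i) = lunit Y.hs Y.ht hu (Y.pl i) := by simp [Sys.Φ]

/-- Induction on elements of the braid group. -/
theorem braid_induction {P : BraidGroup d → Prop} (h1 : ∀ i, P (sig i)) (h2 : P 1)
    (h3 : ∀ a b, P a → P b → P (a * b)) (h4 : ∀ a, P a → P a⁻¹) (b : BraidGroup d) : P b := by
  have hb : b ∈ Subgroup.closure (Set.range (PresentedGroup.of (rels := braidRels d))) := by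
    rw [PresentedGroup.closure_range_of]; trivial
  induction hb using Subgroup.closure_induction with
  | mem z hz =>
    obtain ⟨j, rfl⟩ := hz
    exact h1 j
  | one => exact h2
  | mul a b _ _ ha hb => exact h3 a b ha hb
  | inv a _ ha => exact h4 a ha

theorem Sys.ρ_h (b : BraidGroup d) : ∀ x y, h (Y.ρ b x) (Y.ρ b y) = h x y := by
  induction b using braid_induction with
  | h1 i =>
    intro x y
    rw [Y.ρ_sig, reflE_apply, reflE_apply, refl_h Y.hs Y.ht (Y.hv i)]
  | h2 => intro x y; simp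
  | h3 a b ha hb =>
    intro x y
    rw [map_mul, LinearEquiv.mul_apply, LinearEquiv.mul_apply, ha, hb]
  | h4 a ha =>
    intro x y
    rw [← ha, ← LinearEquiv.mul_apply, ← LinearEquiv.mul_apply, ← map_mul, mul_inv_cancel,
      map_one]
    rfl

theorem Letter.map_congr {g g' : V → V} (hg : ∀ x y, h (g x) (g y) = h x y)
    (hg' : ∀ x y, h (g' x) (g' y) = h x y) (l : Letter h t) (e : g l.x = g' l.x) :
    l.map g hg = l.map g' hg' := Letter.ext' e rfl

theorem Sys.Φ_conj (b : BraidGroup d) : ∀ l : Letter h t,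
    (Y.Φ hu b : (wcon Y.u).Quotient) * cls Y.u [l] =
      cls Y.u [l.map (Y.ρ b) (Y.ρ_h b)] * (Y.Φ hu b : (wcon Y.u).Quotient) := by
  induction b using braid_induction with
  | h1 i =>
    intro l
    rw [Y.Φ_sig]
    have := cls_hurwitz Y.hs Y.ht Y.u (Y.pl i) l
    have h2 : l.map (Y.ρ (sig i)) (Y.ρ_h (sig i)) =
        l.map (refl h (Y.pl i).x (Y.pl i).τ) (refl_h Y.hs ((Y.pl i).hτ Y.ht) (Y.pl i).hxτ) :=
      Letter.map_congr _ _ l (by rw [Y.ρ_sig, reflE_apply]; rfl)
    rw [h2]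
    exact this
  | h2 =>
    intro l
    have h2 : l.map (Y.ρ 1) (Y.ρ_h 1) = l := Letter.ext' (by simp [Letter.map]) rfl
    rw [h2, map_one]; simp
  | h3 a b ha hb =>
    intro l
    have h2 : l.map (Y.ρ (a * b)) (Y.ρ_h (a * b)) =
        (l.map (Y.ρ b) (Y.ρ_h b)).map (Y.ρ a) (Y.ρ_h a) :=
      Letter.ext' (by simp [Letter.map]) rfl
    rw [h2, map_mul, Units.val_mul, mul_assoc, hb, ← mul_assoc, ha, mul_assoc]
  | h4 a ha =>
    intro l
    have h3 := ha (l.map (Y.ρ a⁻¹) (Y.ρ_h a⁻¹))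
    have h2 : (l.map (Y.ρ a⁻¹) (Y.ρ_h a⁻¹)).map (Y.ρ a) (Y.ρ_h a) = l := by
      refine Letter.ext' ?_ rfl
      show Y.ρ a (Y.ρ a⁻¹ l.x) = l.x
      rw [← LinearEquiv.mul_apply, ← map_mul, mul_inv_cancel, map_one]
      rfl
    rw [h2] at h3
    rw [map_inv, Units.inv_mul_eq_iff_eq_mul, ← mul_assoc, h3, mul_assoc, Units.mul_inv, mul_one]

end Pool.Agent.Helper834.LT
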