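import Pool.Agent.Helper834.Compare

/-!
Splitting of the space of a product of words, and the action of a word in terms of its form.
-/

namespace Pool.Agent.Helper834.LT

open scoped ComplexConjugate
open Pool.Agent.Helper496.BraidFact

variable {V : Type} [AddCommGroup V] [Module ℂ V]
variable {h : V →ₗ⋆[ℂ] V →ₗ[ℂ] ℂ} {t : ℂ}

theorem exists_split (w L : List (Letter h t)) :
    ∃ (π₁ : (space (L ++ w)).E →ₗ[ℂ] (space L).E) (π₂ : (space (L ++ w)).E →ₗ[ℂ] (space w).E),
      (∀ x, (space (L ++ w)).v x = (space L).v (π₁ x) + (space w).v (π₂ x)) ∧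
      ∀ x y, (space (L ++ w)).T x y = (space L).T (π₁ x) (π₁ y) +
        h ((space L).v (π₁ x)) ((space w).v (π₂ y)) + (space w).T (π₂ x) (π₂ y) := by
  induction L with
  | nil =>
    refine ⟨0, LinearMap.id, ?_, ?_⟩
    · intro x
      rw [LinearMap.zero_apply, map_zero, zero_add]; rfl
    · intro x y
      rw [LinearMap.zero_apply, LinearMap.zero_apply, map_zero, map_zero, map_zero]
      simp
  | cons l L ih =>
    obtain ⟨π₁, π₂, h1, h2⟩ := ih
    refine ⟨(LinearMap.prodMap (LinearMap.id : ℂ →ₗ[ℂ] ℂ) π₁ :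
      (ℂ × (space (L ++ w)).E) →ₗ[ℂ] (ℂ × (space L).E)),
      (π₂.comp (LinearMap.snd ℂ ℂ (space (L ++ w)).E) :
      (ℂ × (space (L ++ w)).E) →ₗ[ℂ] (space w).E), ?_, ?_⟩
    · rintro ⟨a, x⟩
      show (Sp.cons h l.x l.τ (space (L ++ w))).v ((a, x) : ℂ × (space (L ++ w)).E) =
        (Sp.cons h l.x l.τ (space L)).v ((a, π₁ x) : ℂ × (space L).E) + (space w).v (π₂ x)
      rw [Sp.cons_v, Sp.cons_v, h1, add_assoc]
    · rintro ⟨a, x⟩ ⟨b, y⟩
      show (Sp.cons h l.x l.τ (space (L ++ w))).T ((a, x) : ℂ × (space (L ++ w)).E)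
          ((b, y) : ℂ × (space (L ++ w)).E) =
        (Sp.cons h l.x l.τ (space L)).T ((a, π₁ x) : ℂ × (space L).E)
          ((b, π₁ y) : ℂ × (space L).E) +
        h ((Sp.cons h l.x l.τ (space L)).v ((a, π₁ x) : ℂ × (space L).E))
          ((space w).v (π₂ y)) + (space w).T (π₂ x) (π₂ y)
      rw [Sp.cons_T, Sp.cons_T, Sp.cons_v, h1, h2]
      simp only [map_add, map_smulₛₗ, LinearMap.add_apply, LinearMap.smul_apply, smul_eq_mul]
      ring

theorem gact_sol (ht : conj t * t = 1) (w : List (Letter h t)) (y : V) :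
    ∃ e : (space w).E, gact w y = y - (space w).v e ∧
      ∀ e', (space w).T e' e = h ((space w).v e') y := by
  induction w with
  | nil =>
    refine ⟨0, ?_, ?_⟩
    · rw [map_zero, sub_zero]; rfl
    · intro e'
      rw [map_zero]
      show (0 : ℂ) = h 0 y
      simp
  | cons l w ih =>
    obtain ⟨e1, h1, h2⟩ := ih
    refine ⟨((conj l.τ * h l.x (gact w y), e1) : ℂ × (space w).E), ?_, ?_⟩
    · show _ = y - (Sp.cons h l.x l.τ (space w)).v
        ((conj l.τ * h l.x (gact w y), e1) : ℂ × (space w).E)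
      rw [Sp.cons_v, gact_cons, refl, h1]
      module
    · rintro ⟨b, e'⟩
      show (Sp.cons h l.x l.τ (space w)).T ((b, e') : ℂ × (space w).E)
        ((conj l.τ * h l.x (gact w y), e1) : ℂ × (space w).E) =
        h ((Sp.cons h l.x l.τ (space w)).v ((b, e') : ℂ × (space w).E)) y
      rw [Sp.cons_T, Sp.cons_v, h2, h1]
      simp only [map_add, map_sub, map_smulₛₗ, LinearMap.add_apply, LinearMap.smul_apply,
        smul_eq_mul]
      linear_combination (conj b * (h l.x y - h l.x ((space w).v e1))) * l.hτ ht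

/-! ### The standard word -/

variable {d : ℕ} (Y : Sys d h t)

theorem Sys.reach_list (a : Fin (d - 1) → ℂ) (L : List (Fin (d - 1))) :
    Reach (L.map Y.pl) ((L.map (fun l => a l • Y.v l)).sum) := by
  induction L with
  | nil => exact ⟨0, by rw [map_zero]; rfl⟩
  | cons i L ih =>
    rw [List.map_cons, List.map_cons, List.sum_cons]
    exact ((Reach.self (Y.pl i) _).smul (a i)).add (ih.cons _)

theorem Sys.reach_u (a : Fin (d - 1) → ℂ) : Reach Y.u (∑ l, a l • Y.v l) := by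
  rw [Fin.sum_univ_def]
  exact Y.reach_list a _

/-- One half of the form `h` which is triangular on the vectors of the system. -/
structure Half (T : V →ₗ⋆[ℂ] V →ₗ[ℂ] ℂ) : Prop where
  half : ∀ x y, T x y + conj (T y x) = h x y
  diag : ∀ i, T (Y.v i) (Y.v i) = t
  lower : ∀ i j, i < j → T (Y.v j) (Y.v i) = 0

variable {Y}

theorem Half.zero {T : V →ₗ⋆[ℂ] V →ₗ[ℂ] ℂ} (H : Half Y T) (i : Fin (d - 1)) :
    ∀ (L : List (Fin (d - 1))), (∀ j ∈ L, i < j) → ∀ e : (space (L.map Y.pl)).E,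
      T ((space (L.map Y.pl)).v e) (Y.v i) = 0 := by
  intro L
  induction L with
  | nil =>
    intro _ e
    show T 0 (Y.v i) = 0
    rw [map_zero]; rfl
  | cons j L ih =>
    rintro hL ⟨a, e⟩
    show T ((Sp.cons h (Y.pl j).x (Y.pl j).τ (space (L.map Y.pl))).v
      ((a, e) : ℂ × (space (L.map Y.pl)).E)) (Y.v i) = 0
    rw [Sp.cons_v, map_add, map_smulₛₗ, LinearMap.add_apply, LinearMap.smul_apply,
      ih (fun k hk => hL k (List.mem_cons_of_mem _ hk))]
    have : T (Y.pl j).x (Y.v i) = 0 := H.lower i j (hL j List.mem_cons_self)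
    rw [this]; simp

theorem Half.list {T : V →ₗ⋆[ℂ] V →ₗ[ℂ] ℂ} (H : Half Y T) :
    ∀ (L : List (Fin (d - 1))), L.Pairwise (· < ·) → ∀ e f : (space (L.map Y.pl)).E,
      (space (L.map Y.pl)).T e f =
        T ((space (L.map Y.pl)).v e) ((space (L.map Y.pl)).v f) := by
  intro L
  induction L with
  | nil =>
    intro _ e f
    show (0 : ℂ) = T 0 0
    rw [map_zero]
  | cons i L ih =>
    rintro hL ⟨a, e⟩ ⟨b, f⟩
    rw [List.pairwise_cons] at hL
    show (Sp.cons h (Y.pl i).x (Y.pl i).τ (space (L.map Y.pl))).T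
      ((a, e) : ℂ × (space (L.map Y.pl)).E) ((b, f) : ℂ × (space (L.map Y.pl)).E) =
      T ((Sp.cons h (Y.pl i).x (Y.pl i).τ (space (L.map Y.pl))).v
        ((a, e) : ℂ × (space (L.map Y.pl)).E))
        ((Sp.cons h (Y.pl i).x (Y.pl i).τ (space (L.map Y.pl))).v
        ((b, f) : ℂ × (space (L.map Y.pl)).E))
    rw [Sp.cons_T, Sp.cons_v, Sp.cons_v, ih hL.2]
    have h1 : (Y.pl i).x = Y.v i := rfl
    have h2 : (Y.pl i).τ = t := rfl
    have h3 := H.zero i L hL.1 e
    have h4 := H.half (Y.v i) ((space (L.map Y.pl)).v f)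
    rw [H.zero i L hL.1 f, map_zero, add_zero] at h4
    simp only [h1, h2, map_add, map_smulₛₗ, LinearMap.add_apply, LinearMap.smul_apply,
      smul_eq_mul, RingHom.id_apply, h3, H.diag, h4]
    ring

theorem Half.u {T : V →ₗ⋆[ℂ] V →ₗ[ℂ] ℂ} (H : Half Y T) (e f : (space Y.u).E) :
    (space Y.u).T e f = T ((space Y.u).v e) ((space Y.u).v f) :=
  H.list _ (List.pairwise_lt_finRange _) e f

theorem Sys.gact_u (y : V) : gact Y.u y = Y.ρ (rot d) y := by
  have : ∀ L : List (Fin (d - 1)), gact (L.map Y.pl) y = Y.ρ (L.map sig).prod y := by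
    intro L
    induction L with
    | nil => rw [List.map_nil, List.map_nil, List.prod_nil, map_one]; rfl
    | cons i L ih =>
      rw [List.map_cons, List.map_cons, List.prod_cons, map_mul, gact_cons, ih,
        LinearEquiv.mul_apply, Y.ρ_sig]
      rfl
  exact this _

theorem Half.rot {T : V →ₗ⋆[ℂ] V →ₗ[ℂ] ℂ} (H : Half Y T) (hu : ∀ x, Reach Y.u x) (y : V) :
    ∀ z, T z (y - Y.ρ (rot d) y) = h z y := by
  obtain ⟨e, h1, h2⟩ := gact_sol Y.ht Y.u y
  intro z
  obtain ⟨f, hf⟩ := hu z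
  rw [← Sys.gact_u, h1, sub_sub_cancel, ← hf, ← H.u, h2]

end Pool.Agent.Helper834.LT
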