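import Pool.Agent.Helper834.Model

/-!
The number of cusps of a branch curve with symmetric group monodromy on three letters (or
four) is divisible by three.
-/

namespace Pool.Agent.Helper834.Tri

open Pool.Agent.Helper496.BraidFact Pool.Agent.Helper834

/-- The reflection `y ↦ 2 a - y` of `ZMod 3`. -/
def tri (a : ZMod 3) : Equiv.Perm (ZMod 3) where
  toFun y := 2 * a - y
  invFun y := 2 * a - y
  left_inv y := by ring
  right_inv y := by ring

theorem tri_apply (a y : ZMod 3) : tri a y = 2 * a - y := rfl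

theorem tri_inv (a : ZMod 3) : (tri a)⁻¹ = tri a := rfl

theorem tri_conj (a b : ZMod 3) : tri a * tri b * (tri a)⁻¹ = tri (2 * a - b) := by
  rw [tri_inv]
  ext y
  simp only [Equiv.Perm.mul_apply, tri_apply]
  ring_nf

theorem tri_inj {a b : ZMod 3} (h : tri a = tri b) : a = b := by
  have h1 : tri a 0 = tri b 0 := by rw [h]
  simp only [tri_apply, sub_zero] at h1
  revert a b
  decide

/-- The homomorphism given by an integral sequence. -/
def thx (d : ℕ) (a : V) : FreeGroup (Fin d) →* Equiv.Perm (ZMod 3) :=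
  FreeGroup.lift (fun j => tri ((a j : ZMod 3) + (a (j + 1) : ZMod 3)))

theorem thx_of {d : ℕ} (a : V) (j : Fin d) :
    thx d a (FreeGroup.of j) = tri ((a j : ZMod 3) + (a (j + 1) : ZMod 3)) := by
  simp [thx]

theorem thx_artin {d : ℕ} (b : BraidGroup d) :
    ∀ (a : V) (x : FreeGroup (Fin d)), thx d a (artin d b x) = thx d (rep d b⁻¹ a) x := by
  have hb : b ∈ Subgroup.closure (Set.range (PresentedGroup.of (rels := braidRels d))) := by
    rw [PresentedGroup.closure_range_of]; trivial
  induction hb using Subgroup.closure_induction with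
  | mem z hz =>
    obtain ⟨i, rfl⟩ := hz
    intro a x
    have h0 : (PresentedGroup.of i : BraidGroup d) = sig i := rfl
    rw [h0]
    have key : (thx d a).comp (artin d (sig i)).toMonoidHom = thx d (rep d (sig i)⁻¹ a) := by
      ext1 j
      rw [MonoidHom.comp_apply, MulEquiv.coe_toMonoidHom, artin_sig, artinAut_apply, thx_of]
      have hr : ∀ n, rep d (sig i)⁻¹ a n =
          if n = (i : ℕ) + 1 then a (i + 1) - a (i + 2) + a i else a n := by
        intro n
        rw [map_inv, rep_sig]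
        rfl
      rw [hr, hr]
      by_cases h1 : j = lo i
      · subst h1
        rw [artinFun_lo, map_mul, map_mul, map_inv, thx_of, thx_of, tri_conj]
        have e1 : ((lo i : Fin d) : ℕ) = i := rfl
        have e2 : ((hi i : Fin d) : ℕ) = i + 1 := rfl
        rw [e1, e2]
        have h3 : ¬ ((i : ℕ) = i + 1) := by omega
        rw [if_neg h3, if_pos rfl]
        congr 1
        push_cast
        ring
      · by_cases h2 : j = hi i
        · subst h2
          rw [artinFun_hi, thx_of]
          have e1 : ((lo i : Fin d) : ℕ) = i := rfl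
          have e2 : ((hi i : Fin d) : ℕ) = i + 1 := rfl
          rw [e1, e2]
          have h3 : ¬ ((i : ℕ) + 1 + 1 = i + 1) := by omega
          rw [if_pos rfl, if_neg h3]
          congr 1
          push_cast
          ring
        · rw [artinFun_ne i h1 h2, thx_of]
          have h3 : ¬ ((j : ℕ) = (i : ℕ) + 1) := fun h => h2 (Fin.ext h)
          have h4 : ¬ ((j : ℕ) + 1 = (i : ℕ) + 1) := by
            intro h
            apply h1
            apply Fin.ext
            show (j : ℕ) = i
            omega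
          rw [if_neg h3, if_neg h4]
    exact DFunLike.congr_fun key x
  | one => intro a x; simp
  | mul g h _ _ hg hh =>
    intro a x
    rw [map_mul, MulAut.mul_apply, hg, hh, mul_inv_rev, map_mul, LinearEquiv.mul_apply]
  | inv g _ hg =>
    intro a x
    have h1 := hg (rep d g a) (artin d g⁻¹ x)
    rw [← MulAut.mul_apply, ← map_mul, mul_inv_cancel, map_one, MulAut.one_apply,
      ← LinearEquiv.mul_apply, ← map_mul, inv_mul_cancel, map_one] at h1
    rw [inv_inv, h1]
    rfl

/-- The alternating form on sequences. -/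
def W (d : ℕ) (a b : V) : ℤ := ∑ i ∈ Finset.range d, (a i * b (i + 1) - a (i + 1) * b i)

theorem W_self (d : ℕ) (a : V) : W d a a = 0 := by
  apply Finset.sum_eq_zero
  intro i _
  ring

theorem W_add_right (d : ℕ) (a b c : V) : W d a (b + c) = W d a b + W d a c := by
  rw [W, W, W, ← Finset.sum_add_distrib]
  refine Finset.sum_congr rfl fun i _ => ?_
  simp only [Pi.add_apply]
  ring

theorem W_smul_right (d : ℕ) (a b : V) (n : ℤ) : W d a (n • b) = n * W d a b := by
  rw [W, W, Finset.mul_sum]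
  refine Finset.sum_congr rfl fun i _ => ?_
  simp only [Pi.smul_apply, smul_eq_mul]
  ring

theorem W_congr {d : ℕ} {a a' b b' : V} (ha : ∀ j ≤ d, a j = a' j) (hb : ∀ j ≤ d, b j = b' j) :
    W d a b = W d a' b' := by
  refine Finset.sum_congr rfl fun i hi => ?_
  rw [Finset.mem_range] at hi
  rw [ha i (by omega), ha (i + 1) (by omega), hb i (by omega), hb (i + 1) (by omega)]

theorem W_tv_nat {d n : ℕ} (hn : n + 2 ≤ d) (a b : V) :
    W d (tv n a) (tv n b) = W d a b := by
  obtain ⟨e, rfl⟩ : ∃ e, d = n + 2 + e := ⟨d - (n + 2), by omega⟩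
  have hs : ∀ f : ℕ → ℤ, ∑ j ∈ Finset.range (n + 2 + e), f j =
      (∑ j ∈ Finset.range n, f j) + f n + f (n + 1) +
        ∑ j ∈ Finset.range e, f (n + 2 + j) := by
    intro f
    rw [Finset.sum_range_add, Finset.sum_range_succ, Finset.sum_range_succ]
  rw [W, W, hs, hs]
  have h1 : ∀ j, tv n a j = if j = n + 1 then a (n + 1) + a (n + 2) - a n else a j :=
    fun j => rfl
  have h2 : ∀ j, tv n b j = if j = n + 1 then b (n + 1) + b (n + 2) - b n else b j :=
    fun j => rfl
  have e1 : ∀ j ∈ Finset.range n, tv n a j * tv n b (j + 1) - tv n a (j + 1) * tv n b j =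
      a j * b (j + 1) - a (j + 1) * b j := by
    intro j hj
    rw [Finset.mem_range] at hj
    rw [h1, h1, h2, h2, if_neg (by omega), if_neg (by omega), if_neg (by omega),
      if_neg (by omega)]
  have e2 : ∀ j ∈ Finset.range e, tv n a (n + 2 + j) * tv n b (n + 2 + j + 1) -
      tv n a (n + 2 + j + 1) * tv n b (n + 2 + j) =
      a (n + 2 + j) * b (n + 2 + j + 1) - a (n + 2 + j + 1) * b (n + 2 + j) := by
    intro j hj
    rw [h1, h1, h2, h2, if_neg (by omega), if_neg (by omega), if_neg (by omega),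
      if_neg (by omega)]
  rw [Finset.sum_congr rfl e1, Finset.sum_congr rfl e2]
  have f1 : tv n a n = a n := by rw [h1, if_neg (by omega)]
  have f2 : tv n b n = b n := by rw [h2, if_neg (by omega)]
  have f3 : tv n a (n + 1) = a (n + 1) + a (n + 2) - a n := by rw [h1, if_pos rfl]
  have f4 : tv n b (n + 1) = b (n + 1) + b (n + 2) - b n := by rw [h2, if_pos rfl]
  have f5 : tv n a (n + 1 + 1) = a (n + 2) := by rw [h1, if_neg (by omega)]
  have f6 : tv n b (n + 1 + 1) = b (n + 2) := by rw [h2, if_neg (by omega)]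
  rw [f1, f2, f3, f4, f5, f6]
  have g1 : a (n + 1 + 1) = a (n + 2) := rfl
  have g2 : b (n + 1 + 1) = b (n + 2) := rfl
  rw [g1, g2]
  ring

theorem W_tv {d : ℕ} (i : Fin (d - 1)) (a b : V) :
    W d (tv i a) (tv i b) = W d a b := W_tv_nat (by omega) a b

theorem W_rep {d : ℕ} (g : BraidGroup d) : ∀ a b : V, W d (rep d g a) (rep d g b) = W d a b := by
  have hb : g ∈ Subgroup.closure (Set.range (PresentedGroup.of (rels := braidRels d))) := by
    rw [PresentedGroup.closure_range_of]; trivial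
  induction hb using Subgroup.closure_induction with
  | mem z hz =>
    obtain ⟨i, rfl⟩ := hz
    intro a b
    have h0 : (PresentedGroup.of i : BraidGroup d) = sig i := rfl
    rw [h0, rep_sig, W_tv]
  | one => intro a b; simp
  | mul g h _ _ hg hh =>
    intro a b
    rw [map_mul, LinearEquiv.mul_apply, LinearEquiv.mul_apply, hg, hh]
  | inv g _ hg =>
    intro a b
    rw [← hg, ← LinearEquiv.mul_apply, ← LinearEquiv.mul_apply, ← map_mul, mul_inv_cancel,
      map_one]
    rfl

theorem W_rep_right {d : ℕ} (g : BraidGroup d) (a b : V) :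
    W d a (rep d g b) = W d (rep d g⁻¹ a) b := by
  rw [← W_rep g (rep d g⁻¹ a) b, ← LinearEquiv.mul_apply, ← map_mul, mul_inv_cancel, map_one]
  rfl

/-! ### Congruences -/

/-- Congruence modulo three of the first coordinates. -/
def Cg (d : ℕ) (a b : V) : Prop := ∀ j ≤ d, (3 : ℤ) ∣ b j - a j

theorem Cg.refl (d : ℕ) (a : V) : Cg d a a := fun j _ => by simp

theorem Cg.symm {d : ℕ} {a b : V} (h : Cg d a b) : Cg d b a := fun j hj => by
  have := h j hj
  omega

theorem Cg.trans {d : ℕ} {a b c : V} (h : Cg d a b) (h' : Cg d b c) : Cg d a c := fun j hj => by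
  have := h j hj
  have := h' j hj
  omega

theorem cg_tv {d n : ℕ} (hn : n + 2 ≤ d) {a b : V} (h : Cg d a b) :
    Cg d (tv n a) (tv n b) := by
  intro j hj
  have h1 : ∀ c : V, tv n c j = if j = n + 1 then c (n + 1) + c (n + 2) - c n else c j :=
    fun c => rfl
  rw [h1, h1]
  split_ifs with hj'
  · have e1 := h (n + 1) (by omega)
    have e2 := h (n + 2) (by omega)
    have e3 := h n (by omega)
    omega
  · exact h j hj

theorem cg_tv_inv {d n : ℕ} (hn : n + 2 ≤ d) {a b : V} (h : Cg d a b) :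
    Cg d ((tv n)⁻¹ a) ((tv n)⁻¹ b) := by
  intro j hj
  have h1 : ∀ c : V, (tv n)⁻¹ c j =
      if j = n + 1 then c (n + 1) - c (n + 2) + c n else c j := fun c => rfl
  rw [h1, h1]
  split_ifs with hj'
  · have e1 := h (n + 1) (by omega)
    have e2 := h (n + 2) (by omega)
    have e3 := h n (by omega)
    omega
  · exact h j hj

theorem cg_rep {d : ℕ} (g : BraidGroup d) :
    (∀ a b : V, Cg d a b → Cg d (rep d g a) (rep d g b)) ∧
    (∀ a b : V, Cg d a b → Cg d (rep d g⁻¹ a) (rep d g⁻¹ b)) := by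
  have hb : g ∈ Subgroup.closure (Set.range (PresentedGroup.of (rels := braidRels d))) := by
    rw [PresentedGroup.closure_range_of]; trivial
  induction hb using Subgroup.closure_induction with
  | mem z hz =>
    obtain ⟨i, rfl⟩ := hz
    have h0 : (PresentedGroup.of i : BraidGroup d) = sig i := rfl
    rw [h0]
    constructor
    · intro a b h
      rw [rep_sig]
      exact cg_tv (by omega) h
    · intro a b h
      rw [map_inv, rep_sig]
      exact cg_tv_inv (by omega) h
  | one => exact ⟨fun a b h => by simpa using h, fun a b h => by simpa using h⟩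
  | mul g h _ _ hg hh =>
    constructor
    · intro a b hab
      rw [map_mul, LinearEquiv.mul_apply, LinearEquiv.mul_apply]
      exact hg.1 _ _ (hh.1 _ _ hab)
    · intro a b hab
      rw [mul_inv_rev, map_mul, LinearEquiv.mul_apply, LinearEquiv.mul_apply]
      exact hh.2 _ _ (hg.2 _ _ hab)
  | inv g _ hg =>
    refine ⟨hg.2, ?_⟩
    rw [inv_inv]
    exact hg.1

theorem rep_mul_apply {d : ℕ} (g h : BraidGroup d) (a : V) :
    rep d (g * h) a = rep d g (rep d h a) := by
  rw [map_mul, LinearEquiv.mul_apply]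

theorem rep_inv_apply {d : ℕ} (g : BraidGroup d) (a : V) : rep d g (rep d g⁻¹ a) = a := by
  rw [← rep_mul_apply, mul_inv_cancel, map_one]; rfl

theorem rep_inv_apply' {d : ℕ} (g : BraidGroup d) (a : V) : rep d g⁻¹ (rep d g a) = a := by
  rw [← rep_mul_apply, inv_mul_cancel, map_one]; rfl

/-- Elements keeping `a` modulo three. -/
def Lb (d : ℕ) (a : V) (g : BraidGroup d) : Prop := Cg d a (rep d g a)

theorem Lb.inv {d : ℕ} {a : V} {g : BraidGroup d} (h : Lb d a g) : Lb d a g⁻¹ := by
  have h1 := (cg_rep g).2 _ _ h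
  rw [rep_inv_apply'] at h1
  exact h1.symm

theorem Lb.mul {d : ℕ} {a : V} {g g' : BraidGroup d} (h : Lb d a g) (h' : Lb d a g') :
    Lb d a (g * g') := by
  rw [Lb, rep_mul_apply]
  exact h.trans ((cg_rep g).1 _ _ h')

theorem W_add_left (d : ℕ) (a b c : V) : W d (a + b) c = W d a c + W d b c := by
  rw [W, W, W, ← Finset.sum_add_distrib]
  refine Finset.sum_congr rfl fun i _ => ?_
  simp only [Pi.add_apply]
  ring

theorem W_smul_left (d : ℕ) (a b : V) (n : ℤ) : W d (n • a) b = n * W d a b := by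
  rw [W, W, Finset.mul_sum]
  refine Finset.sum_congr rfl fun i _ => ?_
  simp only [Pi.smul_apply, smul_eq_mul]
  ring

theorem Cg.exists {d : ℕ} {a b : V} (h : Cg d a b) : ∃ ξ : V, ∀ j ≤ d, b j = (a + (3 : ℤ) • ξ) j := by
  refine ⟨fun j => (b j - a j) / 3, fun j hj => ?_⟩
  have := h j hj
  simp only [Pi.add_apply, Pi.smul_apply, smul_eq_mul]
  omega

/-- The quadratic quantity, additive modulo nine. -/
def Q (d : ℕ) (a : V) (g : BraidGroup d) : ℤ := W d a (rep d g a)

theorem Q_mul {d : ℕ} {a : V} {g g' : BraidGroup d} (h : Lb d a g) (h' : Lb d a g') :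
    (9 : ℤ) ∣ Q d a (g * g') - Q d a g - Q d a g' := by
  obtain ⟨ξ, hξ⟩ := h.inv.exists
  obtain ⟨η, hη⟩ := h'.exists
  have e1 : Q d a (g * g') = W d (a + (3 : ℤ) • ξ) (a + (3 : ℤ) • η) := by
    rw [Q, rep_mul_apply, W_rep_right]
    exact W_congr hξ hη
  have e2 : Q d a g = W d (a + (3 : ℤ) • ξ) a := by
    rw [Q, W_rep_right]
    exact W_congr hξ (fun _ _ => rfl)
  have e3 : Q d a g' = W d a (a + (3 : ℤ) • η) := W_congr (fun _ _ => rfl) hη
  rw [e1, e2, e3]
  simp only [W_add_left, W_add_right, W_smul_left, W_smul_right, W_self]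
  refine ⟨W d ξ η, ?_⟩
  ring

/-! ### The values on the factors -/

/-- A basis vector. -/
def bv (n : ℕ) : V := fun j => if j = n then 1 else 0

theorem tv_eq (n : ℕ) (z : V) : tv n z = z + (z (n + 2) - z n) • bv (n + 1) := by
  funext j
  show (if j = n + 1 then z (n + 1) + z (n + 2) - z n else z j) = z j + (z (n + 2) - z n) *
    (if j = n + 1 then 1 else 0)
  split_ifs with h
  · rw [h]; ring
  · ring

theorem tv_shift (n : ℕ) (z : V) (c : ℤ) :
    tv n (z + c • bv (n + 1)) = z + (c + (z (n + 2) - z n)) • bv (n + 1) := by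
  rw [tv_eq]
  have h1 : (z + c • bv (n + 1)) (n + 2) = z (n + 2) := by simp [bv]
  have h2 : (z + c • bv (n + 1)) n = z n := by simp [bv]
  rw [h1, h2]
  module

theorem tv_inv_shift (n : ℕ) (z : V) (c : ℤ) :
    (tv n)⁻¹ (z + c • bv (n + 1)) = z + (c - (z (n + 2) - z n)) • bv (n + 1) := by
  have h1 := tv_shift n z (c - (z (n + 2) - z n))
  rw [sub_add_cancel] at h1
  rw [← h1, ← LinearEquiv.mul_apply, inv_mul_cancel]
  rfl

/-- The exponent of a kind, acting on sequences. -/
theorem tv_expo (n : ℕ) (z : V) (K : Kind) :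
    (tv n ^ K.expo) z = z + (K.expo * (z (n + 2) - z n)) • bv (n + 1) := by
  have h0 : z = z + (0 : ℤ) • bv (n + 1) := by module
  cases K
  · simp only [Kind.expo, zpow_one]
    rw [tv_eq]
    module
  · simp only [Kind.expo]
    rw [zpow_ofNat, pow_two, LinearEquiv.mul_apply, tv_eq n z, tv_shift]
    congr 2
    ring
  · simp only [Kind.expo]
    rw [zpow_neg, zpow_ofNat, pow_two, mul_inv_rev, LinearEquiv.mul_apply]
    conv_lhs => rw [h0]
    rw [tv_inv_shift, tv_inv_shift]
    congr 2
    ring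
  · simp only [Kind.expo]
    rw [zpow_ofNat, pow_succ, pow_two, LinearEquiv.mul_apply, LinearEquiv.mul_apply, tv_eq n z,
      tv_shift, tv_shift]
    congr 2
    ring

theorem W_bv {d n : ℕ} (hn : n + 2 ≤ d) (z : V) : W d z (bv (n + 1)) = z n - z (n + 2) := by
  obtain ⟨e, rfl⟩ : ∃ e, d = n + 2 + e := ⟨d - (n + 2), by omega⟩
  rw [W, Finset.sum_range_add, Finset.sum_range_succ, Finset.sum_range_succ]
  have e1 : ∀ j ∈ Finset.range n, z j * bv (n + 1) (j + 1) - z (j + 1) * bv (n + 1) j = 0 := by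
    intro j hj
    rw [Finset.mem_range] at hj
    simp only [bv]
    rw [if_neg (by omega), if_neg (by omega)]
    ring
  have e2 : ∀ j ∈ Finset.range e, z (n + 2 + j) * bv (n + 1) (n + 2 + j + 1) -
      z (n + 2 + j + 1) * bv (n + 1) (n + 2 + j) = 0 := by
    intro j _
    simp only [bv]
    rw [if_neg (by omega), if_neg (by omega)]
    ring
  have b1 : bv (n + 1) (n + 1) = 1 := by simp [bv]
  have b2 : bv (n + 1) n = 0 := by simp [bv]
  have b3 : bv (n + 1) (n + 1 + 1) = 0 := by simp [bv]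
  have b4 : z (n + 1 + 1) = z (n + 2) := rfl
  rw [Finset.sum_eq_zero e1, Finset.sum_eq_zero e2, b1, b2, b3, b4]
  ring

theorem Q_factor {d : ℕ} (a : V) (p : Factor d) :
    Q d a p.braid = -(p.kind.expo * (rep d p.b⁻¹ a (p.i + 2) - rep d p.b⁻¹ a p.i) ^ 2) := by
  rw [Q, Factor.braid, rep_mul_apply, rep_mul_apply, W_rep_right, map_zpow, rep_sig, tv_expo,
    W_add_right, W_self, W_smul_right, W_bv (by omega)]
  ring

theorem Lb_factor {d : ℕ} (a : V) (p : Factor d)
    (h : (3 : ℤ) ∣ p.kind.expo * (rep d p.b⁻¹ a (p.i + 2) - rep d p.b⁻¹ a p.i)) :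
    Lb d a p.braid := by
  have h1 : Cg d (rep d p.b⁻¹ a) ((tv (p.i : ℕ) ^ p.kind.expo) (rep d p.b⁻¹ a)) := by
    intro j _
    rw [tv_expo]
    have : ((rep d p.b⁻¹ a) + (p.kind.expo * (rep d p.b⁻¹ a (p.i + 2) - rep d p.b⁻¹ a p.i)) •
        bv (p.i + 1)) j - (rep d p.b⁻¹ a) j =
        (p.kind.expo * (rep d p.b⁻¹ a (p.i + 2) - rep d p.b⁻¹ a p.i)) * bv (p.i + 1) j := by
      simp only [Pi.add_apply, Pi.smul_apply, smul_eq_mul]
      ring
    rw [this]
    exact h.mul_right _
  have h2 := (cg_rep p.b).1 _ _ h1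
  rw [rep_inv_apply] at h2
  rw [Lb, Factor.braid, rep_mul_apply, rep_mul_apply, map_zpow, rep_sig]
  exact h2

/-! ### The full twist -/

theorem prod_tv (m : ℕ) (a : V) (j : ℕ) : ((List.range m).map tv).prod a j =
    if 1 ≤ j ∧ j ≤ m then a m + a (m + 1) - a (j - 1) else a j := by
  induction m generalizing a with
  | zero =>
    rw [if_neg (by omega)]
    rfl
  | succ m ih =>
    rw [List.range_succ, List.map_append, List.prod_append, List.map_cons, List.map_nil,
      List.prod_cons, List.prod_nil, mul_one, LinearEquiv.mul_apply, ih]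
    have h1 : ∀ k, tv m a k = if k = m + 1 then a (m + 1) + a (m + 2) - a m else a k :=
      fun k => rfl
    have h2 : a (m + 1 + 1) = a (m + 2) := rfl
    by_cases hj : 1 ≤ j ∧ j ≤ m
    · rw [if_pos hj, if_pos (by omega), h1, h1, h1, if_neg (by omega), if_pos rfl,
        if_neg (by omega), h2]
      ring
    · rw [if_neg hj, h1]
      by_cases hj2 : j = m + 1
      · subst hj2
        rw [if_pos rfl, if_pos (by omega), Nat.add_sub_cancel, h2]
      · rw [if_neg hj2, if_neg (by omega)]

theorem map_val_finRange (n : ℕ) :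
    (List.finRange n).map (fun i : Fin n => (i : ℕ)) = List.range n := by
  apply List.ext_getElem <;> simp

theorem rep_rot {d : ℕ} (hd : 2 ≤ d) (a : V) (j : ℕ) : rep d (rot d) a j =
    if 1 ≤ j ∧ j < d then a (d - 1) + a d - a (j - 1) else a j := by
  have h1 : rep d (rot d) = ((List.range (d - 1)).map tv).prod := by
    rw [rot, map_list_prod, List.map_map, ← map_val_finRange, List.map_map]
    refine congrArg List.prod (List.map_congr_left fun i _ => ?_)
    exact rep_sig i
  rw [h1, prod_tv]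
  have h2 : d - 1 + 1 = d := by omega
  rw [h2]
  by_cases hj : 1 ≤ j ∧ j < d
  · rw [if_pos (by omega), if_pos hj]
  · rw [if_neg (by omega), if_neg hj]

/-- The periodic extension of a sequence. -/
def per (d : ℕ) (a : V) (n : ℤ) : ℤ := a (n % d).toNat

theorem per_add (d : ℕ) (a : V) (n : ℤ) : per d a (n + d) = per d a n := by
  rw [per, per, Int.add_emod_right]

theorem rep_rot_pow {d : ℕ} (hd : 2 ≤ d) (a : V) (h0 : a 0 = 0) (hd0 : a d = 0) (m : ℕ) :
    ∀ j ≤ d, rep d (rot d ^ m) a j = (-1) ^ m * (per d a (j - m) - per d a (-m)) := by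
  induction m with
  | zero =>
    intro j hj
    have h1 : per d a (-((0 : ℕ) : ℤ)) = 0 := by simp [per, h0]
    rw [h1, pow_zero, map_one, pow_zero]
    show a j = 1 * (a (((j : ℤ) - ((0 : ℕ) : ℤ)) % d).toNat - 0)
    by_cases hjd : j = d
    · subst hjd
      simp [h0, hd0]
    · have : (((j : ℤ) - ((0 : ℕ) : ℤ)) % d).toNat = j := by
        have h2 : ((j : ℤ) - ((0 : ℕ) : ℤ)) % d = j := by
          rw [Nat.cast_zero, sub_zero]
          exact Int.emod_eq_of_lt (by omega) (by omega)
        rw [h2]; simp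
      rw [this]; ring
  | succ m ih =>
    intro j hj
    rw [pow_succ', rep_mul_apply, rep_rot hd]
    have e0 : per d a (((d : ℕ) : ℤ) - m) = per d a (-m) := by
      rw [show ((d : ℕ) : ℤ) - m = -m + d by ring, per_add]
    have e1 : per d a (((d - 1 : ℕ) : ℤ) - m) = per d a (-((m + 1 : ℕ) : ℤ)) := by
      rw [show ((d - 1 : ℕ) : ℤ) - m = -((m + 1 : ℕ) : ℤ) + d by push_cast [show 1 ≤ d by omega]; ring,
        per_add]
    by_cases hjj : 1 ≤ j ∧ j < d
    · rw [if_pos hjj, ih (d - 1) (by omega), ih d le_rfl, ih (j - 1) (by omega), e0, e1]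
      have e2 : ((j - 1 : ℕ) : ℤ) - m = (j : ℤ) - ((m + 1 : ℕ) : ℤ) := by
        push_cast [hjj.1]; ring
      rw [e2, pow_succ]
      ring
    · rw [if_neg hjj, ih j hj]
      have hj' : j = 0 ∨ j = d := by omega
      rcases hj' with rfl | rfl
      · simp
      · rw [e0]
        have e3 : per j a ((j : ℤ) - ((m + 1 : ℕ) : ℤ)) = per j a (-((m + 1 : ℕ) : ℤ)) := by
          rw [show ((j : ℕ) : ℤ) - ((m + 1 : ℕ) : ℤ) = -((m + 1 : ℕ) : ℤ) + j by ring, per_add]
        rw [e3]; ring

theorem Q_rot {d k : ℕ} (hd : 2 ≤ d) (hev : Even d) (a : V) (h0 : a 0 = 0) (hd0 : a d = 0) :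
    Q d a (rot d ^ (d * k)) = 0 := by
  rw [Q, ← W_self d a]
  refine W_congr (fun _ _ => rfl) (fun j hj => ?_)
  rw [rep_rot_pow hd a h0 hd0 _ j hj]
  have h1 : ∀ n : ℤ, per d a (n - ((d * k : ℕ) : ℤ)) = per d a n := by
    intro n
    rw [per, per]
    congr 2
    push_cast
    exact Int.sub_mul_emod_self_left n d k
  have h2 : per d a (-((d * k : ℕ) : ℤ)) = per d a 0 := by
    rw [← h1 0]; simp
  rw [h1, h2, (hev.mul_right k).neg_one_pow, one_mul]
  have h3 : per d a 0 = 0 := by simp [per, h0]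
  rw [h3, sub_zero]
  by_cases hjd : j = d
  · subst hjd
    simp [per, h0, hd0]
  · show a ((j : ℤ) % d).toNat = a j
    have h4 : ((j : ℤ) % d) = j := Int.emod_eq_of_lt (by omega) (by omega)
    rw [h4]; simp

/-! ### The divisibility -/

/-- The alternating sums of a sequence of colours. -/
def alt (X : ℕ → ZMod 3) : ℕ → ZMod 3
  | 0 => 0
  | j + 1 => X j - alt X j

theorem prod_tri (X : ℕ → ZMod 3) (m : ℕ) (y : ZMod 3) :
    ((List.range m).map (fun j => tri (X j))).prod y =
      (-1) ^ m * y + 2 * (-1) ^ (m + 1) * alt X m := by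
  induction m generalizing y with
  | zero => simp [alt]
  | succ m ih =>
    rw [List.range_succ, List.map_append, List.prod_append, List.map_cons, List.map_nil,
      List.prod_cons, List.prod_nil, mul_one, Equiv.Perm.mul_apply, ih, tri_apply, alt]
    ring

theorem three_dvd_cusps {d k : ℕ} (hd : 2 ≤ d) (θ : FreeGroup (Fin d) →* Equiv.Perm (ZMod 3))
    (x : Fin d → ZMod 3) (hx : ∀ j, θ (FreeGroup.of j) = tri (x j))
    (hprod : ((List.finRange d).map (fun j => θ (FreeGroup.of j))).prod = 1)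
    (F : List (Factor d)) (hF : (F.map Factor.braid).prod = rot d ^ (d * k))
    (h1 : ∀ p ∈ F, p.kind = .cusp → θ (artin d p.b (FreeGroup.of (lo p.i))) ≠
      θ (artin d p.b (FreeGroup.of (hi p.i))))
    (h2 : ∀ p ∈ F, p.kind ≠ .cusp → θ (artin d p.b (FreeGroup.of (lo p.i))) =
      θ (artin d p.b (FreeGroup.of (hi p.i)))) : 3 ∣ count .cusp F := by
  classical
  -- the colours as a sequence
  let X : ℕ → ZMod 3 := fun j => if h : j < d then x ⟨j, h⟩ else 0
  have hX : ∀ j : Fin d, X j = x j := fun j => by simp [X]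
  let a : V := fun j => ((alt X j).val : ℤ)
  have ha : ∀ j, ((a j : ℤ) : ZMod 3) = alt X j := by
    intro j
    show ((((alt X j).val : ℕ) : ℤ) : ZMod 3) = alt X j
    rw [Int.cast_natCast, ZMod.natCast_val, ZMod.cast_id]
  have hθ : θ = thx d a := by
    ext1 j
    rw [hx, thx_of, ha, ha, ← hX]
    congr 1
    show X j = alt X j + (X j - alt X j)
    ring
  have hprod' : ((List.range d).map (fun j => tri (X j))).prod = 1 := by
    rw [← hprod, ← map_val_finRange, List.map_map]
    refine congrArg List.prod (List.map_congr_left fun j _ => ?_)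
    rw [hx, ← hX]
    rfl
  have e0 := prod_tri X d 0
  have e1 := prod_tri X d 1
  rw [hprod'] at e0 e1
  simp only [Equiv.Perm.one_apply, mul_zero, mul_one, zero_add] at e0 e1
  rw [← e0, add_zero] at e1
  have hev : Even d := by
    rcases Nat.even_or_odd d with h | h
    · exact h
    · rw [h.neg_one_pow] at e1
      exact absurd e1 (by decide)
  have hsd : alt X d = 0 := by
    rw [pow_succ, ← e1] at e0
    have h3 : ∀ y : ZMod 3, 0 = 2 * (1 * -1) * y → y = 0 := by decide
    exact h3 _ e0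
  have ha0 : a 0 = 0 := rfl
  have had : a d = 0 := by
    show ((alt X d).val : ℤ) = 0
    rw [hsd]; rfl
  -- colours at a factor
  have hcol : ∀ p : Factor d, (θ (artin d p.b (FreeGroup.of (lo p.i))) =
      θ (artin d p.b (FreeGroup.of (hi p.i)))) ↔
      (3 : ℤ) ∣ (rep d p.b⁻¹ a (p.i + 2) - rep d p.b⁻¹ a p.i) := by
    intro p
    have f1 : ((lo p.i : Fin d) : ℕ) = p.i := rfl
    have f2 : ((hi p.i : Fin d) : ℕ) = p.i + 1 := rfl
    rw [hθ, thx_artin, thx_artin, thx_of, thx_of, f1, f2]
    have h3 : rep d p.b⁻¹ a (p.i + 1 + 1) = rep d p.b⁻¹ a (p.i + 2) := rfl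
    rw [h3]
    have h4 : (3 : ℤ) ∣ (rep d p.b⁻¹ a (p.i + 2) - rep d p.b⁻¹ a p.i) ↔
        ((rep d p.b⁻¹ a (p.i + 2) : ℤ) : ZMod 3) = ((rep d p.b⁻¹ a p.i : ℤ) : ZMod 3) := by
      have := ZMod.intCast_eq_intCast_iff_dvd_sub (rep d p.b⁻¹ a p.i) (rep d p.b⁻¹ a (p.i + 2)) 3
      rw [eq_comm, this]
      rfl
    rw [h4]
    constructor
    · intro h
      have := tri_inj h
      linear_combination -this
    · intro h
      rw [h, add_comm]
  have hLb : ∀ p ∈ F, Lb d a p.braid := by
    intro p hp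
    apply Lb_factor
    by_cases hk : p.kind = .cusp
    · rw [hk]
      exact Dvd.intro _ rfl
    · exact Dvd.dvd.mul_left ((hcol p).1 (h2 p hp hk)) _
  have hQ : ∀ p ∈ F, (9 : ℤ) ∣ Q d a p.braid + 3 * (if p.kind = .cusp then 1 else 0) := by
    intro p hp
    rw [Q_factor]
    by_cases hk : p.kind = .cusp
    · have h3 := mt (hcol p).2 (h1 p hp hk)
      rw [if_pos hk, hk]
      obtain ⟨u, hu⟩ : ∃ u, u = rep d p.b⁻¹ a (p.i + 2) - rep d p.b⁻¹ a p.i := ⟨_, rfl⟩
      rw [← hu] at h3 ⊢
      have h4 : (3 : ℤ) ∣ 1 - u ^ 2 := by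
        have h5 : u % 3 = 1 ∨ u % 3 = 2 := by omega
        rcases h5 with h5 | h5
        · obtain ⟨v, hv⟩ : ∃ v, u = 3 * v + 1 := ⟨u / 3, by omega⟩
          exact ⟨-(3 * v ^ 2 + 2 * v), by rw [hv]; ring⟩
        · obtain ⟨v, hv⟩ : ∃ v, u = 3 * v + 2 := ⟨u / 3, by omega⟩
          exact ⟨-(3 * v ^ 2 + 4 * v + 1), by rw [hv]; ring⟩
      obtain ⟨w, hw⟩ := h4
      refine ⟨w, ?_⟩
      show -((3 : ℤ) * u ^ 2) + 3 * 1 = 9 * w
      linear_combination 3 * hw
    · have h3 := (hcol p).1 (h2 p hp hk)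
      rw [if_neg hk]
      obtain ⟨v, hv⟩ := h3
      refine ⟨-(p.kind.expo * v ^ 2), ?_⟩
      rw [hv]
      ring
  have hall : ∀ G : List (Factor d), (∀ p ∈ G, p ∈ F) →
      Lb d a (G.map Factor.braid).prod ∧
      (9 : ℤ) ∣ Q d a (G.map Factor.braid).prod + 3 * (count .cusp G : ℤ) := by
    intro G
    induction G with
    | nil =>
      intro _
      constructor
      · intro j _; simp
      · simp [Q, W_self, count]
    | cons p G ih =>
      intro hG
      obtain ⟨i1, i2⟩ := ih (fun q hq => hG q (List.mem_cons_of_mem _ hq))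
      have i3 := hLb p (hG p List.mem_cons_self)
      have i4 := hQ p (hG p List.mem_cons_self)
      rw [List.map_cons, List.prod_cons]
      refine ⟨i3.mul i1, ?_⟩
      have i5 := Q_mul i3 i1
      have i6 : count .cusp (p :: G) = count .cusp G + (if p.kind = .cusp then 1 else 0) := by
        simp [count, List.countP_cons]
      rw [i6]
      push_cast
      omega
  have hfin := (hall F (fun p hp => hp)).2
  rw [hF, Q_rot hd hev a ha0 had, zero_add] at hfin
  omega

end Pool.Agent.Helper834.Tri
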