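import Pool.Agent.Helper834.Conc

/-!
The upper bound for the positive index of the standard word.
-/

namespace Pool.Agent.Helper834.LT

open scoped ComplexConjugate
open Pool.Agent.Helper496.BraidFact

/-- The scalar identity behind the diagonalization. -/
theorem scal {R φ : ℝ} {τ : ℂ} (hre : τ.re = R * Real.sin φ) (him : τ.im = R * Real.cos φ)
    (m : ℕ) (hs : Real.sin (m * φ) ≠ 0) (hs' : Real.sin ((m + 1) * φ) ≠ 0) (Z Z' : ℂ) :
    (τ * (conj (Z - Z') * (Z - Z')) + (τ + conj τ) * (conj (Z - Z') * Z')).im +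
      R * (Real.sin φ * Real.cos (m * φ) / Real.sin (m * φ)) * Complex.normSq Z' =
    R * (Real.sin φ * Real.cos ((m + 1) * φ) / Real.sin ((m + 1) * φ)) * Complex.normSq Z +
      R * (Real.sin ((m + 1) * φ) / Real.sin (m * φ)) *
        Complex.normSq (Z' - (Real.sin (m * φ) / Real.sin ((m + 1) * φ) : ℝ) *
          Complex.exp (-(φ : ℂ) * Complex.I) * Z) := by
  have e1 : Real.sin ((m + 1) * φ) =
      Real.sin (m * φ) * Real.cos φ + Real.cos (m * φ) * Real.sin φ := by
    rw [show ((m : ℝ) + 1) * φ = m * φ + φ by ring, Real.sin_add]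
  have e2 : Real.cos ((m + 1) * φ) =
      Real.cos (m * φ) * Real.cos φ - Real.sin (m * φ) * Real.sin φ := by
    rw [show ((m : ℝ) + 1) * φ = m * φ + φ by ring, Real.cos_add]
  have h4 : Real.sin φ ^ 2 + Real.cos φ ^ 2 = 1 := Real.sin_sq_add_cos_sq φ
  obtain ⟨r, hr⟩ : ∃ r, r = Real.sin (m * φ) / Real.sin ((m + 1) * φ) := ⟨_, rfl⟩
  obtain ⟨r', hr'⟩ : ∃ r', r' = Real.sin ((m + 1) * φ) / Real.sin (m * φ) := ⟨_, rfl⟩
  obtain ⟨p, hp⟩ : ∃ p, p = Real.sin φ * Real.cos (m * φ) / Real.sin (m * φ) := ⟨_, rfl⟩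
  obtain ⟨q, hq⟩ : ∃ q, q = Real.sin φ * Real.cos ((m + 1) * φ) / Real.sin ((m + 1) * φ) :=
    ⟨_, rfl⟩
  have h1 : Real.cos φ + p = r' := by
    rw [hp, hr', e1]
    field_simp
  have h2 : Real.cos φ = q + r := by
    rw [hq, hr, ← add_div, eq_div_iff hs', e1, e2]
    linear_combination (Real.sin (m * φ)) * h4
  have h3 : r * r' = 1 := by
    rw [hr, hr', div_mul_div_comm, mul_comm (Real.sin (m * φ)),
      div_self (mul_ne_zero hs' hs)]
  rw [← hr, ← hr', ← hp, ← hq]
  simp only [Complex.normSq_apply, Complex.add_im, Complex.mul_im, Complex.mul_re,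
    Complex.sub_re, Complex.sub_im, Complex.conj_re, Complex.conj_im, Complex.add_re, hre, him,
    exp_neg_I_re, exp_neg_I_im, Complex.ofReal_re, Complex.ofReal_im]
  linear_combination (R * (Z.re * Z.re + Z.im * Z.im)) * h2 +
    (R * (Z'.re * Z'.re + Z'.im * Z'.im)) * h1 -
    R * (Z.re * Z.re + Z.im * Z.im) * r * h3 -
    R * (Z.re * Z.re + Z.im * Z.im) * r * r * r' * h4 +
    2 * R * (Real.cos φ * (Z.re * Z'.re + Z.im * Z'.im) -
      Real.sin φ * (Z.re * Z'.im - Z.im * Z'.re)) * h3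

theorem sin_floor (w : ℝ) : 0 ≤ (-1 : ℝ) ^ ⌊w⌋ * Real.sin (Real.pi * w) := by
  have h1 : Real.pi * w = Real.pi * Int.fract w + ⌊w⌋ * Real.pi := by
    have := Int.fract_add_floor w
    calc Real.pi * w = Real.pi * (Int.fract w + ⌊w⌋) := by rw [this]
      _ = _ := by ring
  rw [h1, Real.sin_add_int_mul_pi, ← mul_assoc, ← zpow_add₀ (by norm_num), ← two_mul,
    zpow_mul]
  norm_num
  apply Real.sin_nonneg_of_nonneg_of_le_pi
  · have := Real.pi_pos
    have := Int.fract_nonneg w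
    positivity
  · have h2 := Real.pi_pos
    have h3 := (Int.fract_lt_one w).le
    nlinarith

theorem floor_le {y : ℝ} (hy1 : y < 1) (m : ℕ) :
    ⌊((m : ℝ) + 1) * y⌋ ≤ ⌊(m : ℝ) * y⌋ + 1 := by
  have h1 : ((m : ℝ) + 1) * y < m * y + 1 := by nlinarith
  have h2 := Int.floor_le_floor h1.le
  rw [Int.floor_add_one] at h2
  exact h2

theorem sin_prod_abs (x : ℝ) (m : ℕ) :
    Real.sin (m * (Real.pi * x)) * Real.sin ((m + 1) * (Real.pi * x)) =
      Real.sin (Real.pi * (m * |x|)) * Real.sin (Real.pi * ((m + 1) * |x|)) := by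
  rcases le_total 0 x with h | h
  · rw [abs_of_nonneg h]
    congr 2 <;> ring
  · rw [abs_of_nonpos h]
    have e1 : Real.pi * (m * -x) = -(m * (Real.pi * x)) := by ring
    have e2 : Real.pi * (((m : ℝ) + 1) * -x) = -((m + 1) * (Real.pi * x)) := by ring
    rw [e1, e2, Real.sin_neg, Real.sin_neg]
    ring

theorem floor_eq_of_sin_pos {x : ℝ} (hx : |x| < 1) (m : ℕ)
    (h : 0 < Real.sin (m * (Real.pi * x)) * Real.sin ((m + 1) * (Real.pi * x))) :
    ⌊((m : ℝ) + 1) * |x|⌋ ≤ ⌊(m : ℝ) * |x|⌋ := by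
  by_contra hcon
  have h1 := floor_le hx m
  have h2 : ⌊((m : ℝ) + 1) * |x|⌋ = ⌊(m : ℝ) * |x|⌋ + 1 := by omega
  rw [sin_prod_abs] at h
  have h3 := sin_floor ((m : ℝ) * |x|)
  have h4 := sin_floor (((m : ℝ) + 1) * |x|)
  rw [h2, zpow_add_one₀ (by norm_num)] at h4
  have h5 := mul_nonneg h3 h4
  have h6 : ((-1 : ℝ) ^ ⌊(m : ℝ) * |x|⌋) * ((-1 : ℝ) ^ ⌊(m : ℝ) * |x|⌋) = 1 := by
    rw [← zpow_add₀ (by norm_num), ← two_mul, zpow_mul]; norm_num
  have h7 : (-1 : ℝ) ^ ⌊(m : ℝ) * |x|⌋ * Real.sin (Real.pi * (m * |x|)) *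
      ((-1 : ℝ) ^ ⌊(m : ℝ) * |x|⌋ * -1 * Real.sin (Real.pi * ((m + 1) * |x|))) =
      -(Real.sin (Real.pi * (m * |x|)) * Real.sin (Real.pi * ((m + 1) * |x|))) := by
    linear_combination (-(Real.sin (Real.pi * (m * |x|)) *
      Real.sin (Real.pi * ((m + 1) * |x|)))) * h6
  rw [h7] at h5
  linarith

/-! ### The induction -/

/-- The number `(i + 1) / d - α`. -/
noncomputable def xx (d : ℕ) (α : ℝ) (i : Fin (d - 1)) : ℝ := ((i : ℕ) + 1) / d - α

theorem ph_eq (d : ℕ) (α : ℝ) (i : Fin (d - 1)) : ph d α i = Real.pi * xx d α i := by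
  rw [ph, th, xx]; ring

theorem TT_apply (d : ℕ) (α : ℝ) (x y : Fin (d - 1) → ℂ) :
    TT d α x y = ∑ i, tau d α i * (conj (x i) * y i) := rfl

theorem hh_apply (d : ℕ) (α : ℝ) (x y : Fin (d - 1) → ℂ) :
    hh d α x y = ∑ i, (tau d α i + conj (tau d α i)) * (conj (x i) * y i) := rfl

/-- The upper bound on the positive part, in terms of linear conditions. -/
def UB {d : ℕ} (α : ℝ) (w : List (Letter (hh d α) (tt α))) (m : ℕ) : Prop :=
  ∃ (ι : Type) (_ : Fintype ι) (L : ι → ((space w).E →ₗ[ℂ] ℂ)),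
    (Fintype.card ι : ℤ) ≤ ∑ i : Fin (d - 1), ((m : ℤ) - 1 - ⌊(m : ℝ) * |xx d α i|⌋) ∧
    ∀ e, (∀ j, L j e = 0) → ((space w).T e e).im ≤
      ∑ i : Fin (d - 1), rr d i * (Real.sin (ph d α i) * Real.cos (m * ph d α i) /
        Real.sin (m * ph d α i)) * Complex.normSq ((space w).v e i)

theorem UB.one {d : ℕ} (hd : 2 ≤ d) (α : ℝ) (hx : ∀ i, |xx d α i| < 1)
    (hs : ∀ i, Real.sin (ph d α i) ≠ 0) : UB α ((ys hd α).um 1) 1 := by
  obtain ⟨π₁, π₂, h1, h2⟩ := exists_split ([] : List (Letter (hh d α) (tt α))) (ys hd α).u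
  have hum : (ys hd α).um 1 = (ys hd α).u ++ [] := rfl
  rw [hum]
  refine ⟨Empty, inferInstance, fun j => j.elim, ?_, ?_⟩
  · have : ∀ i : Fin (d - 1), ((1 : ℕ) : ℤ) - 1 - ⌊((1 : ℕ) : ℝ) * |xx d α i|⌋ = 0 := by
      intro i
      have h3 : ⌊((1 : ℕ) : ℝ) * |xx d α i|⌋ = 0 := by
        rw [Int.floor_eq_zero_iff]
        refine ⟨by positivity, ?_⟩
        simpa using hx i
      rw [h3]; simp
    rw [Finset.sum_congr rfl (fun i _ => this i)]
    simp
  · intro e _
    have h3 : (space ([] : List (Letter (hh d α) (tt α)))).v (π₂ e) = 0 := rfl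
    have h4 : (space ([] : List (Letter (hh d α) (tt α)))).T (π₂ e) (π₂ e) = 0 := rfl
    rw [h2, h1, h3, h4, map_zero, add_zero, add_zero, add_zero, (ys_half hd α).u]
    rw [TT_apply, Complex.im_sum]
    refine Finset.sum_le_sum fun i _ => ?_
    have h5 : tau d α i * (conj ((space (ys hd α).u).v (π₁ e) i) *
        (space (ys hd α).u).v (π₁ e) i) =
        ((Complex.normSq ((space (ys hd α).u).v (π₁ e) i) : ℝ) : ℂ) * tau d α i := by
      rw [mul_comm (conj _), Complex.mul_conj]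
      ring
    rw [h5, Complex.im_ofReal_mul, tau_im]
    simp only [Nat.cast_one, one_mul]
    rw [mul_div_assoc, ]
    have h6 : Real.sin (ph d α i) * (Real.cos (ph d α i) / Real.sin (ph d α i)) =
        Real.cos (ph d α i) := by
      have := hs i
      field_simp
    rw [h6]
    exact le_of_eq (by ring)

theorem UB.step {d : ℕ} (hd : 2 ≤ d) (α : ℝ) (hx : ∀ i, |xx d α i| < 1) {m : ℕ}
    (hs : ∀ i, Real.sin (m * ph d α i) ≠ 0) (hs' : ∀ i, Real.sin ((m + 1) * ph d α i) ≠ 0)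
    {w : List (Letter (hh d α) (tt α))} (hw : UB α w m) :
    UB α ((ys hd α).u ++ w) (m + 1) := by
  obtain ⟨π₁, π₂, h1, h2⟩ := exists_split w (ys hd α).u
  obtain ⟨ι, hι, L, hc, hL⟩ := hw
  classical
  let P : Fin (d - 1) → Prop := fun i =>
    0 < Real.sin (m * ph d α i) * Real.sin ((m + 1) * ph d α i)
  let c : Fin (d - 1) → ℂ := fun i =>
    (Real.sin (m * ph d α i) / Real.sin ((m + 1) * ph d α i) : ℝ) *
      Complex.exp (-(ph d α i : ℂ) * Complex.I)
  let ℓ : Fin (d - 1) → ((space ((ys hd α).u ++ w)).E →ₗ[ℂ] ℂ) := fun i =>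
    (LinearMap.proj i).comp ((space w).v.comp π₂) -
      c i • (LinearMap.proj i).comp (space ((ys hd α).u ++ w)).v
  have hℓ : ∀ i e, ℓ i e = (space w).v (π₂ e) i -
      c i * (space ((ys hd α).u ++ w)).v e i := fun i e => rfl
  refine ⟨ι ⊕ {i // P i}, inferInstance,
    Sum.elim (fun j => (L j).comp π₂) (fun j => ℓ j.1), ?_, ?_⟩
  · rw [Fintype.card_sum, Fintype.card_subtype]
    have h3 : ((Finset.univ.filter P).card : ℤ) = ∑ i : Fin (d - 1), (if P i then (1 : ℤ) else 0) := by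
      rw [Finset.card_filter]; push_cast; rfl
    push_cast
    rw [h3]
    refine (add_le_add_left hc _).trans ?_
    rw [← Finset.sum_add_distrib]
    refine Finset.sum_le_sum fun i _ => ?_
    by_cases hP : P i
    · rw [if_pos hP]
      have h4 : 0 < Real.sin (m * (Real.pi * xx d α i)) *
          Real.sin ((m + 1) * (Real.pi * xx d α i)) := by
        rw [← ph_eq]; exact hP
      have h5 := floor_eq_of_sin_pos (hx i) m h4
      omega
    · rw [if_neg hP]
      have h5 := floor_le (hx i) m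
      omega
  · intro e he
    have h3 := hL (π₂ e) (fun j => he (Sum.inl j))
    have h4 : ∀ i, P i → ℓ i e = 0 := fun i hi => he (Sum.inr ⟨i, hi⟩)
    have hv : ∀ i, (space (ys hd α).u).v (π₁ e) i =
        (space ((ys hd α).u ++ w)).v e i - (space w).v (π₂ e) i := by
      intro i
      rw [h1 e]
      simp
    rw [h2, (ys_half hd α).u]
    have h5 : (TT d α ((space (ys hd α).u).v (π₁ e)) ((space (ys hd α).u).v (π₁ e)) +
        hh d α ((space (ys hd α).u).v (π₁ e)) ((space w).v (π₂ e))).im =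
        ∑ i, (tau d α i * (conj ((space ((ys hd α).u ++ w)).v e i - (space w).v (π₂ e) i) *
          ((space ((ys hd α).u ++ w)).v e i - (space w).v (π₂ e) i)) +
          (tau d α i + conj (tau d α i)) *
          (conj ((space ((ys hd α).u ++ w)).v e i - (space w).v (π₂ e) i) *
            (space w).v (π₂ e) i)).im := by
      rw [TT_apply, hh_apply, ← Finset.sum_add_distrib, Complex.im_sum]
      refine Finset.sum_congr rfl fun i _ => ?_
      rw [hv i]
    rw [Complex.add_im, h5]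
    refine (add_le_add_right h3 _).trans ?_
    rw [← Finset.sum_add_distrib]
    refine Finset.sum_le_sum fun i _ => ?_
    have h6 := scal (tau_re α i) (tau_im α i) m (hs i) (hs' i)
      ((space ((ys hd α).u ++ w)).v e i) ((space w).v (π₂ e) i)
    rw [h6]
    have h7 : rr d i * (Real.sin ((m + 1) * ph d α i) / Real.sin (m * ph d α i)) *
        Complex.normSq ((space w).v (π₂ e) i - c i * (space ((ys hd α).u ++ w)).v e i) ≤ 0 := by
      by_cases hP : P i
      · have h8 := h4 i hP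
        rw [hℓ] at h8
        rw [h8]; simp
      · have h9 : Real.sin ((m + 1) * ph d α i) / Real.sin (m * ph d α i) ≤ 0 := by
          have h10 : Real.sin (m * ph d α i) * Real.sin ((m + 1) * ph d α i) ≤ 0 := not_lt.1 hP
          have h13 : Real.sin ((m + 1) * ph d α i) / Real.sin (m * ph d α i) =
              (Real.sin (m * ph d α i) * Real.sin ((m + 1) * ph d α i)) /
              (Real.sin (m * ph d α i) * Real.sin (m * ph d α i)) := by
            rw [mul_div_mul_left _ _ (hs i)]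
          rw [h13]
          exact div_nonpos_of_nonpos_of_nonneg h10 (mul_self_nonneg _)
        have h11 := rr_nonneg i
        have h12 := Complex.normSq_nonneg
          ((space w).v (π₂ e) i - c i * (space ((ys hd α).u ++ w)).v e i)
        exact mul_nonpos_of_nonpos_of_nonneg (mul_nonpos_of_nonneg_of_nonpos h11 h9) h12
    have h14 : ((m + 1 : ℕ) : ℝ) = (m : ℝ) + 1 := by push_cast; rfl
    rw [h14]
    change _ + _ * Complex.normSq ((space w).v (π₂ e) i -
      c i * (space ((ys hd α).u ++ w)).v e i) ≤ _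
    linarith

end Pool.Agent.Helper834.LT
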