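import Pool.Agent.Helper834.Core

/-!
Words in signed unitary reflections and the monoid of words up to the moves which keep the
positive index (corrected by the number of negative letters) in every context.
-/

namespace Pool.Agent.Helper834.LT

open scoped ComplexConjugate

variable {V : Type} [AddCommGroup V] [Module ℂ V]

/-- A letter: a vector of the right norm and a sign. -/
structure Letter (h : V →ₗ⋆[ℂ] V →ₗ[ℂ] ℂ) (t : ℂ) where
  /-- the vector -/
  x : V
  hx : h x x = t + conj t
  /-- whether the letter is negative -/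
  neg : Bool

variable {h : V →ₗ⋆[ℂ] V →ₗ[ℂ] ℂ} {t : ℂ}

/-- The parameter of a letter. -/
def Letter.τ (l : Letter h t) : ℂ := if l.neg then conj t else t

theorem Letter.hxτ (l : Letter h t) : h l.x l.x = l.τ + conj l.τ := by
  rw [l.hx, Letter.τ]
  split_ifs
  · rw [Complex.conj_conj, add_comm]
  · rfl

theorem Letter.hτ (ht : conj t * t = 1) (l : Letter h t) : conj l.τ * l.τ = 1 := by
  rw [Letter.τ]
  split_ifs
  · rw [Complex.conj_conj, mul_comm, ht]
  · exact ht

/-- The inverse letter. -/
def Letter.inv (l : Letter h t) : Letter h t := ⟨l.x, l.hx, !l.neg⟩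

theorem Letter.inv_τ (l : Letter h t) : l.inv.τ = conj l.τ := by
  rcases l with ⟨x, hx, b⟩
  cases b <;> simp [Letter.τ, Letter.inv]

@[simp] theorem Letter.inv_inv (l : Letter h t) : l.inv.inv = l := by
  rcases l with ⟨x, hx, b⟩
  simp [Letter.inv]

/-- The space of a word. -/
def space : List (Letter h t) → Sp V
  | [] => Sp.nil
  | l :: w => Sp.cons h l.x l.τ (space w)

/-- The number of negative letters. -/
def nneg (w : List (Letter h t)) : ℤ := (w.map (fun l => if l.neg then (1 : ℤ) else 0)).sum

@[simp] theorem nneg_nil : nneg ([] : List (Letter h t)) = 0 := rfl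

@[simp] theorem nneg_cons (l : Letter h t) (w : List (Letter h t)) :
    nneg (l :: w) = (if l.neg then (1 : ℤ) else 0) + nneg w := by simp [nneg]

@[simp] theorem nneg_append (w w' : List (Letter h t)) :
    nneg (w ++ w') = nneg w + nneg w' := by simp [nneg]

theorem space_good (hs : Sym h) : ∀ w : List (Letter h t), Good h (space w)
  | [] => Good.nil h
  | l :: w => Good.cons h hs l.hxτ (space_good hs w)

/-- Positive index at least `n`, for integers `n`. -/
def PosZ (S : Sp V) (n : ℤ) : Prop := HasPos S n.toNat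

theorem PosZ.of_nonpos {S : Sp V} {n : ℤ} (hn : n ≤ 0) : PosZ S n := by
  rw [PosZ, Int.toNat_of_nonpos hn]
  exact HasPos.zero S

theorem PosZ.emb {S S' : Sp V} (f : Emb S S') {n : ℤ} (hS : PosZ S n) : PosZ S' n :=
  HasPos.emb f hS

/-- The cancelling pair inside a word. -/
def cancWord (B : List (Letter h t)) (l : Letter h t) : ∀ A : List (Letter h t),
    Canc l.x l.τ (space (A ++ B)) (space (A ++ l :: l.inv :: B))
  | [] => by
    have := Canc.base h l.x l.τ l.hxτ (space B)
    rw [← l.inv_τ] at this
    exact this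
  | a :: A => Canc.cons h (cancWord B l A) a.x a.τ

theorem cancel_word (hs : Sym h) (ht : conj t * t = 1) (A B : List (Letter h t))
    (l : Letter h t) (hl : ∃ e, (space (A ++ B)).v e = l.x) (n : ℤ) :
    PosZ (space (A ++ l :: l.inv :: B)) (n + 1) ↔ PosZ (space (A ++ B)) n := by
  have C := cancWord B l A
  by_cases hn : n < 0
  · constructor
    · intro _; exact PosZ.of_nonpos hn.le
    · intro _; exact PosZ.of_nonpos (by omega)
  · have e1 : (n + 1).toNat = n.toNat + 1 := by omega
    rw [PosZ, PosZ, e1]
    constructor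
    · intro H; exact C.hasPos_of H
    · intro H
      exact C.to_hasPos h (l.hτ ht) (space_good hs _) hl H

/-- Vectors reached by a word. -/
def Reach (w : List (Letter h t)) (x : V) : Prop := ∃ e, (space w).v e = x

theorem Reach.cons {w : List (Letter h t)} {x : V} (hx : Reach w x) (l : Letter h t) :
    Reach (l :: w) x := by
  obtain ⟨e, he⟩ := hx
  refine ⟨((0, e) : ℂ × (space w).E), ?_⟩
  show (Sp.cons h l.x l.τ (space w)).v ((0, e) : ℂ × (space w).E) = x
  rw [Sp.cons_v, he]; simp

theorem Reach.append_left {w : List (Letter h t)} {x : V} (hx : Reach w x) :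
    ∀ A : List (Letter h t), Reach (A ++ w) x
  | [] => hx
  | a :: A => (Reach.append_left hx A).cons a

theorem Reach.append_right {x : V} (B : List (Letter h t)) :
    ∀ {w : List (Letter h t)}, Reach w x → Reach (w ++ B) x := by
  intro w
  induction w generalizing x with
  | nil =>
    rintro ⟨e, he⟩
    have hx : x = 0 := by
      rw [← he]; rfl
    exact ⟨0, by rw [map_zero, hx]⟩
  | cons l w ih =>
    rintro ⟨⟨a, e⟩, he⟩
    change (Sp.cons h l.x l.τ (space w)).v ((a, e) : ℂ × (space w).E) = x at he
    rw [Sp.cons_v] at he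
    obtain ⟨e', he'⟩ := ih ⟨e, rfl⟩
    refine ⟨((a, e') : ℂ × (space (w ++ B)).E), ?_⟩
    show (Sp.cons h l.x l.τ (space (w ++ B))).v ((a, e') : ℂ × (space (w ++ B)).E) = x
    rw [Sp.cons_v, he', he]

/-- A word in front of an embedding. -/
def embFront {B B' : List (Letter h t)} (f : Emb (space B) (space B')) :
    ∀ A : List (Letter h t), Emb (space (A ++ B)) (space (A ++ B'))
  | [] => f
  | a :: A => Emb.cons h a.x a.τ (embFront f A)

/-- Two words are equivalent if they have the same corrected positive index in every context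
which starts with `u`. -/
def Rel (u w w' : List (Letter h t)) : Prop :=
  ∀ (p s : List (Letter h t)) (n : ℤ),
    PosZ (space (u ++ (p ++ (w ++ s)))) (n + nneg w) ↔
      PosZ (space (u ++ (p ++ (w' ++ s)))) (n + nneg w')

theorem Rel.of_emb {u w w' : List (Letter h t)} (hn : nneg w = nneg w')
    (f : ∀ s, Nonempty (Emb (space (w ++ s)) (space (w' ++ s))))
    (g : ∀ s, Nonempty (Emb (space (w' ++ s)) (space (w ++ s)))) : Rel u w w' := by
  intro p s n
  obtain ⟨f⟩ := f s
  obtain ⟨g⟩ := g s
  rw [hn]
  exact ⟨PosZ.emb (embFront (embFront f p) u), PosZ.emb (embFront (embFront g p) u)⟩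

/-- The congruence on words. -/
def wcon (u : List (Letter h t)) : Con (FreeMonoid (Letter h t)) where
  r a b := Rel u a.toList b.toList
  iseqv :=
    { refl := fun _ _ _ _ => Iff.rfl
      symm := fun H p s n => (H p s n).symm
      trans := fun H H' p s n => (H p s n).trans (H' p s n) }
  mul' := by
    intro w w' z z' H H' p s n
    rw [FreeMonoid.toList_mul, FreeMonoid.toList_mul, nneg_append, nneg_append]
    have h1 := H p (z.toList ++ s) (n + nneg z.toList)
    have h2 := H' (p ++ w'.toList) s (n + nneg w'.toList)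
    simp only [List.append_assoc] at h1 h2 ⊢
    rw [show n + (nneg w.toList + nneg z.toList) = n + nneg z.toList + nneg w.toList by ring,
      show n + (nneg w'.toList + nneg z'.toList) = n + nneg w'.toList + nneg z'.toList by ring,
      h1, ← h2]
    rw [show n + nneg z.toList + nneg w'.toList = n + nneg w'.toList + nneg z.toList by ring]

/-- The class of a word. -/
def cls (u w : List (Letter h t)) : (wcon u).Quotient := (wcon u).mk' (FreeMonoid.ofList w)

theorem cls_append (u w w' : List (Letter h t)) : cls u (w ++ w') = cls u w * cls u w' := by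
  rw [cls, cls, cls, ← map_mul]; rfl

theorem cls_cons (u w : List (Letter h t)) (l : Letter h t) :
    cls u (l :: w) = cls u [l] * cls u w := cls_append u [l] w

theorem cls_nil (u : List (Letter h t)) : cls u [] = 1 := rfl

theorem cls_eq {u w w' : List (Letter h t)} : cls u w = cls u w' ↔ Rel u w w' := by
  rw [cls, cls]
  exact Con.eq _

theorem cls_inv (hs : Sym h) (ht : conj t * t = 1) {u : List (Letter h t)}
    (hu : ∀ x, Reach u x) (l : Letter h t) : cls u [l] * cls u [l.inv] = 1 := by
  rw [← cls_append, ← cls_nil u, cls_eq]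
  intro p s n
  have h1 : nneg ([l] ++ [l.inv]) = 1 := by
    rcases l with ⟨x, hx, b⟩
    cases b <;> simp [Letter.inv]
  rw [h1, nneg_nil, add_zero]
  have h2 := cancel_word hs ht (u ++ p) s l (by
    have := Reach.append_right (p ++ s) (hu l.x)
    rw [← List.append_assoc] at this
    exact this) n
  simp only [List.append_assoc, List.cons_append, List.nil_append] at h2 ⊢
  exact h2

/-- The unit attached to a letter. -/
def lunit (hs : Sym h) (ht : conj t * t = 1) {u : List (Letter h t)} (hu : ∀ x, Reach u x)
    (l : Letter h t) : (wcon u).Quotientˣ where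
  val := cls u [l]
  inv := cls u [l.inv]
  val_inv := cls_inv hs ht hu l
  inv_val := by
    have := cls_inv hs ht hu l.inv
    rwa [Letter.inv_inv] at this

theorem refl_h (hs : Sym h) {x : V} {τ : ℂ} (hτ : conj τ * τ = 1)
    (hx : h x x = τ + conj τ) (y z : V) : h (refl h x τ y) (refl h x τ z) = h y z := by
  have hyx : h y x = conj (h x y) := (hs x y).symm
  rw [refl, refl]
  simp only [map_sub, map_mul, map_smulₛₗ, LinearMap.sub_apply, LinearMap.smul_apply,
    smul_eq_mul, Complex.conj_conj, RingHom.id_apply, hx, hyx]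
  linear_combination (conj (h x y) * h x z * (conj τ + τ)) * hτ

theorem refl_refl {x : V} {τ : ℂ} (hτ : conj τ * τ = 1)
    (hx : h x x = τ + conj τ) (y : V) : refl h x (conj τ) (refl h x τ y) = y := by
  simp only [refl, map_sub, map_smulₛₗ, smul_eq_mul, RingHom.id_apply, Complex.conj_conj, hx]
  have : ((conj τ * h x y) + τ * (h x y - conj τ * h x y * (τ + conj τ))) = 0 := by
    linear_combination (-(h x y) * (τ + conj τ)) * hτ
  rw [sub_sub, ← add_smul, this]
  simp

/-- The reflection as a linear equivalence. -/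
def reflE (h : V →ₗ⋆[ℂ] V →ₗ[ℂ] ℂ) (x : V) (τ : ℂ) (hτ : conj τ * τ = 1) (hx : h x x = τ + conj τ) :
    V ≃ₗ[ℂ] V where
  toFun := refl h x τ
  invFun := refl h x (conj τ)
  map_add' y z := by simp only [refl, map_add]; module
  map_smul' c y := by
    simp only [refl, map_smulₛₗ, RingHom.id_apply, smul_eq_mul]; module
  left_inv y := refl_refl hτ hx y
  right_inv y := by
    have := refl_refl (h := h) (x := x) (τ := conj τ) (by rw [Complex.conj_conj, mul_comm, hτ])
      (by rw [hx, Complex.conj_conj, add_comm]) y
    rwa [Complex.conj_conj] at this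

theorem reflE_apply (x : V) (τ : ℂ) (hτ : conj τ * τ = 1)
    (hx : h x x = τ + conj τ) (y : V) : reflE h x τ hτ hx y = refl h x τ y := rfl

/-- Moving a letter by an isometry. -/
def Letter.map (g : V → V) (hg : ∀ x y, h (g x) (g y) = h x y) (l : Letter h t) :
    Letter h t := ⟨g l.x, by rw [hg, l.hx], l.neg⟩

theorem cls_hurwitz (hs : Sym h) (ht : conj t * t = 1) (u : List (Letter h t))
    (l m : Letter h t) : cls u [l] * cls u [m] =
      cls u [m.map (refl h l.x l.τ) (refl_h hs (l.hτ ht) l.hxτ)] * cls u [l] := by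
  rw [← cls_append, ← cls_append, cls_eq]
  apply Rel.of_emb
  · simp [Letter.map]; ring
  · intro s
    exact ⟨hurwitz h hs l.x m.x l.τ m.τ (l.hτ ht) l.hxτ (space s)⟩
  · intro s
    exact ⟨hurwitz' h hs l.x m.x l.τ m.τ (l.hτ ht) l.hxτ (space s)⟩

theorem smul_norm {x : V} (hx : h x x = t + conj t) {lam : ℂ} (hl : conj lam * lam = 1) :
    h (lam • x) (lam • x) = t + conj t := by
  simp only [map_smulₛₗ, LinearMap.smul_apply, smul_eq_mul, RingHom.id_apply, hx]
  linear_combination (t + conj t) * hl

theorem cls_phase (u : List (Letter h t)) (l : Letter h t) {lam : ℂ}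
    (hl : conj lam * lam = 1) :
    cls u [(⟨lam • l.x, smul_norm l.hx hl, l.neg⟩ : Letter h t)] = cls u [l] := by
  rw [cls_eq]
  apply Rel.of_emb
  · simp
  · intro s
    exact ⟨phase' h l.x l.τ lam hl (space s)⟩
  · intro s
    exact ⟨phase h l.x l.τ lam hl (space s)⟩

theorem Letter.ext' {l m : Letter h t} (h1 : l.x = m.x) (h2 : l.neg = m.neg) : l = m := by
  rcases l with ⟨x, hx, b⟩
  rcases m with ⟨y, hy, c⟩
  simp only at h1 h2
  subst h1 h2
  rfl

/-- The positive letter of a vector. -/
def pos (x : V) (hx : h x x = t + conj t) : Letter h t := ⟨x, hx, false⟩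

theorem refl_of_zero {x y : V} {τ : ℂ} (hxy : h x y = 0) : refl h x τ y = y := by
  simp [refl, hxy]

theorem cls_comm (hs : Sym h) (ht : conj t * t = 1) (u : List (Letter h t)) {x y : V}
    (hx : h x x = t + conj t) (hy : h y y = t + conj t) (hxy : h x y = 0) :
    cls u [pos x hx] * cls u [pos y hy] = cls u [pos y hy] * cls u [pos x hx] := by
  rw [cls_hurwitz hs ht]
  congr 2
  congr 1
  exact Letter.ext' (refl_of_zero hxy) rfl

/-- The identity behind the braid relation. -/
theorem refl_braid (ht : conj t * t = 1) {x y : V} (hx : h x x = t + conj t)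
    (hxy : h x y = -1) (hyx : h y x = -1) :
    refl h x t (refl h y t x) = conj t • y := by
  simp only [refl, map_sub, map_smulₛₗ, smul_eq_mul, RingHom.id_apply, hx, hxy, hyx]
  have : conj t * (t + conj t - conj t * -1 * -1) = 1 := by
    linear_combination ht
  rw [this]
  module

theorem cls_braid (hs : Sym h) (ht : conj t * t = 1) (u : List (Letter h t)) {x y : V}
    (hx : h x x = t + conj t) (hy : h y y = t + conj t) (hxy : h x y = -1)
    (hyx : h y x = -1) :
    cls u [pos x hx] * cls u [pos y hy] * cls u [pos x hx] =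
      cls u [pos y hy] * cls u [pos x hx] * cls u [pos y hy] := by
  have h1 : cls u [((pos x hx).map (refl h (pos y hy).x (pos y hy).τ)
      (refl_h hs ((pos y hy).hτ ht) (pos y hy).hxτ)).map
      (refl h (pos x hx).x (pos x hx).τ) (refl_h hs ((pos x hx).hτ ht) (pos x hx).hxτ)] =
      cls u [pos y hy] := by
    rw [← cls_phase u (pos y hy) (lam := conj t) (by rw [Complex.conj_conj, mul_comm, ht])]
    congr 2
    exact Letter.ext' (refl_braid ht hx hxy hyx) rfl
  have h2 := cls_hurwitz hs ht u (pos y hy) (pos x hx)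
  have h3 := cls_hurwitz hs ht u (pos x hx) ((pos x hx).map (refl h (pos y hy).x (pos y hy).τ)
      (refl_h hs ((pos y hy).hτ ht) (pos y hy).hxτ))
  rw [h1] at h3
  calc cls u [pos x hx] * cls u [pos y hy] * cls u [pos x hx]
      = cls u [pos x hx] * (cls u [pos y hy] * cls u [pos x hx]) := mul_assoc _ _ _
    _ = cls u [pos x hx] * (cls u [(pos x hx).map (refl h (pos y hy).x (pos y hy).τ)
      (refl_h hs ((pos y hy).hτ ht) (pos y hy).hxτ)] * cls u [pos y hy]) := by
        exact congrArg _ h2
    _ = cls u [pos x hx] * cls u [(pos x hx).map (refl h (pos y hy).x (pos y hy).τ)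
      (refl_h hs ((pos y hy).hτ ht) (pos y hy).hxτ)] * cls u [pos y hy] :=
        (mul_assoc _ _ _).symm
    _ = _ := by rw [h3]

end Pool.Agent.Helper834.LT
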